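import Pool.Agent.K9h46.ZO.Core

/-!
# Leading coefficients of polynomial phases (helper46): logarithmic averages
-/

set_option autoImplicit false

namespace Pool.Agent.K9h46.ZO

open Finset Polynomial MeasureTheory
open Pool.Agent.H807R2.Dav (ee norm_ee ee_add)
open Pool.Agent.Helper44K9.FU
open Pool.Agent.Helper44K9.FU.FL

/-- the phases of degree at most `d` with leading coefficient in `E` do not correlate with `f` in short
intervals -/
def Unif (f : ℕ → ℂ) (d : ℕ) (E : Set UnitAddCircle) : Prop :=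
  ∀ ε : ℝ, 0 < ε → ∃ H₀ : ℕ, ∀ H : ℕ, H₀ ≤ H → ∃ N₀ : ℕ, ∀ N : ℕ, N₀ ≤ N →
    ∑ n ∈ Icc 1 N, (1 / (n : ℝ)) * wSup d E f n H ≤ ε * H * Real.log N

/-- the harmonic sum -/
noncomputable def hs (N : ℕ) : ℝ := ∑ n ∈ Icc 1 N, 1 / (n : ℝ)

theorem hs_nonneg (N : ℕ) : 0 ≤ hs N := sum_nonneg fun _ _ => by positivity

theorem hs_le (N : ℕ) : hs N ≤ 1 + Real.log N := by
  have h1 := harmonic_le_one_add_log N
  refine le_trans (le_of_eq ?_) h1
  rw [harmonic_eq_sum_Icc]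
  unfold hs
  push_cast
  exact sum_congr rfl fun x _ => one_div _

theorem sum_le_hs (s : ℕ → ℝ) (h : ∀ n, s n ≤ 1) (N : ℕ) : ∑ n ∈ Icc 1 N, (1 / (n : ℝ)) * s n ≤ hs N := by
  unfold hs
  refine sum_le_sum fun n _ => ?_
  have := mul_le_mul_of_nonneg_left (h n) (show (0 : ℝ) ≤ 1 / (n : ℝ) by positivity)
  rwa [mul_one] at this

/-- passing to shorter windows -/
theorem shorter (s s' : ℕ → ℝ) (C H N : ℕ) (η : ℝ) (hs1 : ∀ n, s n ≤ 1) (hs' : ∀ n, 0 ≤ s' n ∧ s' n ≤ 1)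
    (hC : 1 ≤ C) (hH : 1 ≤ H) (hN : C * H ≤ N) (hη : 0 ≤ η)
    (h : ∀ n, s n ≤ (1 / (H : ℝ)) * ∑ i ∈ range H, s' (n + i) + η) :
    ∑ n ∈ Icc 1 N, (1 / (n : ℝ)) * s n ≤
      ∑ n ∈ Icc 1 N, (1 / (n : ℝ)) * s' n + (1 / (C : ℝ) + η) * hs N + (3 + Real.log ((C * H : ℕ) : ℝ)) := by
  have h1 := sub s s' C H N η hs' hC hH hN hη h
  have h2 : ∑ n ∈ Icc 1 N, (1 / (n : ℝ)) * s n =
      ∑ n ∈ Icc 1 (C * H), (1 / (n : ℝ)) * s n + ∑ n ∈ Ioc (C * H) N, (1 / (n : ℝ)) * s n := by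
    rw [← sum_union]
    · congr 1
      ext m
      simp only [mem_Icc, mem_union, mem_Ioc]
      omega
    · rw [Finset.disjoint_left]
      intro m h3 h4
      rw [mem_Icc] at h3
      rw [mem_Ioc] at h4
      omega
  have h3 := sum_le_hs s hs1 (C * H)
  have h4 := hs_le (C * H)
  have h5 := sum_le_hs s' (fun n => (hs' n).2) N
  have hC0 : (0 : ℝ) < C := by exact_mod_cast hC
  have h6 : 1 / (C : ℝ) ≤ 1 := by rw [div_le_one hC0]; exact_mod_cast hC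
  have h7 := mul_le_mul_of_nonneg_left h5 (show 0 ≤ 1 / (C : ℝ) by positivity)
  have h8 : ∑ n ∈ Icc 1 N, 1 / (n : ℝ) = hs N := rfl
  rw [h2]
  rw [h8] at h1
  have h9 : (1 + 1 / (C : ℝ)) * (∑ n ∈ Icc 1 N, (1 / (n : ℝ)) * s' n + 1) =
      ∑ n ∈ Icc 1 N, (1 / (n : ℝ)) * s' n + (1 / (C : ℝ)) * ∑ n ∈ Icc 1 N, (1 / (n : ℝ)) * s' n +
        1 + 1 / (C : ℝ) := by ring
  rw [h9] at h1
  have h10 : (1 / (C : ℝ) + η) * hs N = 1 / (C : ℝ) * hs N + η * hs N := by ring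
  rw [h10]
  linarith

theorem wSup_div {f : ℕ → ℂ} (hf : ∀ n, ‖f n‖ ≤ 1) (d : ℕ) (E : Set UnitAddCircle) (n H : ℕ) :
    0 ≤ wSup d E f n H / H ∧ wSup d E f n H / H ≤ 1 := by
  refine ⟨div_nonneg (wSup_nonneg n H) (Nat.cast_nonneg _), ?_⟩
  exact div_le_one_of_le₀ (wSup_le (Nat.cast_nonneg _) fun P _ _ => W_le hf P n H) (Nat.cast_nonneg _)

/-- finite sets of leading coefficients -/
theorem unif_fin {f : ℕ → ℂ} (hf : ∀ n, ‖f n‖ ≤ 1) (d : ℕ) (R : Finset UnitAddCircle)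
    (h : ∀ x ∈ R, Unif f d {x}) : Unif f d (R : Set UnitAddCircle) := by
  classical
  intro ε hε
  have hc : (0 : ℝ) < R.card + 1 := by positivity
  have h1 : ∀ x : UnitAddCircle, ∃ H₀ : ℕ, x ∈ R → ∀ H : ℕ, H₀ ≤ H → ∃ N₀ : ℕ, ∀ N : ℕ, N₀ ≤ N →
      ∑ n ∈ Icc 1 N, (1 / (n : ℝ)) * wSup d {x} f n H ≤ ε / (R.card + 1) * H * Real.log N := by
    intro x
    by_cases hx : x ∈ R
    · obtain ⟨H₀, h2⟩ := h x hx (ε / (R.card + 1)) (by positivity)
      exact ⟨H₀, fun _ => h2⟩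
    · exact ⟨0, fun h => absurd h hx⟩
  choose H₀ hH₀ using h1
  refine ⟨R.sup H₀, fun H hH => ?_⟩
  have h2 : ∀ x : UnitAddCircle, ∃ N₀ : ℕ, x ∈ R → ∀ N : ℕ, N₀ ≤ N →
      ∑ n ∈ Icc 1 N, (1 / (n : ℝ)) * wSup d {x} f n H ≤ ε / (R.card + 1) * H * Real.log N := by
    intro x
    by_cases hx : x ∈ R
    · obtain ⟨N₀, h2⟩ := hH₀ x hx H ((Finset.le_sup hx).trans hH)
      exact ⟨N₀, fun _ => h2⟩
    · exact ⟨0, fun h => absurd h hx⟩
  choose N₀ hN₀ using h2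
  refine ⟨R.sup N₀, fun N hN => ?_⟩
  have h3 : ∑ n ∈ Icc 1 N, (1 / (n : ℝ)) * wSup d (R : Set UnitAddCircle) f n H ≤
      ∑ x ∈ R, ∑ n ∈ Icc 1 N, (1 / (n : ℝ)) * wSup d {x} f n H := by
    rw [sum_comm]
    refine sum_le_sum fun n _ => ?_
    rw [← mul_sum]
    exact mul_le_mul_of_nonneg_left (wSup_fin hf R d n H) (by positivity)
  refine h3.trans ((sum_le_card_nsmul _ _ _ fun x hx => hN₀ x hx N ((Finset.le_sup hx).trans hN)).trans ?_)
  rw [nsmul_eq_mul]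
  have h4 : 0 ≤ (H : ℝ) * Real.log N := mul_nonneg (Nat.cast_nonneg _) (Real.log_natCast_nonneg N)
  have h5 : (R.card : ℝ) * (ε / (R.card + 1)) ≤ ε := by
    rw [mul_div_assoc', div_le_iff₀ hc]
    nlinarith
  calc (R.card : ℝ) * (ε / (R.card + 1) * H * Real.log N) =
      (R.card : ℝ) * (ε / (R.card + 1)) * (H * Real.log N) := by ring
    _ ≤ ε * (H * Real.log N) := mul_le_mul_of_nonneg_right h5 h4
    _ = _ := by ring

/-- **Main inequality.** The phases with an arbitrary leading coefficient and those with a leading coefficient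
in `E`. -/
theorem main_ineq (hPW : S_PW) (hPUSH : S_PUSH) {f : ℕ → ℂ} (hf : Mul1 f) {d : ℕ} (hd : 1 ≤ d)
    (hR : ∀ (q : ℕ) (a : ℤ), 1 ≤ q → Unif f d {(((a : ℝ) / q : ℝ) : UnitAddCircle)})
    (E : Set UnitAddCircle) {K : ℕ} (hK : 1 ≤ K) {ε : ℝ} (hε : 0 < ε) :
    ∃ H₀ : ℕ, ∀ H : ℕ, H₀ ≤ H → ∃ N₀ : ℕ, ∀ N : ℕ, N₀ ≤ N →
      (volume (closure E)).toReal * ∑ n ∈ Icc 1 N, (1 / (n : ℝ)) * (wSup d Set.univ f n H / H) ≤
        ∑ n ∈ Icc 1 N, (1 / (n : ℝ)) * (wSup d E f n K / K) + ε * Real.log N := by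
  classical
  set v : ℝ := (volume (closure E)).toReal with hv
  have hv0 : 0 ≤ v := ENNReal.toReal_nonneg
  have hv1 : v ≤ 1 := by
    rw [hv]
    have h1 : volume (closure E) ≤ 1 := by
      refine (measure_mono (Set.subset_univ _)).trans (le_of_eq ?_)
      exact UnitAddCircle.measure_univ
    exact ENNReal.toReal_le_of_le_ofReal zero_le_one (by simpa using h1)
  set δ : ℝ := min (ε / 40) 1 with hδ
  have hδ0 : 0 < δ := lt_min (by positivity) one_pos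
  have hδε : 40 * δ ≤ ε := by
    have := min_le_left (ε / 40) (1 : ℝ)
    linarith
  -- all sums over `N` grow
  have hbig : ∀ M : ℝ, ∃ N₀ : ℕ, ∀ N : ℕ, N₀ ≤ N → M ≤ δ * Real.log N := by
    intro M
    obtain ⟨N₀, hN₀⟩ := exists_nat_ge (Real.exp (M / δ))
    refine ⟨N₀ + 1, fun N hN => ?_⟩
    have hN0 : (0 : ℝ) < N := by exact_mod_cast (by omega : 0 < N)
    have h1 : M / δ ≤ Real.log N := by
      rw [Real.le_log_iff_exp_le hN0]
      exact hN₀.trans (by exact_mod_cast (by omega : N₀ ≤ N))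
    rw [div_le_iff₀ hδ0] at h1
    linarith
  have hSE : ∀ N : ℕ, 0 ≤ ∑ n ∈ Icc 1 N, (1 / (n : ℝ)) * (wSup d E f n K / K) := fun N =>
    sum_nonneg fun n _ => mul_nonneg (by positivity) (wSup_div hf.1 d E n K).1
  rcases lt_or_ge v (2 * δ) with hsm | hlg
  · -- small measure
    obtain ⟨N₀, hN₀⟩ := hbig (2 * δ)
    refine ⟨0, fun H _ => ⟨N₀, fun N hN => ?_⟩⟩
    have h1 := sum_le_hs (fun n => wSup d Set.univ f n H / H) (fun n => (wSup_div hf.1 d Set.univ n H).2) N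
    have h2 := hs_le N
    have h3 : 0 ≤ ∑ n ∈ Icc 1 N, (1 / (n : ℝ)) * (wSup d Set.univ f n H / H) :=
      sum_nonneg fun n _ => mul_nonneg (by positivity) (wSup_div hf.1 d Set.univ n H).1
    have h4 : v * ∑ n ∈ Icc 1 N, (1 / (n : ℝ)) * (wSup d Set.univ f n H / H) ≤ 2 * δ * (1 + Real.log N) :=
      mul_le_mul hsm.le (h1.trans h2) h3 (by positivity)
    have h5 := hN₀ N hN
    have h6 := hSE N
    have h7 : 0 ≤ Real.log N := Real.log_natCast_nonneg N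
    nlinarith
  -- the choices
  set κ : ℝ := δ / 8 with hκ
  have hκ0 : 0 < κ := by positivity
  have hπκ : 2 * Real.pi * κ ≤ δ := by
    rw [hκ]
    have := Real.pi_lt_d2
    nlinarith
  have hK0 : (0 : ℝ) < K := by exact_mod_cast hK
  have hr0 : 0 < κ / (K : ℝ) ^ d := by positivity
  obtain ⟨Q, hQ1, hEQ⟩ := equi hPW d hd (closure E) (Metric.thickening (κ / (K : ℝ) ^ d) E) isClosed_closure
    Metric.isOpen_thickening (Metric.closure_subset_thickening hr0 E) δ hδ0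
  have hRf : Unif f d (frac Q) := unif_fin hf.1 d (frac Q) fun x hx => by
    obtain ⟨q, a, hq, rfl⟩ := frac_rat hx
    exact hR q a hq
  obtain ⟨H₁, hH₁⟩ := hRf δ hδ0
  set H' : ℕ := H₁ + 1 with hH'
  have hH'1 : 1 ≤ H' := by omega
  have hH'0 : (0 : ℝ) < H' := by exact_mod_cast hH'1
  obtain ⟨N₁, hN₁⟩ := hH₁ H' (by omega)
  set τ : ℝ := κ / (H' : ℝ) ^ d with hτ
  have hτ0 : 0 < τ := by positivity
  have hτκ : τ * (H' : ℝ) ^ d ≤ κ := by rw [hτ]; apply le_of_eq; field_simp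
  obtain ⟨z, hz⟩ := exists_nat_ge (8 / δ)
  obtain ⟨I, hI, hIA, hIeq⟩ := hEQ τ hτ0 z (300 / δ ^ 2 / δ + 1)
  set Wt : ℝ := ∑ p ∈ I, wt p with hWt
  have hWt0 : 0 < Wt := lt_of_lt_of_le (by positivity) hIA
  have hδW : 300 / δ ^ 2 ≤ δ * Wt := by
    have h1 : 300 / δ ^ 2 / δ ≤ Wt := by linarith
    rw [div_le_iff₀ hδ0] at h1
    linarith
  obtain ⟨H₂, hH₂⟩ := hPUSH I δ hδ0 fun p hp => ⟨(hI p hp).1, hz.trans (by exact_mod_cast (hI p hp).2.1.le)⟩
  obtain ⟨A₁, hA₁⟩ := exists_nat_ge (2 * (K : ℝ) / δ)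
  obtain ⟨A₂, hA₂⟩ := exists_nat_ge (2 * (H' : ℝ) / δ)
  obtain ⟨C₀, hC₀⟩ := exists_nat_ge (1 / δ)
  have hC₀1 : 1 ≤ C₀ := by
    by_contra hcon
    have h1 : C₀ = 0 := by omega
    rw [h1] at hC₀
    have : 0 < 1 / δ := by positivity
    push_cast at hC₀
    linarith
  have hC₀δ : 1 / (C₀ : ℝ) ≤ δ := by
    have h1 : (0 : ℝ) < C₀ := by exact_mod_cast hC₀1
    rw [div_le_iff₀ h1]
    rw [div_le_iff₀ hδ0] at hC₀
    linarith
  set B : ℕ := I.sup id with hB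
  have hBp : ∀ p ∈ I, p ≤ B := fun p hp => Finset.le_sup (f := id) hp
  refine ⟨H₂ + B * (A₁ + 1) + A₂ + 1, fun H hH => ?_⟩
  have hH1 : 1 ≤ H := by omega
  have hH0 : (0 : ℝ) < H := by exact_mod_cast hH1
  have hHp : ∀ p ∈ I, p ≤ H := by
    intro p hp
    have h1 := hBp p hp
    have h2 : B ≤ B * (A₁ + 1) := Nat.le_mul_of_pos_right _ (by omega)
    omega
  have hHpK : ∀ p ∈ I, A₁ + 1 ≤ H / p := by
    intro p hp
    rw [Nat.le_div_iff_mul_le (hI p hp).1.pos]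
    have h1 := Nat.mul_le_mul_left (A₁ + 1) (hBp p hp)
    have h2 : (A₁ + 1) * B = B * (A₁ + 1) := mul_comm _ _
    omega
  have hHδ : 2 * (H' : ℝ) / H ≤ δ := by
    have h1 : (A₂ : ℝ) ≤ H := by exact_mod_cast (by omega : A₂ ≤ H)
    rw [div_le_iff₀ hδ0] at hA₂
    rw [div_le_iff₀ hH0]
    nlinarith
  -- the constant
  set M₁ : ℝ := (1 / Wt) * ∑ p ∈ I, wt p * ((1 + Real.log p) + (3 + Real.log ((C₀ * (H / p) : ℕ) : ℝ))) with hM₁
  set M₂ : ℝ := 3 + Real.log ((C₀ * H : ℕ) : ℝ) with hM₂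
  obtain ⟨N₂, hN₂⟩ := hbig (M₁ + M₂ + 20 * δ)
  refine ⟨N₁ + N₂ + C₀ * H, fun N hN => ?_⟩
  have hNN : C₀ * H ≤ N := by omega
  have hlog0 : 0 ≤ Real.log N := Real.log_natCast_nonneg N
  have hhs0 := hs_nonneg N
  have hhs := hs_le N
  set v' : ℝ := v - 2 * δ with hv'
  have hv'0 : 0 ≤ v' := by linarith
  have hv'1 : v' ≤ 1 := by linarith
  set sT : ℕ → ℝ := fun n => wSup d Set.univ f n H / H with hsT
  set sE : ℕ → ℝ := fun n => wSup d E f n K / K with hsE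
  set U : Set UnitAddCircle := Metric.thickening (κ / (K : ℝ) ^ d) E with hU
  -- the pointwise inequality
  have hpt : ∀ n : ℕ, v' * (sT n - δ) ≤
      (1 / Wt) * ∑ p ∈ I, wt p * (wSup d U f (n / p) (H / p) / ((H / p : ℕ) : ℝ)) +
      ((1 / (H : ℝ)) * ∑ i ∈ range H, wSup d (frac Q) f (n + i) H' / H') + 2 * δ := by
    intro n
    obtain ⟨X, hX⟩ : ∃ X : ℝ, X = (1 / Wt) * ∑ p ∈ I, wt p * (wSup d U f (n / p) (H / p) / ((H / p : ℕ) : ℝ)) +
      ((1 / (H : ℝ)) * ∑ i ∈ range H, wSup d (frac Q) f (n + i) H' / H') + 2 * δ := ⟨_, rfl⟩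
    have h1 : ∀ P : ℝ[X], P.natDegree ≤ d → v' * (‖W f P n H‖ / H - δ) ≤ X := by
      intro P hP
      have h2 := core hf hv'0 hv'1 hδ0 hκ0.le hH'1 hτκ (fun p hp => ⟨(hI p hp).1, (hI p hp).2.2⟩)
        hWt0 hδW (fun α hα => by
          have h3 := hIeq α hα
          rw [hv']
          rw [show v - 2 * δ + δ = v - δ by ring]
          exact h3) hP (n := n) hH1 hHp (hH₂ H (by omega) f hf P n)
      rw [hX]
      linarith
    rw [← hX]
    rcases hv'0.eq_or_lt with h0 | hpos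
    · have h2 := h1 0 (by simp)
      rw [← h0, zero_mul] at h2 ⊢
      exact h2
    · have h2 : sT n - δ ≤ X / v' := by
        have hX0 : 0 ≤ (X / v' + δ) * H := by
          have h3 := h1 0 (by simp)
          have h4 : ‖W f 0 n H‖ / H - δ ≤ X / v' := by
            rw [le_div_iff₀ hpos]; linarith
          have h5 : 0 ≤ ‖W f 0 n H‖ / H := by positivity
          have h6 : 0 ≤ X / v' + δ := by linarith
          positivity
        have h3 : wSup d Set.univ f n H ≤ (X / v' + δ) * H := by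
          refine wSup_le hX0 fun P hP _ => ?_
          have h4 := h1 P hP
          have h5 : ‖W f P n H‖ / H ≤ X / v' + δ := by
            have h6 : ‖W f P n H‖ / H - δ ≤ X / v' := by
              rw [le_div_iff₀ hpos]; linarith
            linarith
          rwa [div_le_iff₀ hH0] at h5
        rw [← div_le_iff₀ hH0] at h3
        simp only [hsT]
        linarith
      rw [le_div_iff₀ hpos] at h2
      linarith
  -- sum over `n`
  have hsum : v' * (∑ n ∈ Icc 1 N, (1 / (n : ℝ)) * sT n - δ * hs N) ≤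
      (1 / Wt) * ∑ p ∈ I, wt p * ∑ n ∈ Icc 1 N, (1 / (n : ℝ)) * (wSup d U f (n / p) (H / p) / ((H / p : ℕ) : ℝ)) +
      ∑ n ∈ Icc 1 N, (1 / (n : ℝ)) * ((1 / (H : ℝ)) * ∑ i ∈ range H, wSup d (frac Q) f (n + i) H' / H') +
      2 * δ * hs N := by
    have h1 : v' * (∑ n ∈ Icc 1 N, (1 / (n : ℝ)) * sT n - δ * hs N) =
        ∑ n ∈ Icc 1 N, (1 / (n : ℝ)) * (v' * (sT n - δ)) := by
      unfold hs
      rw [mul_sum, ← sum_sub_distrib, mul_sum]
      refine sum_congr rfl fun n _ => ?_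
      ring
    have h2 : (1 / Wt) * ∑ p ∈ I, wt p * ∑ n ∈ Icc 1 N, (1 / (n : ℝ)) * (wSup d U f (n / p) (H / p) / ((H / p : ℕ) : ℝ)) +
      ∑ n ∈ Icc 1 N, (1 / (n : ℝ)) * ((1 / (H : ℝ)) * ∑ i ∈ range H, wSup d (frac Q) f (n + i) H' / H') +
      2 * δ * hs N = ∑ n ∈ Icc 1 N, (1 / (n : ℝ)) *
      ((1 / Wt) * ∑ p ∈ I, wt p * (wSup d U f (n / p) (H / p) / ((H / p : ℕ) : ℝ)) +
      ((1 / (H : ℝ)) * ∑ i ∈ range H, wSup d (frac Q) f (n + i) H' / H') + 2 * δ) := by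
      unfold hs
      simp only [mul_add, sum_add_distrib]
      congr 1
      · congr 1
        simp only [mul_sum]
        rw [sum_comm]
        refine sum_congr rfl fun n _ => sum_congr rfl fun p _ => ?_
        ring
      · rw [mul_sum]
        refine sum_congr rfl fun n _ => ?_
        ring
    rw [h1, h2]
    exact sum_le_sum fun n _ => mul_le_mul_of_nonneg_left (hpt n) (by positivity)
  -- the first term
  have hfirst : ∀ p ∈ I, ∑ n ∈ Icc 1 N, (1 / (n : ℝ)) * (wSup d U f (n / p) (H / p) / ((H / p : ℕ) : ℝ)) ≤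
      ∑ n ∈ Icc 1 N, (1 / (n : ℝ)) * sE n + 3 * δ * hs N +
        ((1 + Real.log p) + (3 + Real.log ((C₀ * (H / p) : ℕ) : ℝ))) := by
    intro p hp
    have hp1 := hI p hp
    have h1 := DilL.inner_le p N hp1.1.pos 1 (fun m => wSup d U f m (H / p) / ((H / p : ℕ) : ℝ))
      (fun m => wSup_div hf.1 d U m (H / p))
    have hHp1 : 1 ≤ H / p := le_trans (by omega) (hHpK p hp)
    have hHp0 : (0 : ℝ) < ((H / p : ℕ) : ℝ) := by exact_mod_cast hHp1
    have h2 := shorter (fun m => wSup d U f m (H / p) / ((H / p : ℕ) : ℝ)) (fun m => wSup d U f m K / K)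
      C₀ (H / p) N δ (fun m => (wSup_div hf.1 d U m (H / p)).2) (fun m => wSup_div hf.1 d U m K) hC₀1 hHp1
      ((Nat.mul_le_mul_left _ (Nat.div_le_self H p)).trans hNN) hδ0.le (fun m => by
        have h3 : ∀ P : ℝ[X], P.natDegree ≤ d → ((P.coeff d : ℝ) : UnitAddCircle) ∈ U →
            ‖W f P m (H / p)‖ ≤ ((1 / ((H / p : ℕ) : ℝ)) * ∑ i ∈ range (H / p), wSup d U f (m + i) K / K + δ) *
              ((H / p : ℕ) : ℝ) := by
          intro P hP hPU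
          rw [← div_le_iff₀ hHp0]
          refine (sub_window' hf.1 P m (H / p) K hHp1 hK).trans (add_le_add ?_ ?_)
          · refine mul_le_mul_of_nonneg_left (sum_le_sum fun i _ => ?_) (by positivity)
            exact div_le_div_of_nonneg_right (le_wSup hf.1 _ _ hP hPU) hK0.le
          · have h4 : (A₁ : ℝ) ≤ ((H / p : ℕ) : ℝ) := by
              have := hHpK p hp
              exact_mod_cast (by omega : A₁ ≤ H / p)
            rw [div_le_iff₀ hδ0] at hA₁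
            rw [div_le_iff₀ hHp0]
            nlinarith
        have h5 : 0 ≤ (1 / ((H / p : ℕ) : ℝ)) * ∑ i ∈ range (H / p), wSup d U f (m + i) K / K :=
          mul_nonneg (by positivity) (sum_nonneg fun i _ => (wSup_div hf.1 d U (m + i) K).1)
        show wSup d U f m (H / p) / ((H / p : ℕ) : ℝ) ≤ _
        rw [div_le_iff₀ hHp0]
        exact wSup_le (mul_nonneg (by linarith) hHp0.le) h3)
    have h3 : ∑ n ∈ Icc 1 N, (1 / (n : ℝ)) * (wSup d U f n K / K) ≤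
        ∑ n ∈ Icc 1 N, (1 / (n : ℝ)) * sE n + δ * hs N := by
      have h4 : ∑ n ∈ Icc 1 N, (1 / (n : ℝ)) * sE n + δ * hs N = ∑ n ∈ Icc 1 N, (1 / (n : ℝ)) * (sE n + δ) := by
        unfold hs
        simp only [mul_add, sum_add_distrib]
        rw [mul_sum]
        congr 1
        exact sum_congr rfl fun n _ => by ring
      rw [h4]
      refine sum_le_sum fun n _ => mul_le_mul_of_nonneg_left ?_ (by positivity)
      simp only [hsE]
      rw [div_le_iff₀ hK0, add_mul, div_mul_cancel₀ _ hK0.ne']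
      refine (wSup_thick hf.1 E d K n κ hκ0.le hK).trans ?_
      have := mul_le_mul_of_nonneg_right hπκ hK0.le
      linarith
    have h4 : (1 / (C₀ : ℝ) + δ) * hs N ≤ 2 * δ * hs N := mul_le_mul_of_nonneg_right (by linarith) hhs0
    rw [one_mul] at h1
    have h5 : 3 * δ * hs N = 2 * δ * hs N + δ * hs N := by ring
    rw [h5]
    refine h1.trans ?_
    linarith
  have hfirst' : (1 / Wt) * ∑ p ∈ I, wt p * ∑ n ∈ Icc 1 N, (1 / (n : ℝ)) *
      (wSup d U f (n / p) (H / p) / ((H / p : ℕ) : ℝ)) ≤ ∑ n ∈ Icc 1 N, (1 / (n : ℝ)) * sE n + 3 * δ * hs N + M₁ := by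
    have h1 : ∑ n ∈ Icc 1 N, (1 / (n : ℝ)) * sE n + 3 * δ * hs N + M₁ =
        (1 / Wt) * ∑ p ∈ I, wt p * (∑ n ∈ Icc 1 N, (1 / (n : ℝ)) * sE n + 3 * δ * hs N +
        ((1 + Real.log p) + (3 + Real.log ((C₀ * (H / p) : ℕ) : ℝ)))) := by
      have h2 : ∑ p ∈ I, wt p * (∑ n ∈ Icc 1 N, (1 / (n : ℝ)) * sE n + 3 * δ * hs N +
        ((1 + Real.log p) + (3 + Real.log ((C₀ * (H / p) : ℕ) : ℝ)))) =
          Wt * (∑ n ∈ Icc 1 N, (1 / (n : ℝ)) * sE n + 3 * δ * hs N) +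
          ∑ p ∈ I, wt p * ((1 + Real.log p) + (3 + Real.log ((C₀ * (H / p) : ℕ) : ℝ))) := by
        rw [hWt, sum_mul, ← sum_add_distrib]
        exact sum_congr rfl fun p _ => by ring
      rw [h2, mul_add, ← mul_assoc, one_div_mul_cancel hWt0.ne', one_mul, hM₁]
    rw [h1]
    refine mul_le_mul_of_nonneg_left (sum_le_sum fun p hp => ?_) (by positivity)
    exact mul_le_mul_of_nonneg_left (hfirst p hp) (hI p hp).2.2.1
  -- the second term
  have hsecond : ∑ n ∈ Icc 1 N, (1 / (n : ℝ)) * ((1 / (H : ℝ)) * ∑ i ∈ range H, wSup d (frac Q) f (n + i) H' / H') ≤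
      δ * Real.log N + δ * hs N + M₂ := by
    have h1 := shorter (fun n => (1 / (H : ℝ)) * ∑ i ∈ range H, wSup d (frac Q) f (n + i) H' / H')
      (fun m => wSup d (frac Q) f m H' / H') C₀ H N 0 (fun n => by
        have h2 : ∑ i ∈ range H, wSup d (frac Q) f (n + i) H' / H' ≤ H := by
          refine (sum_le_card_nsmul _ _ _ fun i _ => (wSup_div hf.1 d (frac Q) (n + i) H').2).trans (le_of_eq ?_)
          rw [card_range, nsmul_eq_mul, mul_one]
        show (1 / (H : ℝ)) * ∑ i ∈ range H, wSup d (frac Q) f (n + i) H' / H' ≤ 1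
        rw [one_div, inv_mul_eq_div, div_le_one hH0]
        exact h2)
      (fun m => wSup_div hf.1 d (frac Q) m H') hC₀1 hH1 hNN le_rfl (fun n => by simp)
    have h2 := hN₁ N (by omega)
    have h3 : ∑ n ∈ Icc 1 N, (1 / (n : ℝ)) * (wSup d (frac Q) f n H' / H') ≤ δ * Real.log N := by
      have h4 : ∑ n ∈ Icc 1 N, (1 / (n : ℝ)) * (wSup d (frac Q) f n H' / H') =
          (∑ n ∈ Icc 1 N, (1 / (n : ℝ)) * wSup d (frac Q) f n H') / H' := by
        rw [sum_div]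
        exact sum_congr rfl fun n _ => by ring
      rw [h4, div_le_iff₀ hH'0]
      linarith
    have h4 : (1 / (C₀ : ℝ) + 0) * hs N ≤ δ * hs N := mul_le_mul_of_nonneg_right (by linarith) hhs0
    rw [hM₂]
    linarith
  -- conclusion
  have hsT1 : ∑ n ∈ Icc 1 N, (1 / (n : ℝ)) * sT n ≤ hs N :=
    sum_le_hs sT (fun n => (wSup_div hf.1 d Set.univ n H).2) N
  have hfin := hN₂ N (by omega)
  have hδh : δ * hs N ≤ δ * (1 + Real.log N) := mul_le_mul_of_nonneg_left hhs hδ0.le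
  have h1 : v * ∑ n ∈ Icc 1 N, (1 / (n : ℝ)) * sT n = v' * (∑ n ∈ Icc 1 N, (1 / (n : ℝ)) * sT n - δ * hs N) +
      2 * δ * ∑ n ∈ Icc 1 N, (1 / (n : ℝ)) * sT n + v' * (δ * hs N) := by rw [hv']; ring
  have h2 : v' * (δ * hs N) ≤ 1 * (δ * hs N) := mul_le_mul_of_nonneg_right hv'1 (by positivity)
  have h3 : 2 * δ * ∑ n ∈ Icc 1 N, (1 / (n : ℝ)) * sT n ≤ 2 * δ * hs N :=
    mul_le_mul_of_nonneg_left hsT1 (by positivity)
  have h4 : δ * Real.log N * 40 ≤ ε * Real.log N := by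
    have := mul_le_mul_of_nonneg_right hδε hlog0
    linarith
  have h5 : 0 ≤ δ * Real.log N := by positivity
  show v * ∑ n ∈ Icc 1 N, (1 / (n : ℝ)) * sT n ≤ ∑ n ∈ Icc 1 N, (1 / (n : ℝ)) * sE n + ε * Real.log N
  rw [h1]
  linarith

end Pool.Agent.K9h46.ZO
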