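import Pool.Agent.Helper44K9.FU.Fin2

/-!
# Leading coefficients of polynomial phases (helper46): perturbation on a window, fractions
-/

set_option autoImplicit false

namespace Pool.Agent.K9h46.ZO

open Finset Polynomial MeasureTheory
open Pool.Agent.H807R2.Dav (ee norm_ee ee_add)
open Pool.Agent.Helper44K9.FU
open Pool.Agent.Helper44K9.FU.FL

theorem ee_sub_le (x y : ℝ) : ‖ee x - ee y‖ ≤ 2 * Real.pi * |x - y| := by
  have h1 : ee x - ee y = ee y * (ee (x - y) - 1) := by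
    rw [mul_sub, mul_one, ← ee_add]; congr 2; ring
  rw [h1, norm_mul, norm_ee, one_mul, Pool.Agent.H807R2.Dav.ee_eq']
  refine (Real.norm_exp_I_mul_ofReal_sub_one_le (x := 2 * Real.pi * (x - y))).trans ?_
  rw [Real.norm_eq_abs, abs_mul, abs_mul, abs_of_pos Real.pi_pos, abs_two]

/-- changing the leading coefficient on a window -/
theorem pert {f : ℕ → ℂ} (hf : ∀ n, ‖f n‖ ≤ 1) {E : Set UnitAddCircle} {d K n : ℕ} {κ : ℝ} {P : ℝ[X]}
    (hP : P.natDegree ≤ d) {e : ℝ} (he : (e : UnitAddCircle) ∈ E)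
    (hκ : |P.coeff d - e| * (K : ℝ) ^ d ≤ κ) :
    ‖W f P n K‖ ≤ wSup d E f n K + 2 * Real.pi * κ * K := by
  obtain ⟨θ, hθ⟩ : ∃ θ, θ = P.coeff d - e := ⟨_, rfl⟩
  obtain ⟨P', hP'⟩ : ∃ P' : ℝ[X], P' = P - C θ * (X - C (n : ℝ)) ^ d := ⟨_, rfl⟩
  have hmon : ((X - C (n : ℝ)) ^ d : ℝ[X]).Monic := (monic_X_sub_C (n : ℝ)).pow d
  have hdeg : ((X - C (n : ℝ)) ^ d : ℝ[X]).natDegree = d := by
    rw [natDegree_pow, natDegree_X_sub_C, mul_one]
  have hc : ((X - C (n : ℝ)) ^ d : ℝ[X]).coeff d = 1 := by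
    have h := hmon.coeff_natDegree
    rwa [hdeg] at h
  have hP'd : P'.natDegree ≤ d := by
    rw [hP']
    exact (natDegree_sub_le_of_le hP ((natDegree_C_mul_le _ _).trans hdeg.le)).trans (max_self d).le
  have hP'c : P'.coeff d = e := by
    rw [hP', coeff_sub, coeff_C_mul, hc, hθ]; ring
  have h1 := le_wSup hf n K hP'd (by rw [hP'c]; exact he)
  have h2 : ‖W f P n K - W f P' n K‖ ≤ 2 * Real.pi * κ * K := by
    unfold W
    rw [← sum_sub_distrib]
    have h3 : ∀ m ∈ Ioc n (n + K), ‖f m * ee (P.eval (m : ℝ)) - f m * ee (P'.eval (m : ℝ))‖ ≤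
        2 * Real.pi * κ := by
      intro m hm
      rw [mem_Ioc] at hm
      rw [← mul_sub, norm_mul]
      have h4 : P.eval (m : ℝ) - P'.eval (m : ℝ) = θ * ((m : ℝ) - n) ^ d := by
        rw [hP']; simp
      have h5 := ee_sub_le (P.eval (m : ℝ)) (P'.eval (m : ℝ))
      rw [h4, abs_mul, abs_pow] at h5
      have h6 : |(m : ℝ) - n| ^ d ≤ (K : ℝ) ^ d := by
        refine pow_le_pow_left₀ (abs_nonneg _) ?_ d
        rw [abs_le]
        have h7 : (n : ℝ) < m := by exact_mod_cast hm.1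
        have h8 : (m : ℝ) ≤ n + K := by exact_mod_cast hm.2
        constructor <;> linarith
      have h7 : |θ| * |(m : ℝ) - n| ^ d ≤ κ := by
        refine (mul_le_mul_of_nonneg_left h6 (abs_nonneg θ)).trans ?_
        rw [hθ]; exact hκ
      have h8 : 2 * Real.pi * (|θ| * |(m : ℝ) - n| ^ d) ≤ 2 * Real.pi * κ :=
        mul_le_mul_of_nonneg_left h7 (by positivity)
      calc ‖f m‖ * ‖ee (P.eval (m : ℝ)) - ee (P'.eval (m : ℝ))‖ ≤
          1 * ‖ee (P.eval (m : ℝ)) - ee (P'.eval (m : ℝ))‖ :=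
            mul_le_mul_of_nonneg_right (hf m) (norm_nonneg _)
        _ ≤ _ := by rw [one_mul]; exact h5.trans h8
    refine (norm_sum_le _ _).trans ((sum_le_card_nsmul _ _ _ h3).trans (le_of_eq ?_))
    rw [Nat.card_Ioc, nsmul_eq_mul, Nat.add_sub_cancel_left]; ring
  calc ‖W f P n K‖ = ‖W f P' n K + (W f P n K - W f P' n K)‖ := by congr 1; ring
    _ ≤ ‖W f P' n K‖ + ‖W f P n K - W f P' n K‖ := norm_add_le _ _
    _ ≤ _ := add_le_add h1 h2

theorem thick {E : Set UnitAddCircle} {r β : ℝ} (h : (β : UnitAddCircle) ∈ Metric.thickening r E) :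
    ∃ e : ℝ, (e : UnitAddCircle) ∈ E ∧ |β - e| < r := by
  rw [Metric.mem_thickening_iff] at h
  obtain ⟨z, hz, hd⟩ := h
  obtain ⟨e, rfl⟩ := QuotientAddGroup.mk_surjective z
  change dist (β : UnitAddCircle) (e : UnitAddCircle) < r at hd
  rw [dist_eq_norm, ← AddCircle.coe_sub, UnitAddCircle.norm_eq] at hd
  refine ⟨e + round (β - e), ?_, ?_⟩
  · have h1 : (((e + round (β - e) : ℝ)) : UnitAddCircle) = (e : UnitAddCircle) := by
      rw [AddCircle.coe_add]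
      have h2 : (((round (β - e) : ℤ) : ℝ) : UnitAddCircle) = 0 := by
        rw [AddCircle.coe_eq_zero_iff]
        exact ⟨round (β - e), by simp⟩
      rw [h2, add_zero]
    rw [h1]; exact hz
  · rw [← sub_sub]; exact hd

/-- the supremum over the leading coefficients near `E` -/
theorem wSup_thick {f : ℕ → ℂ} (hf : ∀ n, ‖f n‖ ≤ 1) (E : Set UnitAddCircle) (d K n : ℕ) (κ : ℝ)
    (hκ : 0 ≤ κ) (hK : 1 ≤ K) :
    wSup d (Metric.thickening (κ / (K : ℝ) ^ d) E) f n K ≤ wSup d E f n K + 2 * Real.pi * κ * K := by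
  have hK0 : (0 : ℝ) < K := by exact_mod_cast hK
  refine wSup_le (add_nonneg (wSup_nonneg n K) (by positivity)) fun P hP hPE => ?_
  obtain ⟨e, he, h⟩ := thick hPE
  refine pert hf hP he ?_
  have h2 : (0 : ℝ) < (K : ℝ) ^ d := by positivity
  calc |P.coeff d - e| * (K : ℝ) ^ d ≤ κ / (K : ℝ) ^ d * (K : ℝ) ^ d :=
        mul_le_mul_of_nonneg_right h.le h2.le
    _ = κ := by field_simp

theorem wSup_mono {f : ℕ → ℂ} (hf : ∀ n, ‖f n‖ ≤ 1) {E F : Set UnitAddCircle} (h : E ⊆ F) (d n K : ℕ) :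
    wSup d E f n K ≤ wSup d F f n K :=
  wSup_le (wSup_nonneg n K) fun _ hP hPE => le_wSup hf n K hP (h hPE)

theorem wSup_fin {f : ℕ → ℂ} (hf : ∀ n, ‖f n‖ ≤ 1) (R : Finset UnitAddCircle) (d n K : ℕ) :
    wSup d (R : Set UnitAddCircle) f n K ≤ ∑ x ∈ R, wSup d {x} f n K := by
  refine wSup_le (sum_nonneg fun x _ => wSup_nonneg n K) fun P hP hPE => ?_
  refine (le_wSup (E := {((P.coeff d : ℝ) : UnitAddCircle)}) hf n K hP rfl).trans ?_
  exact single_le_sum (f := fun x => wSup d {x} f n K) (fun x _ => wSup_nonneg n K) (mem_coe.1 hPE)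

open Classical in
/-- the fractions with denominators at most `Q` -/
noncomputable def frac (Q : ℕ) : Finset UnitAddCircle :=
  ((Icc 1 Q) ×ˢ (range Q)).image fun p => (((p.2 : ℝ) / p.1 : ℝ) : UnitAddCircle)

theorem mem_frac {Q q : ℕ} (hq : 1 ≤ q) (hqQ : q ≤ Q) (a : ℤ) :
    (((a : ℝ) / q : ℝ) : UnitAddCircle) ∈ frac Q := by
  classical
  have hq0 : (0 : ℝ) < q := by exact_mod_cast hq
  have hqz : (0 : ℤ) < q := by exact_mod_cast hq
  obtain ⟨r, hr⟩ := Int.eq_ofNat_of_zero_le (Int.emod_nonneg a hqz.ne')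
  have hrq : r < q := by
    have h1 := Int.emod_lt_of_pos a hqz
    rw [hr] at h1
    exact_mod_cast h1
  unfold frac
  rw [mem_image]
  refine ⟨(q, r), ?_, ?_⟩
  · rw [mem_product, mem_Icc, mem_range]
    exact ⟨⟨hq, hqQ⟩, by omega⟩
  · have h1 := Int.emod_add_mul_ediv a q
    rw [hr] at h1
    have h2 : (a : ℝ) = r + q * ((a / q : ℤ) : ℝ) := by exact_mod_cast h1.symm
    have h3 : (a : ℝ) / q = (r : ℝ) / q + ((a / q : ℤ) : ℝ) := by
      rw [h2]; field_simp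
    rw [h3, AddCircle.coe_add]
    have h4 : ((((a / q : ℤ) : ℝ)) : UnitAddCircle) = 0 := by
      rw [AddCircle.coe_eq_zero_iff]
      exact ⟨a / q, by simp⟩
    rw [h4, add_zero]

theorem frac_rat {Q : ℕ} {x : UnitAddCircle} (hx : x ∈ frac Q) :
    ∃ (q : ℕ) (a : ℤ), 1 ≤ q ∧ x = (((a : ℝ) / q : ℝ) : UnitAddCircle) := by
  classical
  unfold frac at hx
  rw [mem_image] at hx
  obtain ⟨p, hp, rfl⟩ := hx
  rw [mem_product, mem_Icc] at hp
  exact ⟨p.1, p.2, hp.1.1, by push_cast; rfl⟩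

/-- a leading coefficient near a fraction, on a window of length `H'` -/
theorem major {f : ℕ → ℂ} (hf : ∀ n, ‖f n‖ ≤ 1) {d Q H' : ℕ} {κ τ : ℝ} (hτ : τ * (H' : ℝ) ^ d ≤ κ)
    {P : ℝ[X]} (hP : P.natDegree ≤ d)
    (hα : ∃ q : ℕ, 1 ≤ q ∧ q ≤ Q ∧ ∃ a : ℤ, |q * P.coeff d - a| ≤ τ) (n : ℕ) :
    ‖W f P n H'‖ ≤ wSup d (frac Q) f n H' + 2 * Real.pi * κ * H' := by
  obtain ⟨q, hq, hqQ, a, ha⟩ := hα
  have hq0 : (0 : ℝ) < q := by exact_mod_cast hq
  refine pert hf hP (e := (a : ℝ) / q) (by exact_mod_cast mem_frac hq hqQ a) ?_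
  have h1 : |P.coeff d - a / q| ≤ τ := by
    have h2 : P.coeff d - a / q = (q * P.coeff d - a) / q := by field_simp
    rw [h2, abs_div, abs_of_pos hq0]
    refine (div_le_self (abs_nonneg _) (by exact_mod_cast hq)).trans ha
  exact (mul_le_mul_of_nonneg_right h1 (by positivity)).trans hτ

/-- sub-windows, divided by the length -/
theorem sub_window' {f : ℕ → ℂ} (hf : ∀ n, ‖f n‖ ≤ 1) (P : ℝ[X]) (n H H' : ℕ) (hH : 1 ≤ H) (hH' : 1 ≤ H') :
    ‖W f P n H‖ / H ≤ (1 / (H : ℝ)) * ∑ i ∈ range H, ‖W f P (n + i) H'‖ / H' + 2 * H' / H := by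
  have hH0 : (0 : ℝ) < H := by exact_mod_cast hH
  have hH'0 : (0 : ℝ) < H' := by exact_mod_cast hH'
  have h1 := sub_window hf P n H H'
  rw [← sum_div, div_le_iff₀ hH0]
  have h2 : ((1 / (H : ℝ)) * ((∑ i ∈ range H, ‖W f P (n + i) H'‖) / H') + 2 * H' / H) * H =
      (∑ i ∈ range H, ‖W f P (n + i) H'‖ + 2 * (H' : ℝ) ^ 2) / H' := by
    field_simp
  rw [h2, le_div_iff₀ hH'0, mul_comm]
  exact h1

end Pool.Agent.K9h46.ZO
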