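import Pool.Agent.Helper44K9.FU.Trig2
import Pool.Agent.Helper44K9.FU.Chb
import Pool.Agent.Helper44K9.FU.Eq

/-!
# Leading coefficients of polynomial phases (helper46): many `p^d α` are near a closed set
-/

set_option autoImplicit false

namespace Pool.Agent.K9h46.ZO

open Finset Polynomial MeasureTheory
open Pool.Agent.H807R2.Dav (ee norm_ee ee_add)
open Pool.Agent.Helper44K9.FU

open Classical in
open TrigL in
/-- trigonometric minorant -/
theorem trig_min (E U : Set UnitAddCircle) (hE : IsClosed E) (hU : IsOpen U) (hEU : E ⊆ U) (c : ℝ)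
    (hc : 0 < c) : ∃ (S : Finset ℤ) (a : ℤ → ℂ), 0 ∈ S ∧ (volume E).toReal - c ≤ (a 0).re ∧
    (∀ x : ℝ, (∑ j ∈ S, a j * ee (j * x)).re ≤ (if (x : UnitAddCircle) ∈ U then 1 else 0) + c) := by
  have : Fact ((0 : ℝ) < 1) := ⟨zero_lt_one⟩
  obtain ⟨g, hg0, hg1, hg⟩ := exists_continuous_zero_one_of_isClosed hU.isClosed_compl hE
    (Set.disjoint_compl_left_iff_subset.2 hEU)
  obtain ⟨G, hG⟩ : ∃ G : C(UnitAddCircle, ℂ), ∀ z, G z = ((g z : ℝ) : ℂ) :=
    ⟨⟨fun z => ((g z : ℝ) : ℂ), by fun_prop⟩, fun z => rfl⟩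
  obtain ⟨a, ha⟩ := approx G c hc
  obtain ⟨p, hp⟩ : ∃ p : UnitAddCircle → ℝ, p = fun z => (∑ j ∈ a.support, a j * fourier j z).re :=
    ⟨_, rfl⟩
  have hpg : ∀ z, |p z - g z| ≤ c := by
    intro z
    have h1 := ha z
    rw [hG] at h1
    have h2 := Complex.abs_re_le_norm (∑ j ∈ a.support, a j * fourier j z - ((g z : ℝ) : ℂ))
    rw [Complex.sub_re, Complex.ofReal_re] at h2
    rw [hp]
    exact h2.trans h1
  have hpc : Continuous p := by
    rw [hp]
    exact Complex.continuous_re.comp (continuous_finsetSum _ fun j _ =>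
      (ContinuousMap.continuous (fourier j)).const_mul (a j))
  have ha0 : (volume E).toReal - c ≤ (a 0).re := by
    have h1 := mean a
    have hint : Integrable (fun z : UnitAddCircle => ∑ j ∈ a.support, a j * fourier j z) volume :=
      (continuous_finsetSum _ fun j _ =>
        (ContinuousMap.continuous (fourier j)).const_mul (a j)).integrable_of_hasCompactSupport
        (HasCompactSupport.of_compactSpace _)
    have h2 : (a 0).re = ∫ z : UnitAddCircle, p z := by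
      rw [← h1, hp]
      exact (integral_re hint).symm
    have hpi : Integrable p volume :=
      hpc.integrable_of_hasCompactSupport (HasCompactSupport.of_compactSpace _)
    have hgi : Integrable (fun z : UnitAddCircle => E.indicator (fun _ => (1 : ℝ)) z - c) volume :=
      ((integrable_const (1 : ℝ)).indicator hE.measurableSet).sub (integrable_const _)
    have h3 : ∫ z : UnitAddCircle, (E.indicator (fun _ => (1 : ℝ)) z - c) ≤
        ∫ z : UnitAddCircle, p z := by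
      refine integral_mono hgi hpi fun z => ?_
      have h4 := (abs_le.1 (hpg z)).1
      show E.indicator (fun _ => (1 : ℝ)) z - c ≤ p z
      by_cases hz : z ∈ E
      · rw [Set.indicator_of_mem hz]
        have h5 : g z = 1 := hg1 hz
        rw [h5] at h4
        linarith
      · rw [Set.indicator_of_notMem hz]
        have := (hg z).1
        linarith
    have h4 : ∫ z : UnitAddCircle, (E.indicator (fun _ => (1 : ℝ)) z - c) =
        (volume E).toReal - c := by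
      rw [integral_sub ((integrable_const (1 : ℝ)).indicator hE.measurableSet) (integrable_const _),
        integral_indicator_const _ hE.measurableSet, integral_const, smul_eq_mul, smul_eq_mul]
      have h5 : (volume : Measure UnitAddCircle).real Set.univ = 1 := by
        rw [measureReal_def, UnitAddCircle.measure_univ, ENNReal.toReal_one]
      rw [h5, measureReal_def]
      ring
    rw [h2]
    linarith
  have hval : ∀ x : ℝ, (∑ j ∈ insert 0 a.support, a j * ee (j * x)).re = p (x : UnitAddCircle) := by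
    intro x
    have h1 : ∑ j ∈ insert 0 a.support, a j * ee (j * x) =
        ∑ j ∈ a.support, a j * fourier j (x : UnitAddCircle) := by
      symm
      refine (sum_subset (subset_insert 0 a.support) fun j _ hj => ?_).trans ?_
      · rw [Finsupp.notMem_support_iff.1 hj, zero_mul]
      · exact sum_congr rfl fun j _ => by rw [ee_fourier]
    rw [h1, hp]
  refine ⟨insert 0 a.support, a, mem_insert_self 0 _, ha0, fun x => ?_⟩
  rw [hval]
  have h1 := (abs_le.1 (hpg (x : UnitAddCircle))).2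
  split_ifs with hx
  · have h2 := (hg (x : UnitAddCircle)).2
    linarith
  · have h2 : g (x : UnitAddCircle) = 0 := hg0 hx
    rw [h2] at h1
    linarith

theorem sqrt_log' (δ : ℝ) (hδ : 0 < δ) : ∃ N₀ : ℕ, ∀ x ≥ N₀, 2 * √(x : ℝ) * Real.log x ≤ δ * x := by
  have h1 := (isLittleO_log_rpow_atTop (r := 1 / 2) (by norm_num)).bound
    (c := δ / 2) (by positivity)
  obtain ⟨N, hN⟩ := (tendsto_natCast_atTop_atTop (R := ℝ)).eventually h1 |>.exists_forall_of_atTop
  refine ⟨max N 1, fun x hx => ?_⟩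
  have h2 := hN x (le_trans (le_max_left _ _) hx)
  have hx1 : (1 : ℝ) ≤ x := by exact_mod_cast le_trans (le_max_right _ _) hx
  rw [Real.norm_of_nonneg (Real.log_nonneg hx1), Real.norm_of_nonneg (by positivity),
    ← Real.sqrt_eq_rpow] at h2
  have h3 : √(x : ℝ) * √(x : ℝ) = x := Real.mul_self_sqrt (by linarith)
  have h4 : 0 ≤ √(x : ℝ) := Real.sqrt_nonneg _
  calc 2 * √(x : ℝ) * Real.log x ≤ 2 * √(x : ℝ) * (δ / 2 * √(x : ℝ)) :=
        mul_le_mul_of_nonneg_left h2 (by positivity)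
    _ = δ * (√(x : ℝ) * √(x : ℝ)) := by ring
    _ = δ * x := by rw [h3]

open ChbL Pool.Agent.H373R2.T7 in
/-- the prime number theorem in dyadic blocks -/
theorem pnt_block (c : ℝ) (hc : 0 < c) : ∃ N₀ : ℕ, ∀ N ≥ N₀,
    (1 - c) * N ≤ ∑ p ∈ (Ioc N (2 * N)).filter Nat.Prime, Real.log p ∧
    ∑ n ∈ Ioc N (2 * N), ArithmeticFunction.vonMangoldt n ≤ (1 + c) * N := by
  obtain ⟨N₁, h1⟩ := pnt_eps (c / 6) (by positivity)
  obtain ⟨N₂, h2⟩ := sqrt_log' (c / 4) (by positivity)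
  refine ⟨max (max N₁ N₂) 1, fun N hN => ?_⟩
  have hN1 : N₁ ≤ N := le_trans (le_trans (le_max_left _ _) (le_max_left _ _)) hN
  have hN2 : N₂ ≤ N := le_trans (le_trans (le_max_right _ _) (le_max_left _ _)) hN
  have hN3 : 1 ≤ N := le_trans (le_max_right _ _) hN
  have hN0 : (0 : ℝ) < N := by exact_mod_cast hN3
  have a1 := h1 N hN1
  have a2 := h1 (2 * N) (by omega)
  have a3 := h2 (2 * N) (by omega)
  have e2 : ((2 * N : ℕ) : ℝ) = 2 * N := by push_cast; ring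
  constructor
  · rw [lam1_eq, abs_le] at a1 a2
    have a4 := Chebyshev.psi_sub_theta_le (x := ((2 * N : ℕ) : ℝ)) (by exact_mod_cast (by omega))
    have a5 := Chebyshev.theta_le_psi (N : ℝ)
    have a6 := theta_block N
    rw [← a6]
    rw [e2] at a2 a3 a4 ⊢
    linarith [a1.2, a2.1]
  · rw [lam_block]
    rw [abs_le] at a1 a2
    rw [e2] at a2
    linarith [a1.1, a2.2]

open Classical in
/-- one block -/
theorem block_ge {d : ℕ} {U : Set UnitAddCircle} {S : Finset ℤ} {a : ℤ → ℂ} {v c α : ℝ} {N : ℕ}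
    (hc0 : 0 < c) (hc1 : c ≤ 1 / 2) (h0S : 0 ∈ S) (ha0 : v - c ≤ (a 0).re)
    (hup : ∀ x : ℝ, (∑ j ∈ S, a j * ee (j * x)).re ≤ (if (x : UnitAddCircle) ∈ U then 1 else 0) + c)
    (h1 : (1 - c) * N ≤ ∑ p ∈ (Ioc N (2 * N)).filter Nat.Prime, Real.log p)
    (h2 : ∑ n ∈ Ioc N (2 * N), ArithmeticFunction.vonMangoldt n ≤ (1 + c) * N)
    (hS : ∀ j ∈ S, j ≠ 0 → ‖∑ n ∈ Ioc N (2 * N), ((ArithmeticFunction.vonMangoldt n : ℝ) : ℂ) *
      ee ((j * α) * (n : ℝ) ^ d)‖ ≤ c / (∑ j ∈ S, ‖a j‖ + 1) * N) :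
    (v - 12 * c) * ∑ p ∈ (Ioc N (2 * N)).filter Nat.Prime, Real.log p ≤
      ∑ p ∈ ((Ioc N (2 * N)).filter Nat.Prime).filter
        (fun p : ℕ => (((p : ℝ) ^ d * α : ℝ) : UnitAddCircle) ∈ U), Real.log p := by
  set T : ℝ → ℝ := fun x => (∑ j ∈ S, a j * ee (j * x)).re with hT
  set B := (Ioc N (2 * N)).filter Nat.Prime with hB
  set θ := ∑ p ∈ B, Real.log p with hθ
  set ψ := ∑ n ∈ Ioc N (2 * N), ArithmeticFunction.vonMangoldt n with hψ
  have hN0 : (0 : ℝ) ≤ N := Nat.cast_nonneg _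
  have hlogB : ∀ p ∈ B, 0 ≤ Real.log p := by
    intro p hp
    rw [hB, mem_filter] at hp
    exact Real.log_nonneg (by exact_mod_cast hp.2.one_lt.le)
  have hθ0 : 0 ≤ θ := sum_nonneg hlogB
  have hRHS : 0 ≤ ∑ p ∈ B.filter (fun p : ℕ => (((p : ℝ) ^ d * α : ℝ) : UnitAddCircle) ∈ U), Real.log p :=
    sum_nonneg fun p hp => hlogB p (mem_filter.1 hp).1
  rcases lt_or_ge v c with hvc | hvc
  · have : (v - 12 * c) * θ ≤ 0 := mul_nonpos_of_nonpos_of_nonneg (by linarith) hθ0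
    linarith
  have hψ0 : 0 ≤ ψ := sum_nonneg fun n _ => ArithmeticFunction.vonMangoldt_nonneg
  -- the sum of Λ T
  have e1 : ∑ n ∈ Ioc N (2 * N), ArithmeticFunction.vonMangoldt n * T ((n : ℝ) ^ d * α) =
      (∑ j ∈ S, a j * ∑ n ∈ Ioc N (2 * N), ((ArithmeticFunction.vonMangoldt n : ℝ) : ℂ) *
        ee ((j * α) * (n : ℝ) ^ d)).re := by
    have : ((∑ j ∈ S, a j * ∑ n ∈ Ioc N (2 * N), ((ArithmeticFunction.vonMangoldt n : ℝ) : ℂ) *
        ee ((j * α) * (n : ℝ) ^ d))) =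
        ∑ n ∈ Ioc N (2 * N), ((ArithmeticFunction.vonMangoldt n : ℝ) : ℂ) * ∑ j ∈ S, a j * ee (j * ((n : ℝ) ^ d * α)) := by
      simp only [mul_sum]
      rw [sum_comm]
      refine sum_congr rfl fun n _ => sum_congr rfl fun j _ => ?_
      rw [show (j : ℝ) * ((n : ℝ) ^ d * α) = j * α * (n : ℝ) ^ d by ring]
      ring
    rw [this, Complex.re_sum]
    refine sum_congr rfl fun n _ => ?_
    rw [Complex.re_ofReal_mul]
  have h3 : (v - c) * ψ - c * N ≤ ∑ n ∈ Ioc N (2 * N), ArithmeticFunction.vonMangoldt n * T ((n : ℝ) ^ d * α) := by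
    rw [e1, Complex.re_sum, ← add_sum_erase S _ h0S]
    have e2 : (v - c) * ψ ≤ (a 0 * ∑ n ∈ Ioc N (2 * N), ((ArithmeticFunction.vonMangoldt n : ℝ) : ℂ) *
        ee ((((0 : ℤ) : ℝ) * α) * (n : ℝ) ^ d)).re := by
      have e3 : ∑ n ∈ Ioc N (2 * N), ((ArithmeticFunction.vonMangoldt n : ℝ) : ℂ) *
          ee ((((0 : ℤ) : ℝ) * α) * (n : ℝ) ^ d) = ((ψ : ℝ) : ℂ) := by
        rw [hψ]
        push_cast
        refine sum_congr rfl fun n _ => ?_
        rw [zero_mul, zero_mul]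
        have : ee 0 = 1 := by unfold ee; simp
        rw [this, mul_one]
      rw [e3, mul_comm (a 0), Complex.re_ofReal_mul, mul_comm ψ]
      exact mul_le_mul_of_nonneg_right ha0 hψ0
    have e5 : -(c * N) ≤ ∑ j ∈ S.erase 0, (a j * ∑ n ∈ Ioc N (2 * N), ((ArithmeticFunction.vonMangoldt n : ℝ) : ℂ) *
        ee ((j * α) * (n : ℝ) ^ d)).re := by
      set A : ℝ := ∑ j ∈ S, ‖a j‖ + 1 with hA
      have hA0 : 0 < A := by
        have : 0 ≤ ∑ j ∈ S, ‖a j‖ := sum_nonneg fun _ _ => norm_nonneg _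
        linarith
      have e6 : -(∑ j ∈ S.erase 0, ‖a j‖ * (c / A * N)) ≤ ∑ j ∈ S.erase 0, (a j * ∑ n ∈ Ioc N (2 * N), ((ArithmeticFunction.vonMangoldt n : ℝ) : ℂ) *
            ee ((j * α) * (n : ℝ) ^ d)).re := by
        rw [← sum_neg_distrib]
        refine sum_le_sum fun j hj => ?_
        rw [mem_erase] at hj
        have e7 := (abs_le.1 (Complex.abs_re_le_norm (a j * ∑ n ∈ Ioc N (2 * N), ((ArithmeticFunction.vonMangoldt n : ℝ) : ℂ) *
            ee ((j * α) * (n : ℝ) ^ d)))).1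
        rw [norm_mul] at e7
        have e8 := mul_le_mul_of_nonneg_left (hS j hj.2 hj.1) (norm_nonneg (a j))
        linarith
      have e9 : ∑ j ∈ S.erase 0, ‖a j‖ * (c / A * N) ≤ c * N := by
        calc ∑ j ∈ S.erase 0, ‖a j‖ * (c / A * N) = (∑ j ∈ S.erase 0, ‖a j‖) * (c / A * N) := by rw [sum_mul]
          _ ≤ A * (c / A * N) := by
              refine mul_le_mul_of_nonneg_right ?_ (by positivity)
              have : ∑ j ∈ S.erase 0, ‖a j‖ ≤ ∑ j ∈ S, ‖a j‖ :=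
                sum_le_sum_of_subset_of_nonneg (erase_subset _ _) fun _ _ _ => norm_nonneg _
              linarith
          _ = c * N := by field_simp
      linarith
    linarith
  -- primes and proper prime powers
  have hΛ : ∑ p ∈ B, ArithmeticFunction.vonMangoldt p = θ := by
    rw [hθ]
    refine sum_congr rfl fun p hp => ?_
    rw [hB, mem_filter] at hp
    exact ArithmeticFunction.vonMangoldt_apply_prime hp.2
  have h4 : ψ = θ + ∑ n ∈ (Ioc N (2 * N)).filter (fun n => ¬ Nat.Prime n), ArithmeticFunction.vonMangoldt n := by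
    rw [← hΛ, hψ, hB]
    exact (sum_filter_add_sum_filter_not _ _ _).symm
  have h5 : ∑ n ∈ Ioc N (2 * N), ArithmeticFunction.vonMangoldt n * T ((n : ℝ) ^ d * α) ≤
      (∑ p ∈ B.filter (fun p : ℕ => (((p : ℝ) ^ d * α : ℝ) : UnitAddCircle) ∈ U), Real.log p) + c * θ +
        (1 + c) * (ψ - θ) := by
    rw [← sum_filter_add_sum_filter_not (Ioc N (2 * N)) Nat.Prime]
    refine add_le_add ?_ ?_
    · have h6 : ∀ p ∈ B, ArithmeticFunction.vonMangoldt p * T ((p : ℝ) ^ d * α) ≤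
          (if (((p : ℝ) ^ d * α : ℝ) : UnitAddCircle) ∈ U then Real.log p else 0) + c * Real.log p := by
        intro p hp
        have h7 := hlogB p hp
        rw [hB, mem_filter] at hp
        rw [ArithmeticFunction.vonMangoldt_apply_prime hp.2]
        have h8 := hup ((p : ℝ) ^ d * α)
        have h9 := mul_le_mul_of_nonneg_left h8 h7
        refine h9.trans (le_of_eq ?_)
        split_ifs <;> ring
      refine (sum_le_sum h6).trans (le_of_eq ?_)
      rw [sum_add_distrib, ← sum_filter, ← mul_sum]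
    · have h6 : ∀ n ∈ (Ioc N (2 * N)).filter (fun n => ¬ Nat.Prime n),
          ArithmeticFunction.vonMangoldt n * T ((n : ℝ) ^ d * α) ≤ (1 + c) * ArithmeticFunction.vonMangoldt n := by
        intro n _
        have h8 := hup ((n : ℝ) ^ d * α)
        have h9 : T ((n : ℝ) ^ d * α) ≤ 1 + c := by
          refine h8.trans ?_
          split_ifs <;> linarith
        rw [mul_comm (1 + c)]
        exact mul_le_mul_of_nonneg_left h9 ArithmeticFunction.vonMangoldt_nonneg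
      refine (sum_le_sum h6).trans (le_of_eq ?_)
      rw [← mul_sum, h4]
      ring
  have h6 : θ ≤ ψ := by
    rw [h4]
    have : 0 ≤ ∑ n ∈ (Ioc N (2 * N)).filter (fun n => ¬ Nat.Prime n), ArithmeticFunction.vonMangoldt n :=
      sum_nonneg fun n _ => ArithmeticFunction.vonMangoldt_nonneg
    linarith
  have h7 : (1 + c) * (ψ - θ) ≤ 4 * c * N := by
    have h8 : ψ - θ ≤ 2 * c * N := by linarith
    have h9 : (1 + c) * (ψ - θ) ≤ 2 * (ψ - θ) := mul_le_mul_of_nonneg_right (by linarith) (by linarith)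
    linarith
  have h8 : (N : ℝ) ≤ 2 * θ := by
    have : (1 / 2) * (N : ℝ) ≤ (1 - c) * N := mul_le_mul_of_nonneg_right (by linarith) hN0
    linarith
  have h9 : (v - c) * θ ≤ (v - c) * ψ := mul_le_mul_of_nonneg_left h6 (by linarith)
  have h10 : 5 * c * N ≤ 10 * c * θ := by
    have := mul_le_mul_of_nonneg_left h8 (show 0 ≤ 5 * c by linarith)
    linarith
  linarith

/-- the weights of the primes -/
noncomputable def wt (p : ℕ) : ℝ := Real.log p / (2 ^ (Nat.log 2 p) * (Nat.log 2 p : ℕ))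

theorem log2_eq {k p : ℕ} (hk : 1 ≤ k) (hp : p.Prime) (h1 : 2 ^ k < p) (h2 : p ≤ 2 ^ (k + 1)) :
    Nat.log 2 p = k := by
  have h3 : p ≠ 2 ^ (k + 1) := by
    intro h
    rw [h] at hp
    exact (Nat.Prime.not_prime_pow (by omega)) hp
  rw [Nat.log_eq_iff (Or.inl (by omega))]
  exact ⟨h1.le, lt_of_le_of_ne h2 h3⟩

theorem wt_bounds {k p : ℕ} (hk : 1 ≤ k) (hp : p.Prime) (h1 : 2 ^ k < p) (h2 : p ≤ 2 ^ (k + 1)) :
    0 ≤ wt p ∧ wt p ≤ 3 / p := by
  have hk0 : (1 : ℝ) ≤ k := by exact_mod_cast hk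
  have hp0 : (0 : ℝ) < p := by exact_mod_cast hp.pos
  have hlog : 0 ≤ Real.log p := Real.log_nonneg (by exact_mod_cast hp.one_lt.le)
  have h3 : (p : ℝ) ≤ 2 ^ (k + 1) := by exact_mod_cast h2
  have h4 : Real.log p ≤ (k + 1) * Real.log 2 := by
    have h5 := Real.log_le_log hp0 h3
    rw [Real.log_pow] at h5
    push_cast at h5
    exact h5
  unfold wt
  rw [log2_eq hk hp h1 h2]
  refine ⟨by positivity, ?_⟩
  have hl2 := Real.log_two_lt_d9
  have hl2' := Real.log_two_gt_d9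
  rw [div_le_div_iff₀ (by positivity) hp0]
  calc Real.log p * p ≤ ((k + 1) * Real.log 2) * 2 ^ (k + 1) := mul_le_mul h4 h3 hp0.le (by positivity)
    _ ≤ (2 * k * Real.log 2) * 2 ^ (k + 1) := by
        refine mul_le_mul_of_nonneg_right ?_ (by positivity)
        refine mul_le_mul_of_nonneg_right (by linarith) (by linarith)
    _ = (4 * Real.log 2) * (2 ^ k * k) := by rw [pow_succ]; ring
    _ ≤ 3 * (2 ^ k * k) := by
        refine mul_le_mul_of_nonneg_right (by linarith) (by positivity)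

open Classical in
theorem wt_sum {k : ℕ} (hk : 1 ≤ k) (A : ℕ → Prop) :
    ∑ p ∈ ((Ioc (2 ^ k) (2 ^ (k + 1))).filter Nat.Prime).filter A, wt p =
      (1 / (2 ^ k * (k : ℝ))) * ∑ p ∈ ((Ioc (2 ^ k) (2 ^ (k + 1))).filter Nat.Prime).filter A, Real.log p := by
  rw [mul_sum]
  refine sum_congr rfl fun p hp => ?_
  rw [mem_filter, mem_filter, mem_Ioc] at hp
  unfold wt
  rw [log2_eq hk hp.1.2 hp.1.1.1 hp.1.1.2]
  ring

open Classical in
open EqL in
/-- many `p^d α` are near a closed set -/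
theorem equi (hPW : S_PW) (d : ℕ) (hd : 1 ≤ d) (E U : Set UnitAddCircle) (hE : IsClosed E) (hU : IsOpen U)
    (hEU : E ⊆ U) (ε : ℝ) (hε : 0 < ε) : ∃ Q : ℕ, 1 ≤ Q ∧ ∀ τ : ℝ, 0 < τ → ∀ (z : ℕ) (A : ℝ),
    ∃ I : Finset ℕ, (∀ p ∈ I, p.Prime ∧ z < p ∧ 0 ≤ wt p ∧ wt p ≤ 3 / p) ∧ A ≤ ∑ p ∈ I, wt p ∧
    ∀ α : ℝ, (∀ q : ℕ, 1 ≤ q → q ≤ Q → ∀ a : ℤ, τ < |q * α - a|) →
      ((volume E).toReal - ε) * ∑ p ∈ I, wt p ≤
        ∑ p ∈ I.filter (fun p : ℕ => (((p : ℝ) ^ d * α : ℝ) : UnitAddCircle) ∈ U), wt p := by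
  set v : ℝ := (volume E).toReal with hv
  set c : ℝ := min (ε / 12) (1 / 2) with hc
  have hc0 : 0 < c := lt_min (by positivity) (by norm_num)
  have hc1 : c ≤ 1 / 2 := min_le_right _ _
  have hcε : 12 * c ≤ ε := by
    have := min_le_left (ε / 12) (1 / 2 : ℝ)
    linarith
  obtain ⟨S, a, h0S, ha0, hup⟩ := trig_min E U hE hU hEU c hc0
  set ε₁ : ℝ := c / (∑ j ∈ S, ‖a j‖ + 1) with hε₁
  have hε₁0 : 0 < ε₁ := by
    have : 0 ≤ ∑ j ∈ S, ‖a j‖ := sum_nonneg fun _ _ => norm_nonneg _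
    positivity
  obtain ⟨C, N₀, hC1, hPWN⟩ := hPW d hd ε₁ hε₁0
  obtain ⟨N₁, hN₁⟩ := pnt_block c hc0
  set D₀ : ℕ := ∑ j ∈ S, j.natAbs + 1 with hD₀
  refine ⟨C * D₀, Nat.mul_pos hC1 (by omega), fun τ hτ z A => ?_⟩
  obtain ⟨k₃, hk₃⟩ : ∃ k₃ : ℕ, (C : ℝ) / τ < 2 ^ k₃ := pow_unbounded_of_one_lt _ (by norm_num)
  obtain ⟨k₁, hk₁1, hk₁N0, hk₁N1, hk₁z, hk₁3⟩ : ∃ k₁ : ℕ, 1 ≤ k₁ ∧ N₀ ≤ 2 ^ k₁ ∧ N₁ ≤ 2 ^ k₁ ∧ z ≤ 2 ^ k₁ ∧ k₃ ≤ k₁ := by
    refine ⟨k₃ + N₀ + N₁ + z + 1, by omega, ?_, ?_, ?_, by omega⟩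
    all_goals exact le_trans (by omega) (Nat.lt_two_pow_self (n := k₃ + N₀ + N₁ + z + 1)).le
  obtain ⟨k₂, hk₂, hdiv⟩ : ∃ k₂ : ℕ, k₁ ≤ k₂ ∧ A ≤ (1 / 2) * ∑ k ∈ Ico k₁ k₂, 1 / (k : ℝ) := by
    have h1 := Real.tendsto_sum_range_one_div_nat_succ_atTop
    obtain ⟨M, hM⟩ := (h1.eventually_ge_atTop (A / (1 / 2) + ∑ k ∈ range k₁, 1 / ((k : ℝ)))).exists
    refine ⟨max k₁ (M + 1), le_max_left _ _, ?_⟩
    have h2 : ∑ i ∈ range M, 1 / ((i : ℝ) + 1) = ∑ k ∈ range (M + 1), 1 / (k : ℝ) := by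
      rw [sum_range_succ' (fun k : ℕ => 1 / (k : ℝ)) M]
      push_cast; simp
    rw [h2] at hM
    have h3 : ∑ k ∈ range (M + 1), 1 / (k : ℝ) ≤ ∑ k ∈ range (max k₁ (M + 1)), 1 / (k : ℝ) :=
      sum_le_sum_of_subset_of_nonneg (range_subset_range.2 (le_max_right _ _)) fun _ _ _ => by positivity
    have h4 : ∑ k ∈ Ico k₁ (max k₁ (M + 1)), 1 / (k : ℝ) =
        ∑ k ∈ range (max k₁ (M + 1)), 1 / (k : ℝ) - ∑ k ∈ range k₁, 1 / (k : ℝ) :=
      sum_Ico_eq_sub _ (le_max_left _ _)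
    rw [h4]
    have h5 : A / (1 / 2) ≤ ∑ k ∈ range (max k₁ (M + 1)), 1 / (k : ℝ) - ∑ k ∈ range k₁, 1 / (k : ℝ) := by
      linarith
    rw [div_le_iff₀ (by norm_num)] at h5
    linarith
  set I : Finset ℕ := (Ioc (2 ^ k₁) (2 ^ k₂)).filter Nat.Prime with hI
  have hblk : ∀ k ∈ Ico k₁ k₂, (1 - c) * ((2 ^ k : ℕ) : ℝ) ≤ ∑ p ∈ (Ioc (2 ^ k) (2 ^ (k + 1))).filter Nat.Prime, Real.log p ∧
      ∑ n ∈ Ioc (2 ^ k) (2 * 2 ^ k), ArithmeticFunction.vonMangoldt n ≤ (1 + c) * ((2 ^ k : ℕ) : ℝ) := by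
    intro k hk
    rw [mem_Ico] at hk
    have h2k : (2 : ℕ) ^ k₁ ≤ 2 ^ k := Nat.pow_le_pow_right (by norm_num) hk.1
    have h := hN₁ (2 ^ k) (hk₁N1.trans h2k)
    have e : (2 : ℕ) ^ (k + 1) = 2 * 2 ^ k := by rw [pow_succ]; ring
    rw [e]
    exact h
  refine ⟨I, ?_, ?_, fun α hα => ?_⟩
  · intro p hp
    have hp' := hp
    rw [hI, mem_filter, mem_Ioc] at hp
    refine ⟨hp.2, lt_of_le_of_lt hk₁z hp.1.1, ?_⟩
    -- the block of `p`
    obtain ⟨k, hk⟩ : ∃ k, k = Nat.log 2 p := ⟨_, rfl⟩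
    have h1 : 2 ^ k ≤ p := by rw [hk]; exact Nat.pow_log_le_self 2 hp.2.ne_zero
    have h2 : p < 2 ^ (k + 1) := by rw [hk]; exact Nat.lt_pow_succ_log_self (by norm_num) p
    have h3 : k₁ ≤ k := by
      by_contra hcon
      push Not at hcon
      have : 2 ^ (k + 1) ≤ 2 ^ k₁ := Nat.pow_le_pow_right (by norm_num) hcon
      omega
    have h4 : p ≠ 2 ^ k := by
      intro h
      rcases Nat.lt_or_ge k 2 with h5 | h5
      · have h6 : k = 1 := by omega
        have h7 : k₁ = 1 := by omega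
        rw [h6] at h
        rw [h7] at hp
        omega
      · have h6 := hp.2
        rw [h] at h6
        exact (Nat.Prime.not_prime_pow h5) h6
    exact wt_bounds (by omega) hp.2 (lt_of_le_of_ne h1 (Ne.symm h4)) h2.le
  · refine hdiv.trans ?_
    have e0 := blocks wt k₁ k₂ hk₂
    rw [hI, e0, mul_sum]
    refine sum_le_sum fun k hk => ?_
    have hk' := mem_Ico.1 hk
    have hk0 : (0 : ℝ) < k := by exact_mod_cast (by omega : 0 < k)
    have h1 := (hblk k hk).1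
    have h2 := wt_sum (k := k) (by omega) (fun _ => True)
    simp only [filter_true] at h2
    rw [h2]
    have h3 : (1 / 2) * (1 / (k : ℝ)) = (1 / (2 ^ k * (k : ℝ))) * ((1 / 2) * 2 ^ k) := by field_simp
    rw [h3]
    refine mul_le_mul_of_nonneg_left ?_ (by positivity)
    refine le_trans ?_ h1
    push_cast
    exact mul_le_mul_of_nonneg_right (by linarith) (by positivity)
  · have e1 := blocks (fun p => if (((p : ℝ) ^ d * α : ℝ) : UnitAddCircle) ∈ U then wt p else 0) k₁ k₂ hk₂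
    have e0 := blocks wt k₁ k₂ hk₂
    have e2 : ∑ p ∈ I.filter (fun p : ℕ => (((p : ℝ) ^ d * α : ℝ) : UnitAddCircle) ∈ U), wt p =
        ∑ p ∈ I, (if (((p : ℝ) ^ d * α : ℝ) : UnitAddCircle) ∈ U then wt p else 0) := sum_filter _ _
    rw [e2, hI, e0, e1, mul_sum]
    refine sum_le_sum fun k hk => ?_
    have hk' := mem_Ico.1 hk
    have hk0 : (0 : ℝ) < k := by exact_mod_cast (by omega : 0 < k)
    rw [← sum_filter]
    have h2 := wt_sum (k := k) (by omega) (fun _ => True)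
    simp only [filter_true] at h2
    have h3 := wt_sum (k := k) (by omega) (fun p : ℕ => (((p : ℝ) ^ d * α : ℝ) : UnitAddCircle) ∈ U)
    rw [h2, h3, ← mul_assoc, mul_comm (v - ε), mul_assoc]
    refine mul_le_mul_of_nonneg_left ?_ (by positivity)
    have hb := hblk k hk
    have e : (2 : ℕ) ^ (k + 1) = 2 * 2 ^ k := by rw [pow_succ]; ring
    rw [e] at hb ⊢
    have hθ0 : 0 ≤ ∑ p ∈ (Ioc (2 ^ k) (2 * 2 ^ k)).filter Nat.Prime, Real.log p := by
      refine sum_nonneg fun p hp => ?_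
      rw [mem_filter] at hp
      exact Real.log_nonneg (by exact_mod_cast hp.2.one_lt.le)
    have h2k : (2 : ℕ) ^ k₁ ≤ 2 ^ k := Nat.pow_le_pow_right (by norm_num) hk'.1
    refine le_trans (mul_le_mul_of_nonneg_right (show v - ε ≤ v - 12 * c by linarith) hθ0) ?_
    refine block_ge hc0 hc1 h0S ha0 hup hb.1 hb.2 ?_
    intro j hj hj0
    by_contra hcon
    push Not at hcon
    obtain ⟨q, hq1, hqC, a', ha'⟩ := hPWN (2 ^ k) (hk₁N0.trans h2k) (j * α) hcon.le
    have h4 := hα (q * j.natAbs) (Nat.mul_pos hq1 (Int.natAbs_pos.2 hj0)) (by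
      refine Nat.mul_le_mul hqC ?_
      have : j.natAbs ≤ ∑ j ∈ S, j.natAbs := single_le_sum (f := fun j : ℤ => j.natAbs) (fun _ _ => Nat.zero_le _) hj
      omega) (if 0 ≤ j then a' else -a')
    have h5 : |((q * j.natAbs : ℕ) : ℝ) * α - ((if 0 ≤ j then a' else -a' : ℤ) : ℝ)| = |q * (j * α) - a'| := by
      have h6 : ((j.natAbs : ℕ) : ℝ) = ((|j| : ℤ) : ℝ) := by
        rw [Int.abs_eq_natAbs, Int.cast_natCast]
      split_ifs with hj1
      · push_cast
        rw [h6, abs_of_nonneg hj1]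
        congr 1; ring
      · push Not at hj1
        push_cast
        rw [h6, abs_of_neg hj1]
        push_cast
        rw [show (q : ℝ) * -(j : ℝ) * α - -(a' : ℝ) = -(q * (j * α) - a') by ring, abs_neg]
    rw [h5] at h4
    have h6 : (C : ℝ) / (((2 ^ k : ℕ) : ℝ)) ^ d ≤ τ := by
      have h7 : (2 : ℝ) ^ k₃ ≤ (((2 ^ k : ℕ) : ℝ)) ^ d := by
        push_cast
        calc (2 : ℝ) ^ k₃ ≤ 2 ^ k := pow_le_pow_right₀ (by norm_num) (by omega)
          _ ≤ _ := le_self_pow₀ (one_le_pow₀ (by norm_num)) (by omega)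
      have h8 : (C : ℝ) / τ ≤ (((2 ^ k : ℕ) : ℝ)) ^ d := hk₃.le.trans h7
      rw [div_le_iff₀ hτ] at h8
      rw [div_le_iff₀ (by positivity)]
      linarith
    linarith

end Pool.Agent.K9h46.ZO
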