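import Pool.Agent.K9h46.ZO.Base
import Pool.Agent.K9h46.ZO.Equi
import Pool.Agent.Helper44K9.FU.Dil
import Pool.Agent.Helper44K9.FU.Sub
import Pool.Agent.Helper44K9.FU.Push

/-!
# Leading coefficients of polynomial phases (helper46): the inequality for one window
-/

set_option autoImplicit false

namespace Pool.Agent.K9h46.ZO

open Finset Polynomial MeasureTheory
open Pool.Agent.H807R2.Dav (ee norm_ee ee_add)
open Pool.Agent.Helper44K9.FU
open Pool.Agent.Helper44K9.FU.FL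

theorem dil_natDegree (p : ℕ) {P : ℝ[X]} {d : ℕ} (hP : P.natDegree ≤ d) : (dil p P).natDegree ≤ d := by
  unfold dil
  refine natDegree_comp_le.trans ?_
  calc P.natDegree * (C (p : ℝ) * X).natDegree ≤ P.natDegree * 1 :=
        Nat.mul_le_mul_left _ ((natDegree_C_mul_le _ _).trans natDegree_X_le)
    _ ≤ d := by rw [mul_one]; exact hP

theorem dil_coeff (p : ℕ) (P : ℝ[X]) (d : ℕ) : (dil p P).coeff d = (p : ℝ) ^ d * P.coeff d := by
  unfold dil
  rw [comp_C_mul_X_coeff, mul_comm]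

open Classical in
/-- the inequality for one window -/
theorem core {f : ℕ → ℂ} (hf : Mul1 f) {d Q H' : ℕ} {U : Set UnitAddCircle} {v' δ η κ τ : ℝ} {I : Finset ℕ}
    (hv0 : 0 ≤ v') (hv1 : v' ≤ 1) (hη : 0 < η) (hκ : 0 ≤ κ) (hH' : 1 ≤ H')
    (hτ : τ * (H' : ℝ) ^ d ≤ κ)
    (hw : ∀ p ∈ I, p.Prime ∧ 0 ≤ wt p ∧ wt p ≤ 3 / p) (hW : 0 < ∑ p ∈ I, wt p)
    (hδ : 300 / η ^ 2 ≤ δ * ∑ p ∈ I, wt p)
    (hequi : ∀ α : ℝ, (∀ q : ℕ, 1 ≤ q → q ≤ Q → ∀ a : ℤ, τ < |q * α - a|) →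
      (v' + δ) * ∑ p ∈ I, wt p ≤
        ∑ p ∈ I.filter (fun p : ℕ => (((p : ℝ) ^ d * α : ℝ) : UnitAddCircle) ∈ U), wt p)
    {P : ℝ[X]} (hP : P.natDegree ≤ d) {n H : ℕ} (hH : 1 ≤ H) (hHp : ∀ p ∈ I, p ≤ H)
    (hpush : ∑ p ∈ I.filter (fun p => ‖W f (dil p P) (n / p) (H / p)‖ <
      (‖W f P n H‖ / H - η) * ((H / p : ℕ) : ℝ)), 1 / (p : ℝ) ≤ 100 / η ^ 2) :
    v' * (‖W f P n H‖ / H - η) ≤
      (1 / ∑ p ∈ I, wt p) * ∑ p ∈ I, wt p * (wSup d U f (n / p) (H / p) / ((H / p : ℕ) : ℝ)) +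
      ((1 / (H : ℝ)) * ∑ i ∈ range H, wSup d (frac Q) f (n + i) H' / H') +
      (2 * Real.pi * κ + 2 * H' / H) := by
  set x : ℝ := ‖W f P n H‖ / H with hx
  have hH0 : (0 : ℝ) < H := by exact_mod_cast hH
  have hH'0 : (0 : ℝ) < H' := by exact_mod_cast hH'
  have hx0 : 0 ≤ x := div_nonneg (norm_nonneg _) hH0.le
  have hA1 : 0 ≤ (1 / ∑ p ∈ I, wt p) * ∑ p ∈ I, wt p * (wSup d U f (n / p) (H / p) / ((H / p : ℕ) : ℝ)) := by
    refine mul_nonneg (by positivity) (sum_nonneg fun p hp => mul_nonneg (hw p hp).2.1 ?_)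
    exact div_nonneg (wSup_nonneg _ _) (Nat.cast_nonneg _)
  have hA2 : 0 ≤ (1 / (H : ℝ)) * ∑ i ∈ range H, wSup d (frac Q) f (n + i) H' / H' := by
    refine mul_nonneg (by positivity) (sum_nonneg fun i _ => ?_)
    exact div_nonneg (wSup_nonneg _ _) (Nat.cast_nonneg _)
  have hA3 : 0 ≤ 2 * Real.pi * κ + 2 * (H' : ℝ) / H := by
    have := Real.pi_pos
    positivity
  by_cases hxη : x ≤ η
  · have : v' * (x - η) ≤ 0 := mul_nonpos_of_nonneg_of_nonpos hv0 (by linarith)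
    linarith
  push Not at hxη
  by_cases hmaj : ∃ q : ℕ, 1 ≤ q ∧ q ≤ Q ∧ ∃ a : ℤ, |q * P.coeff d - a| ≤ τ
  · have h1 := sub_window' hf.1 P n H H' hH hH'
    have h2 : (1 / (H : ℝ)) * ∑ i ∈ range H, ‖W f P (n + i) H'‖ / H' ≤
        (1 / (H : ℝ)) * ∑ i ∈ range H, wSup d (frac Q) f (n + i) H' / H' + 2 * Real.pi * κ := by
      have h3 : ∀ i ∈ range H, ‖W f P (n + i) H'‖ / H' ≤ wSup d (frac Q) f (n + i) H' / H' + 2 * Real.pi * κ := by
        intro i _
        rw [div_le_iff₀ hH'0]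
        refine (major hf.1 hτ hP hmaj (n + i)).trans (le_of_eq ?_)
        field_simp
      refine (mul_le_mul_of_nonneg_left (sum_le_sum h3) (by positivity)).trans (le_of_eq ?_)
      rw [sum_add_distrib, sum_const, card_range, nsmul_eq_mul]
      field_simp
    have h4 : v' * (x - η) ≤ x := by
      have h5 : v' * (x - η) ≤ 1 * (x - η) := mul_le_mul_of_nonneg_right hv1 (by linarith)
      linarith
    linarith
  · push Not at hmaj
    have h1 := hequi (P.coeff d) hmaj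
    obtain ⟨B, hB⟩ : ∃ B : ℕ → Prop, B = fun p => ‖W f (dil p P) (n / p) (H / p)‖ < (x - η) * ((H / p : ℕ) : ℝ) :=
      ⟨_, rfl⟩
    obtain ⟨G, hG⟩ : ∃ G : ℕ → Prop, G = fun p : ℕ => (((p : ℝ) ^ d * P.coeff d : ℝ) : UnitAddCircle) ∈ U := ⟨_, rfl⟩
    have h2 : ∑ p ∈ I.filter B, wt p ≤ δ * ∑ p ∈ I, wt p := by
      calc ∑ p ∈ I.filter B, wt p ≤ ∑ p ∈ I.filter B, 3 * (1 / (p : ℝ)) := by
            refine sum_le_sum fun p hp => ?_
            rw [mul_one_div]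
            exact (hw p (mem_filter.1 hp).1).2.2
        _ = 3 * ∑ p ∈ I.filter B, 1 / (p : ℝ) := by rw [mul_sum]
        _ ≤ 3 * (100 / η ^ 2) := by
            refine mul_le_mul_of_nonneg_left ?_ (by norm_num)
            rw [hB]
            exact hpush
        _ = 300 / η ^ 2 := by ring
        _ ≤ _ := hδ
    have h3 : v' * ∑ p ∈ I, wt p ≤ ∑ p ∈ I.filter G, wt p - ∑ p ∈ I.filter B, wt p := by
      rw [hG]
      linarith
    have h4 : (x - η) * (∑ p ∈ I.filter G, wt p - ∑ p ∈ I.filter B, wt p) ≤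
        ∑ p ∈ I, wt p * (wSup d U f (n / p) (H / p) / ((H / p : ℕ) : ℝ)) := by
      rw [sum_filter, sum_filter, ← sum_sub_distrib, mul_sum]
      refine sum_le_sum fun p hp => ?_
      have hp1 := hw p hp
      have hHp1 : 1 ≤ H / p := (Nat.one_le_div_iff hp1.1.pos).2 (hHp p hp)
      have hHp0 : (0 : ℝ) < ((H / p : ℕ) : ℝ) := by exact_mod_cast hHp1
      have hF : 0 ≤ wt p * (wSup d U f (n / p) (H / p) / ((H / p : ℕ) : ℝ)) :=
        mul_nonneg hp1.2.1 (div_nonneg (wSup_nonneg _ _) hHp0.le)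
      by_cases hGp : G p
      · rw [if_pos hGp]
        by_cases hBp : B p
        · rw [if_pos hBp, sub_self, mul_zero]
          exact hF
        · rw [if_neg hBp, sub_zero, mul_comm]
          refine mul_le_mul_of_nonneg_left ?_ hp1.2.1
          rw [le_div_iff₀ hHp0]
          rw [hB] at hBp
          push Not at hBp
          refine hBp.trans (le_wSup hf.1 _ _ (dil_natDegree p hP) ?_)
          rw [dil_coeff]
          rw [hG] at hGp
          exact hGp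
      · rw [if_neg hGp]
        have h5 : 0 ≤ (if B p then wt p else 0) := by
          split_ifs
          · exact hp1.2.1
          · exact le_rfl
        have h6 : (x - η) * (0 - (if B p then wt p else 0)) ≤ 0 :=
          mul_nonpos_of_nonneg_of_nonpos (by linarith) (by linarith)
        linarith
    have h5 : v' * (x - η) ≤ (1 / ∑ p ∈ I, wt p) *
        ∑ p ∈ I, wt p * (wSup d U f (n / p) (H / p) / ((H / p : ℕ) : ℝ)) := by
      rw [one_div, inv_mul_eq_div, le_div_iff₀ hW]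
      refine le_trans (le_of_eq ?_) ((mul_le_mul_of_nonneg_left h3 (by linarith : 0 ≤ x - η)).trans h4)
      ring
    linarith

end Pool.Agent.K9h46.ZO
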