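import Pool.Agent.K9h46.ZO.Mu
import Pool.Agent.Helper44K9.FU.Wr
import Pool.Agent.Helper44K9.FU.Tk
import Pool.Agent.Helper44K9.FU.Pw

/-!
# Leading coefficients of polynomial phases (helper46): the inequality and the zero-one law
-/

set_option autoImplicit false

namespace Pool.Agent.K9h46.ZO

open Finset Polynomial MeasureTheory
open Pool.Agent.H807R2.Dav (ee norm_ee ee_add ee_int)
open Pool.Agent.Helper44K9.FU
open Pool.Agent.Helper44K9.FU.FL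

/-- all fractions with denominators at most `Q`, in degree `e + 1`, are controlled by the degree `e` -/
theorem frac_le {f : ℕ → ℂ} (hf : ∀ n, ‖f n‖ ≤ 1) {e : ℕ} (he : 1 ≤ e) (Q : ℕ) :
    ∃ C : ℕ, ∀ n L : ℕ, wSup (e + 1) (frac Q) f n L ≤ C * wSup e Set.univ f n L := by
  classical
  have h1 : ∀ x : UnitAddCircle, ∃ q : ℕ, x ∈ frac Q → ∀ n L : ℕ,
      wSup (e + 1) {x} f n L ≤ q * wSup e Set.univ f n L := by
    intro x
    by_cases hx : x ∈ frac Q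
    · obtain ⟨q, a, hq, rfl⟩ := frac_rat hx
      exact ⟨q, fun _ n L => red hf he hq a n L⟩
    · exact ⟨0, fun h => absurd h hx⟩
  choose q hq using h1
  refine ⟨∑ x ∈ frac Q, q x, fun n L => ?_⟩
  refine (wSup_fin hf (frac Q) (e + 1) n L).trans ?_
  push_cast
  rw [sum_mul]
  exact sum_le_sum fun x hx => hq x hx n L

/-- the inequality -/
theorem partA {f : ℕ → ℂ} (hf : ML f) {d : ℕ} (hd : 1 ≤ d) (E : Set UnitAddCircle) {K : ℕ} (hK : 1 ≤ K)
    {ε : ℝ} (hε : 0 < ε) : ∃ C : ℕ, (d = 1 → C = 0) ∧ ∀ L : ℕ, 1 ≤ L → ∃ H₀ : ℕ, ∀ H N : ℕ, H₀ ≤ H → H ≤ N →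
      (volume (closure E)).toReal * ∑ n ∈ Icc 1 N, (1 / (n : ℝ)) * (wSup d Set.univ f n H / H) ≤
        ∑ n ∈ Icc 1 N, (1 / (n : ℝ)) * (wSup d E f n K / K) +
        C * ∑ n ∈ Icc 1 N, (1 / (n : ℝ)) * (wSup (d - 1) Set.univ f n L / L) + ε * Real.log N := by
  have hlong : Long f d := long_all wr tk hf.mul hf.long1 d
  rcases hd.eq_or_lt with h1 | h1
  · subst h1
    obtain ⟨Q, hQ⟩ := main_u pw (push tk) hf.mul le_rfl hlong E hK (ε := ε / 2) (by positivity)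
    have hRf : Unif f 1 (frac Q) := unif_fin hf.mul.1 1 (frac Q) fun x hx => by
      obtain ⟨q, a, hq, rfl⟩ := frac_rat hx
      exact (hf.base _).unif
    obtain ⟨H₁, hH₁⟩ := hRf (ε / 2) (by positivity)
    obtain ⟨N₁, hN₁⟩ := hH₁ (H₁ + 1) (by omega)
    obtain ⟨H₀, hH₀⟩ := hQ (H₁ + 1) (by omega)
    refine ⟨0, fun _ => rfl, fun L _ => ⟨H₀ + N₁, fun H N hH hHN => ?_⟩⟩
    have h2 := hH₀ H N (by omega) hHN
    have h3 := hN₁ N (by omega)
    have h4 : ∑ n ∈ Icc 1 N, (1 / (n : ℝ)) * (wSup 1 (frac Q) f n (H₁ + 1) / ((H₁ + 1 : ℕ) : ℝ)) ≤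
        ε / 2 * Real.log N := by
      have h5 : ∑ n ∈ Icc 1 N, (1 / (n : ℝ)) * (wSup 1 (frac Q) f n (H₁ + 1) / ((H₁ + 1 : ℕ) : ℝ)) =
          (∑ n ∈ Icc 1 N, (1 / (n : ℝ)) * wSup 1 (frac Q) f n (H₁ + 1)) / ((H₁ + 1 : ℕ) : ℝ) := by
        rw [sum_div]
        exact sum_congr rfl fun n _ => by ring
      rw [h5, div_le_iff₀ (by positivity)]
      linarith
    push_cast at h2 h4 ⊢
    linarith
  · obtain ⟨e, rfl⟩ : ∃ e, d = e + 1 := ⟨d - 1, by omega⟩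
    have he : 1 ≤ e := by omega
    obtain ⟨Q, hQ⟩ := main_u pw (push tk) hf.mul hd hlong E hK hε
    obtain ⟨C, hC⟩ := frac_le hf.mul.1 he Q
    refine ⟨C, fun h => absurd h (by omega), fun L hL => ?_⟩
    obtain ⟨H₀, hH₀⟩ := hQ L hL
    refine ⟨H₀, fun H N hH hHN => ?_⟩
    have h2 := hH₀ H N hH hHN
    have h3 : ∑ n ∈ Icc 1 N, (1 / (n : ℝ)) * (wSup (e + 1) (frac Q) f n L / L) ≤
        C * ∑ n ∈ Icc 1 N, (1 / (n : ℝ)) * (wSup e Set.univ f n L / L) := by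
      rw [mul_sum]
      refine sum_le_sum fun n _ => ?_
      have h4 : wSup (e + 1) (frac Q) f n L / L ≤ C * wSup e Set.univ f n L / L :=
        div_le_div_of_nonneg_right (hC n L) (Nat.cast_nonneg _)
      calc (1 / (n : ℝ)) * (wSup (e + 1) (frac Q) f n L / L) ≤ (1 / (n : ℝ)) * (C * wSup e Set.univ f n L / L) :=
            mul_le_mul_of_nonneg_left h4 (by positivity)
        _ = C * ((1 / (n : ℝ)) * (wSup e Set.univ f n L / L)) := by ring
    rw [Nat.add_sub_cancel]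
    linarith

/-- smallness in windows of some lengths, for long averages -/
def Weak (f : ℕ → ℂ) (d : ℕ) (E : Set UnitAddCircle) : Prop :=
  ∀ ε : ℝ, 0 < ε → ∃ K : ℕ, 1 ≤ K ∧ ∃ N₀ : ℕ, ∀ N : ℕ, N₀ ≤ N →
    ∑ n ∈ Icc 1 N, (1 / (n : ℝ)) * (wSup d E f n K / K) ≤ ε * Real.log N

/-- the zero-one law -/
theorem partB {f : ℕ → ℂ} (hf : ML f) (E : ℕ → Set UnitAddCircle) (d : ℕ)
    (hE : ∀ j : ℕ, 1 ≤ j → j ≤ d → volume (closure (E j)) ≠ 0 ∧ Weak f j (E j)) (e : ℕ) (he : 1 ≤ e)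
    (hed : e ≤ d) : ∀ ε : ℝ, 0 < ε → ∃ H₀ : ℕ, ∀ H N : ℕ, H₀ ≤ H → H ≤ N →
      ∑ n ∈ Icc 1 N, (1 / (n : ℝ)) * (wSup e Set.univ f n H / H) ≤ ε * Real.log N := by
  induction e, he using Nat.le_induction with
  | base =>
    intro ε hε
    obtain ⟨hv, hW⟩ := hE 1 le_rfl hed
    have hv0 : 0 < (volume (closure (E 1))).toReal :=
      ENNReal.toReal_pos hv (measure_ne_top _ _)
    set v := (volume (closure (E 1))).toReal with hvd
    obtain ⟨K, hK, N₀, hN₀⟩ := hW (v * ε / 2) (by positivity)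
    obtain ⟨C, hC, h1⟩ := partA hf le_rfl (E 1) hK (ε := v * ε / 2) (by positivity)
    obtain ⟨H₀, hH₀⟩ := h1 1 le_rfl
    refine ⟨H₀ + N₀, fun H N hH hHN => ?_⟩
    have h2 := hH₀ H N (by omega) hHN
    have h3 := hN₀ N (by omega)
    rw [hC rfl, Nat.cast_zero, zero_mul, add_zero, ← hvd] at h2
    have h4 : v * ∑ n ∈ Icc 1 N, (1 / (n : ℝ)) * (wSup 1 Set.univ f n H / H) ≤ v * (ε * Real.log N) := by
      linarith
    exact le_of_mul_le_mul_left h4 hv0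
  | succ e he ih =>
    intro ε hε
    have ih' := ih (by omega)
    obtain ⟨hv, hW⟩ := hE (e + 1) (by omega) hed
    have hv0 : 0 < (volume (closure (E (e + 1)))).toReal :=
      ENNReal.toReal_pos hv (measure_ne_top _ _)
    set v := (volume (closure (E (e + 1)))).toReal with hvd
    obtain ⟨K, hK, N₀, hN₀⟩ := hW (v * ε / 3) (by positivity)
    obtain ⟨C, -, h1⟩ := partA hf (d := e + 1) (by omega) (E (e + 1)) hK (ε := v * ε / 3) (by positivity)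
    obtain ⟨L₀, hL₀⟩ := ih' (v * ε / (3 * (C + 1))) (by positivity)
    obtain ⟨H₀, hH₀⟩ := h1 (L₀ + 1) (by omega)
    refine ⟨H₀ + N₀ + L₀ + 1, fun H N hH hHN => ?_⟩
    have h2 := hH₀ H N (by omega) hHN
    have h3 := hN₀ N (by omega)
    have h5 := hL₀ (L₀ + 1) N (by omega) (by omega)
    rw [Nat.add_sub_cancel, ← hvd] at h2
    have hlog : 0 ≤ Real.log N := Real.log_natCast_nonneg N
    have h6 : (C : ℝ) * ∑ n ∈ Icc 1 N, (1 / (n : ℝ)) * (wSup e Set.univ f n (L₀ + 1) / ((L₀ + 1 : ℕ) : ℝ)) ≤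
        v * ε / 3 * Real.log N := by
      refine (mul_le_mul_of_nonneg_left h5 (Nat.cast_nonneg C)).trans ?_
      have h7 : (C : ℝ) * (v * ε / (3 * (C + 1))) ≤ v * ε / 3 := by
        rw [mul_div_assoc', div_le_div_iff₀ (by positivity) (by norm_num)]
        have : 0 < v * ε := by positivity
        nlinarith [(Nat.cast_nonneg C : (0 : ℝ) ≤ C)]
      calc (C : ℝ) * (v * ε / (3 * (C + 1)) * Real.log N) = (C * (v * ε / (3 * (C + 1)))) * Real.log N := by ring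
        _ ≤ _ := mul_le_mul_of_nonneg_right h7 hlog
    have h4 : v * ∑ n ∈ Icc 1 N, (1 / (n : ℝ)) * (wSup (e + 1) Set.univ f n H / H) ≤ v * (ε * Real.log N) := by
      linarith
    exact le_of_mul_le_mul_left h4 hv0

end Pool.Agent.K9h46.ZO
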