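import Pool.Agent.K9h46.ZO.Avg
import Pool.Agent.H373R2.T7.BilF

/-!
# Leading coefficients of polynomial phases (helper46): rational leading coefficients
-/

set_option autoImplicit false

namespace Pool.Agent.K9h46.ZO

open Finset Polynomial MeasureTheory
open Pool.Agent.H807R2.Dav (ee norm_ee ee_add ee_int)
open Pool.Agent.Helper44K9.FU
open Pool.Agent.Helper44K9.FU.FL
open Pool.Agent.H373R2.T7 (orth)

theorem lift_eq {x y : ℝ} (h : (x : UnitAddCircle) = (y : UnitAddCircle)) : ∃ b : ℤ, x = y + b := by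
  have h1 : ((x - y : ℝ) : UnitAddCircle) = 0 := by rw [AddCircle.coe_sub, h, sub_self]
  rw [AddCircle.coe_eq_zero_iff] at h1
  obtain ⟨b, hb⟩ := h1
  refine ⟨b, ?_⟩
  rw [zsmul_eq_mul, mul_one] at hb
  linarith

/-- a polynomial without its term of degree `e + 1` -/
theorem cut_natDegree {e : ℕ} {P : ℝ[X]} (hP : P.natDegree ≤ e + 1) :
    (P - C (P.coeff (e + 1)) * X ^ (e + 1)).natDegree ≤ e := by
  rw [natDegree_le_iff_coeff_eq_zero]
  intro N hN
  rw [coeff_sub, coeff_C_mul, coeff_X_pow]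
  rcases Nat.lt_or_ge (e + 1) N with h | h
  · rw [if_neg (by omega), mul_zero, sub_zero]
    exact coeff_eq_zero_of_natDegree_lt (by omega)
  · have : N = e + 1 := by omega
    rw [this, if_pos rfl, mul_one, sub_self]

theorem pow_mod_ee {q : ℕ} (hq : 1 ≤ q) (a b : ℤ) (k m : ℕ) :
    ee (((a : ℝ) / q + b) * (m : ℝ) ^ k) = ee (((a : ℝ) / q) * ((m % q : ℕ) : ℝ) ^ k) := by
  have hq0 : (q : ℝ) ≠ 0 := by
    have : (0 : ℝ) < q := by exact_mod_cast hq
    exact this.ne'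
  -- `q` divides `m^k - (m % q)^k`
  have h1 : (q : ℤ) ∣ (m : ℤ) ^ k - ((m % q : ℕ) : ℤ) ^ k := by
    have h2 : (m : ℤ) - ((m % q : ℕ) : ℤ) ∣ (m : ℤ) ^ k - ((m % q : ℕ) : ℤ) ^ k := sub_dvd_pow_sub_pow _ _ k
    refine Dvd.dvd.trans ⟨((m / q : ℕ) : ℤ), ?_⟩ h2
    have h3 := Nat.div_add_mod m q
    have h4 : (m : ℤ) = q * (m / q : ℕ) + (m % q : ℕ) := by exact_mod_cast h3.symm
    linarith
  obtain ⟨c, hc⟩ := h1
  have h5 : (m : ℝ) ^ k = ((m % q : ℕ) : ℝ) ^ k + q * c := by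
    have h6 : ((m : ℤ) : ℝ) ^ k - (((m % q : ℕ) : ℤ) : ℝ) ^ k = q * c := by exact_mod_cast hc
    rw [Int.cast_natCast, Int.cast_natCast] at h6
    linarith
  have h7 : ((a : ℝ) / q + b) * (m : ℝ) ^ k =
      ((a : ℝ) / q) * ((m % q : ℕ) : ℝ) ^ k + ((a * c + b * (m : ℤ) ^ k : ℤ) : ℝ) := by
    push_cast
    rw [add_mul, h5]
    field_simp
    ring
  rw [h7, Pool.Agent.H807R2.Dav.ee_add_int]

/-- a rational leading coefficient is removed -/
theorem red {f : ℕ → ℂ} (hf : ∀ n, ‖f n‖ ≤ 1) {e q : ℕ} (he : 1 ≤ e) (hq : 1 ≤ q) (a : ℤ) (n H : ℕ) :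
    wSup (e + 1) {(((a : ℝ) / q : ℝ) : UnitAddCircle)} f n H ≤ q * wSup e Set.univ f n H := by
  have hq0 : (0 : ℝ) < q := by exact_mod_cast hq
  have hqc : (q : ℂ) ≠ 0 := by exact_mod_cast hq0.ne'
  refine wSup_le (mul_nonneg hq0.le (wSup_nonneg n H)) fun P hP hPE => ?_
  obtain ⟨b, hb⟩ := lift_eq (Set.mem_singleton_iff.1 hPE)
  obtain ⟨P₀, hP₀⟩ : ∃ P₀ : ℝ[X], P₀ = P - C (P.coeff (e + 1)) * X ^ (e + 1) := ⟨_, rfl⟩
  have hdeg : P₀.natDegree ≤ e := by rw [hP₀]; exact cut_natDegree hP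
  have hval : ∀ m : ℕ, ee (P.eval (m : ℝ)) =
      ee (P₀.eval (m : ℝ)) * ee (((a : ℝ) / q) * ((m % q : ℕ) : ℝ) ^ (e + 1)) := by
    intro m
    have h1 : P.eval (m : ℝ) = P₀.eval (m : ℝ) + ((a : ℝ) / q + b) * (m : ℝ) ^ (e + 1) := by
      rw [hP₀, ← hb]
      simp
    rw [h1, ee_add, pow_mod_ee hq]
  -- the residue classes
  set A : ℕ → ℂ := fun r => ∑ m ∈ (Ioc n (n + H)).filter (fun m => m % q = r), f m * ee (P₀.eval (m : ℝ)) with hA
  have hW : W f P n H = ∑ r ∈ range q, ee (((a : ℝ) / q) * ((r : ℕ) : ℝ) ^ (e + 1)) * A r := by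
    unfold W
    have h1 : ∑ m ∈ Ioc n (n + H), f m * ee (P.eval (m : ℝ)) =
        ∑ r ∈ range q, ∑ m ∈ (Ioc n (n + H)).filter (fun m => m % q = r), f m * ee (P.eval (m : ℝ)) :=
      (sum_fiberwise_of_maps_to (fun m _ => mem_range.2 (Nat.mod_lt m hq)) _).symm
    rw [h1]
    refine sum_congr rfl fun r _ => ?_
    rw [hA]
    simp only
    rw [mul_sum]
    refine sum_congr rfl fun m hm => ?_
    rw [hval m, (mem_filter.1 hm).2]
    ring
  have hAr : ∀ r ∈ range q, ‖A r‖ ≤ wSup e Set.univ f n H := by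
    intro r hr
    rw [mem_range] at hr
    have h1 : (q : ℂ) * A r = ∑ t ∈ range q, ee (-((t : ℝ) * ((r : ℝ) / q))) * W f (P₀ + C ((t : ℝ) / q) * X) n H := by
      have h2 : ∀ m ∈ Ioc n (n + H), (if m % q = r then (q : ℂ) * (f m * ee (P₀.eval (m : ℝ))) else 0) =
          ∑ t ∈ range q, ee (-((t : ℝ) * ((r : ℝ) / q))) *
            (f m * ee ((P₀ + C ((t : ℝ) / q) * X).eval (m : ℝ))) := by
        intro m _
        have h3 : ∑ t ∈ range q, ee (-((t : ℝ) * ((r : ℝ) / q))) *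
            (f m * ee ((P₀ + C ((t : ℝ) / q) * X).eval (m : ℝ))) =
            (f m * ee (P₀.eval (m : ℝ))) * ∑ t ∈ range q, ee ((t : ℝ) * ((((m : ℤ) - r : ℤ) : ℝ) / q)) := by
          rw [mul_sum]
          refine sum_congr rfl fun t _ => ?_
          have h4 : (P₀ + C ((t : ℝ) / q) * X).eval (m : ℝ) = P₀.eval (m : ℝ) + (t : ℝ) / q * m := by simp
          rw [h4, ee_add]
          have h5 : ee ((t : ℝ) * ((((m : ℤ) - r : ℤ) : ℝ) / q)) =
              ee (-((t : ℝ) * ((r : ℝ) / q))) * ee ((t : ℝ) / q * m) := by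
            rw [← ee_add]
            congr 1
            push_cast
            ring
          rw [h5]
          ring
        rw [h3, orth q hq]
        by_cases h : m % q = r
        · rw [if_pos h, if_pos]
          · ring
          · rw [← h]
            refine ⟨(m / q : ℕ), ?_⟩
            have := Nat.div_add_mod m q
            have h3 : (m : ℤ) = q * (m / q : ℕ) + (m % q : ℕ) := by exact_mod_cast this.symm
            linarith
        · rw [if_neg h, if_neg, mul_zero]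
          intro hd
          apply h
          have h4 : ((m : ℤ) - r) % q = 0 := Int.emod_eq_zero_of_dvd hd
          have h5 : (m : ℤ) % q = (r : ℤ) % q := Int.emod_eq_emod_iff_emod_sub_eq_zero.2 h4
          have h6 : (r : ℤ) % q = r := Int.emod_eq_of_lt (by positivity) (by exact_mod_cast hr)
          rw [h6] at h5
          exact_mod_cast h5
      have h3 : (q : ℂ) * A r = ∑ m ∈ Ioc n (n + H), (if m % q = r then (q : ℂ) * (f m * ee (P₀.eval (m : ℝ))) else 0) := by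
        rw [hA]
        simp only
        rw [mul_sum, sum_filter]
      rw [h3, sum_congr rfl h2, sum_comm]
      refine sum_congr rfl fun t _ => ?_
      unfold W
      rw [mul_sum]
    have h2 : (q : ℝ) * ‖A r‖ ≤ q * wSup e Set.univ f n H := by
      have h3 : (q : ℝ) * ‖A r‖ = ‖(q : ℂ) * A r‖ := by rw [norm_mul, Complex.norm_natCast]
      rw [h3, h1]
      refine (norm_sum_le _ _).trans ((sum_le_card_nsmul _ _ (wSup e Set.univ f n H) fun t _ => ?_).trans (le_of_eq ?_))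
      · rw [norm_mul, norm_ee, one_mul]
        refine le_wSup hf n H ?_ (Set.mem_univ _)
        refine (natDegree_add_le _ _).trans (max_le hdeg ?_)
        exact ((natDegree_C_mul_le _ _).trans natDegree_X_le).trans he
      · rw [card_range, nsmul_eq_mul]
    exact le_of_mul_le_mul_left h2 hq0
  rw [hW]
  refine (norm_sum_le _ _).trans ((sum_le_card_nsmul _ _ (wSup e Set.univ f n H) fun r hr => ?_).trans (le_of_eq ?_))
  · rw [norm_mul, norm_ee, one_mul]
    exact hAr r hr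
  · rw [card_range, nsmul_eq_mul]

theorem unif_red {f : ℕ → ℂ} (hf : ∀ n, ‖f n‖ ≤ 1) {e q : ℕ} (he : 1 ≤ e) (hq : 1 ≤ q) (a : ℤ)
    (h : Unif f e Set.univ) : Unif f (e + 1) {(((a : ℝ) / q : ℝ) : UnitAddCircle)} := by
  intro ε hε
  have hq0 : (0 : ℝ) < q := by exact_mod_cast hq
  obtain ⟨H₀, hH₀⟩ := h (ε / q) (by positivity)
  refine ⟨H₀, fun H hH => ?_⟩
  obtain ⟨N₀, hN₀⟩ := hH₀ H hH
  refine ⟨N₀, fun N hN => ?_⟩
  have h1 := hN₀ N hN
  calc ∑ n ∈ Icc 1 N, (1 / (n : ℝ)) * wSup (e + 1) {(((a : ℝ) / q : ℝ) : UnitAddCircle)} f n H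
      ≤ ∑ n ∈ Icc 1 N, (1 / (n : ℝ)) * (q * wSup e Set.univ f n H) :=
        sum_le_sum fun n _ => mul_le_mul_of_nonneg_left (red hf he hq a n H) (by positivity)
    _ = q * ∑ n ∈ Icc 1 N, (1 / (n : ℝ)) * wSup e Set.univ f n H := by
        rw [mul_sum]
        exact sum_congr rfl fun n _ => by ring
    _ ≤ q * (ε / q * H * Real.log N) := mul_le_mul_of_nonneg_left h1 hq0.le
    _ = ε * H * Real.log N := by field_simp

end Pool.Agent.K9h46.ZO
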