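import Pool.Agent.K9h46.ZO.Pow
import Pool.Agent.K9h46.ZO.Red
import Pool.Agent.Helper44K9.FU.Tk
import Pool.Agent.Helper44K9.FU.Pw
import Pool.Agent.Results.MP_4a7640_nt.PhasePolynomials

/-!
# Leading coefficients of polynomial phases (helper46): Furstenberg systems
-/

set_option autoImplicit false

namespace Pool.Agent.K9h46.ZO.Fur

open Finset MeasureTheory Filter Topology
open Pool.Agent.H807R2.Dav (ee norm_ee ee_add ee_int)
open Pool.Agent.Helper44K9.FU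
open Pool.Agent.Helper44K9.FU.FL hiding shift
open Pool.Agent.Results.MP_4a7640_nt.DisplacedCubes (Val shift seq IsFurstenbergSystem IsMult Aperiodic val_le seq_nat)

/-- the space of two-sided sequences -/
abbrev Sq : Type := Pool.Agent.Results.MP_4a7640_nt.DisplacedCubes.X

/-- the values at the natural numbers -/
noncomputable def av (x : Sq) (m : ℕ) : ℂ := ((x (m : ℤ) : ℝ) : ℂ)

theorem av_le (x : Sq) (m : ℕ) : ‖av x m‖ ≤ 1 := by
  unfold av
  rw [Complex.norm_real, Real.norm_eq_abs]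
  exact val_le _

/-- the largest correlation with a polynomial phase in the window -/
noncomputable def pS (d : ℕ) (E : Set UnitAddCircle) (H : ℕ) (x : Sq) : ℝ := wSup d E (av x) 0 H / H

theorem pS_bd (d : ℕ) (E : Set UnitAddCircle) (H : ℕ) (x : Sq) : 0 ≤ pS d E H x ∧ pS d E H x ≤ 1 :=
  wSup_div (av_le x) d E 0 H

/-- the coefficient of `x ^ d` of a translate -/
theorem coeff_taylor_top {d : ℕ} (P : Polynomial ℝ) (hP : P.natDegree ≤ d) (t : ℝ) :
    (Polynomial.taylor t P).coeff d = P.coeff d := by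
  rcases hP.eq_or_lt with h | h
  · rw [← h]
    rw [Polynomial.coeff_taylor_natDegree]
    rfl
  · rw [Polynomial.coeff_eq_zero_of_natDegree_lt h, Polynomial.coeff_eq_zero_of_natDegree_lt]
    rw [Polynomial.natDegree_taylor]
    exact h

theorem W_shift (f : ℕ → Val) (P : Polynomial ℝ) (n H : ℕ) :
    W (fun m => ((f m : ℝ) : ℂ)) P n H = W (av (shift (n : ℤ) (seq f))) (Polynomial.taylor (n : ℝ) P) 0 H := by
  unfold W
  rw [Nat.zero_add]
  have h1 : Ioc n (n + H) = (Ioc 0 H).image (fun h => n + h) := by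
    ext m
    simp only [mem_Ioc, mem_image]
    constructor
    · intro h; exact ⟨m - n, by omega, by omega⟩
    · rintro ⟨j, hj, rfl⟩; omega
  rw [h1, sum_image fun a _ b _ hab => by omega]
  refine sum_congr rfl fun h hh => ?_
  rw [mem_Ioc] at hh
  have h2 : av (shift (n : ℤ) (seq f)) h = ((f (n + h) : ℝ) : ℂ) := by
    unfold av shift
    have h3 : ((h : ℤ) + (n : ℤ)) = ((n + h : ℕ) : ℤ) := by push_cast; ring
    rw [h3, seq_nat f (n + h) (by omega)]
  rw [h2, Polynomial.taylor_eval]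
  congr 3
  push_cast
  ring

theorem wSup_shift (f : ℕ → Val) (d : ℕ) (E : Set UnitAddCircle) (n H : ℕ) :
    wSup d E (fun m => ((f m : ℝ) : ℂ)) n H = wSup d E (av (shift (n : ℤ) (seq f))) 0 H := by
  unfold wSup
  refine Function.Surjective.iSup_congr (fun P => ⟨Polynomial.taylor (n : ℝ) P.1, ?_, ?_⟩) ?_ ?_
  · rw [Polynomial.natDegree_taylor]
    exact P.2.1
  · rw [coeff_taylor_top P.1 P.2.1]
    exact P.2.2
  · rintro ⟨R, hR1, hR2⟩
    refine ⟨⟨Polynomial.taylor (-(n : ℝ)) R, ?_, ?_⟩, ?_⟩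
    · rw [Polynomial.natDegree_taylor]
      exact hR1
    · rw [coeff_taylor_top R hR1]
      exact hR2
    · apply Subtype.ext
      show Polynomial.taylor (n : ℝ) (Polynomial.taylor (-(n : ℝ)) R) = R
      rw [Polynomial.taylor_taylor]
      simp
  · intro P
    show ‖W (av (shift (n : ℤ) (seq f))) (Polynomial.taylor (n : ℝ) P.1) 0 H‖ = _
    rw [← W_shift]

theorem pS_shift (f : ℕ → Val) (d : ℕ) (E : Set UnitAddCircle) (n H : ℕ) :
    pS d E H (shift (n : ℤ) (seq f)) = wSup d E (fun m => ((f m : ℝ) : ℂ)) n H / H := by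
  unfold pS
  rw [wSup_shift]

/-- functions of finitely many coordinates are continuous -/
theorem cont_fin (s : Finset ℤ) (φ : Sq → ℝ) (h : ∀ x y : Sq, (∀ i ∈ s, x i = y i) → φ x = φ y) : Continuous φ := by
  classical
  rw [continuous_iff_continuousAt]
  intro x
  have h1 : {y : Sq | ∀ i ∈ s, y i = x i} ∈ 𝓝 x := by
    have h2 : {y : Sq | ∀ i ∈ s, y i = x i} = ⋂ i ∈ s, {y : Sq | y i = x i} := by
      ext y
      simp
    rw [h2, Filter.biInter_finset_mem]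
    intro i _
    have h3 : IsOpen {y : Sq | y i = x i} := by
      have h4 : {y : Sq | y i = x i} = (fun y : Sq => y i) ⁻¹' {x i} := rfl
      rw [h4]
      exact (isOpen_discrete _).preimage (continuous_apply i)
    exact h3.mem_nhds rfl
  refine (continuousAt_const (y := φ x)).congr ?_
  filter_upwards [h1] with y hy
  exact (h y x hy).symm

theorem pS_cont (d : ℕ) (E : Set UnitAddCircle) (H : ℕ) : Continuous (pS d E H) := by
  refine cont_fin ((Ioc 0 H).image (fun m : ℕ => (m : ℤ))) _ fun x y hxy => ?_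
  unfold pS
  congr 1
  unfold wSup
  congr 1
  funext P
  congr 1
  unfold W
  rw [Nat.zero_add]
  refine sum_congr rfl fun m hm => ?_
  unfold av
  rw [hxy (m : ℤ) (mem_image_of_mem _ hm)]

theorem int_of_cont {μ : Measure Sq} [IsProbabilityMeasure μ] {φ : Sq → ℝ} (hφ : Continuous φ) (h0 : ∀ x, 0 ≤ φ x)
    (h1 : ∀ x, φ x ≤ 1) : Integrable φ μ := by
  refine Integrable.of_bound hφ.measurable.aestronglyMeasurable 1 (Filter.Eventually.of_forall fun x => ?_)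
  rw [Real.norm_eq_abs, abs_of_nonneg (h0 x)]
  exact h1 x

theorem mul1 {f : ℕ → Val} (hf : IsMult f) : Mul1 (fun m => ((f m : ℝ) : ℂ)) := by
  refine ⟨fun n => ?_, fun a b hab => ?_⟩
  · rw [Complex.norm_real, Real.norm_eq_abs]
    exact val_le _
  · have h1 : (f 1 : ℝ) = 1 := by
      have h2 := hf.2 1 1 le_rfl le_rfl (by simp)
      rw [mul_one] at h2
      have h3 := hf.1 1 le_rfl
      have h4 : (f 1 : ℝ) * ((f 1 : ℝ) - 1) = 0 := by linarith
      rcases mul_eq_zero.1 h4 with h5 | h5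
      · exact absurd h5 h3
      · linarith
    have h2 : (f (a * b) : ℝ) = f a * f b := by
      rcases Nat.eq_zero_or_pos a with rfl | ha
      · have hb : b = 1 := by simpa using hab
        subst hb
        rw [h1]
        simp
      rcases Nat.eq_zero_or_pos b with rfl | hb
      · have ha1 : a = 1 := by simpa using hab
        subst ha1
        rw [h1]
        simp
      exact hf.2 a b ha hb hab
    show ((f (a * b) : ℝ) : ℂ) = ((f a : ℝ) : ℂ) * ((f b : ℝ) : ℂ)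
    rw [h2]
    push_cast
    rfl

/-- the main inequality in Furstenberg systems -/
theorem fur_main {f : ℕ → Val} (hf : IsMult f) {μ : Measure Sq} (hμ : IsFurstenbergSystem f μ) {d r : ℕ} (hd : 1 ≤ d)
    (hr : 1 ≤ r) (E : Set UnitAddCircle) {K : ℕ} (hK : 1 ≤ K) {ε : ℝ} (hε : 0 < ε) :
    ∃ Q : ℕ, ∀ L : ℕ, 1 ≤ L → ∃ H₀ : ℕ, ∀ H : ℕ, H₀ ≤ H →
      (volume (closure E)).toReal * ∫ x, pS d Set.univ H x ^ r ∂μ ≤
        ∫ x, pS d E K x ^ r ∂μ + ∫ x, pS d (frac Q) L x ∂μ + ε := by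
  obtain ⟨hprob, N, hN, hlim⟩ := hμ
  obtain ⟨Q, hQ⟩ := main_pow pw (push tk) (mul1 hf) hd hr E hK hε
  refine ⟨Q, fun L hL => ?_⟩
  obtain ⟨H₀, hH₀⟩ := hQ L hL
  refine ⟨H₀, fun H hH => ?_⟩
  obtain ⟨N₀, hN₀⟩ := hH₀ H hH
  have l1 := hlim (fun x => pS d Set.univ H x ^ r) ((pS_cont d Set.univ H).pow r)
  have l2 := hlim (fun x => pS d E K x ^ r) ((pS_cont d E K).pow r)
  have l3 := hlim (fun x => pS d (frac Q) L x) (pS_cont d (frac Q) L)
  refine le_of_tendsto_of_tendsto (l1.const_mul (volume (closure E)).toReal) ((l2.add l3).add_const ε) ?_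
  filter_upwards [hN.eventually_ge_atTop (N₀ + 2)] with j hj
  have h1 := hN₀ (N j) (by omega)
  have hlog : 0 < Real.log (N j : ℝ) := Real.log_pos (by exact_mod_cast (by omega : 1 < N j))
  simp only [pS_shift]
  have h2 : (volume (closure E)).toReal * (1 / Real.log (N j : ℝ) * ∑ n ∈ Icc 1 (N j), (1 / (n : ℝ)) *
      (wSup d Set.univ (fun m => ((f m : ℝ) : ℂ)) n H / H) ^ r) =
      (1 / Real.log (N j : ℝ)) * ((volume (closure E)).toReal * ∑ n ∈ Icc 1 (N j), (1 / (n : ℝ)) *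
      (wSup d Set.univ (fun m => ((f m : ℝ) : ℂ)) n H / H) ^ r) := by ring
  rw [h2]
  refine (mul_le_mul_of_nonneg_left h1 (by positivity)).trans (le_of_eq ?_)
  rw [mul_add, mul_add]
  congr 1
  field_simp

theorem sq_int {μ : Measure Sq} [IsProbabilityMeasure μ] {g : Sq → ℝ} (hg : Continuous g) (h0 : ∀ x, 0 ≤ g x)
    (h1 : ∀ x, g x ≤ 1) : (∫ x, g x ∂μ) ^ 2 ≤ ∫ x, g x ^ 2 ∂μ := by
  have hi := int_of_cont (μ := μ) hg h0 h1
  have hi2 : Integrable (fun x => g x ^ 2) μ :=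
    int_of_cont (hg.pow 2) (fun x => by positivity) (fun x => pow_le_one₀ (h0 x) (h1 x))
  set c : ℝ := ∫ x, g x ∂μ with hc
  have h2 : 0 ≤ ∫ x, (g x - c) ^ 2 ∂μ := integral_nonneg fun x => by positivity
  have h3 : ∫ x, (g x - c) ^ 2 ∂μ = ∫ x, g x ^ 2 ∂μ - 2 * c * c + c ^ 2 := by
    have h4 : (fun x => (g x - c) ^ 2) = fun x => g x ^ 2 - 2 * c * g x + c ^ 2 := by
      funext x; ring
    have e1 : ∫ x, (g x ^ 2 - 2 * c * g x + c ^ 2) ∂μ = ∫ x, (g x ^ 2 - 2 * c * g x) ∂μ + ∫ _ : Sq, c ^ 2 ∂μ :=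
      integral_add (hi2.sub (hi.const_mul (2 * c))) (integrable_const _)
    have e2 : ∫ x, (g x ^ 2 - 2 * c * g x) ∂μ = ∫ x, g x ^ 2 ∂μ - ∫ x, 2 * c * g x ∂μ :=
      integral_sub hi2 (hi.const_mul (2 * c))
    rw [h4, e1, e2, integral_const_mul, integral_const]
    simp [hc]
  rw [h3] at h2
  nlinarith

/-- phases of degree one -/
theorem W_one' (f : ℕ → ℂ) {P : Polynomial ℝ} (hP : P.natDegree ≤ 1) {α : ℝ}
    (hα : ((P.coeff 1 : ℝ) : UnitAddCircle) = (α : UnitAddCircle)) (n H : ℕ) :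
    ‖W f P n H‖ = ‖∑ m ∈ Ioc n (n + H), f m * ee ((m : ℝ) * α)‖ := by
  obtain ⟨b, hb⟩ := lift_eq hα
  have h1 : W f P n H = ee (P.coeff 0) * ∑ m ∈ Ioc n (n + H), f m * ee ((m : ℝ) * α) := by
    unfold W
    rw [mul_sum]
    refine sum_congr rfl fun m _ => ?_
    have h2 : P.eval (m : ℝ) = P.coeff 0 + (m : ℝ) * α + ((m * b : ℤ) : ℝ) := by
      have h3 : P = Polynomial.C (P.coeff 1) * Polynomial.X + Polynomial.C (P.coeff 0) :=
        Polynomial.eq_X_add_C_of_natDegree_le_one hP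
      conv_lhs => rw [h3]
      simp only [Polynomial.eval_add, Polynomial.eval_mul, Polynomial.eval_C, Polynomial.eval_X, hb]
      push_cast
      ring
    rw [h2, Pool.Agent.H807R2.Dav.ee_add_int, ee_add]
    ring
  rw [h1, norm_mul, norm_ee, one_mul]

/-- sums over differences -/
theorem diff_sum (γ : ℕ → ℝ) (hγ : ∀ k, 0 ≤ γ k) (hγ1 : γ 0 ≤ 1) (L m : ℕ) (hm : m ∈ Ioc 0 L) :
    ∑ m' ∈ Ioc 0 L, γ ((m - m') + (m' - m)) ≤ 2 + 2 * ∑ k ∈ range L, γ (k + 1) := by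
  rw [mem_Ioc] at hm
  have h0 : ∑ k ∈ range L, γ k ≤ 1 + ∑ k ∈ range L, γ (k + 1) := by
    have h1 : ∑ k ∈ range L, γ k ≤ ∑ k ∈ range (L + 1), γ k :=
      sum_le_sum_of_subset_of_nonneg (range_subset_range.2 (Nat.le_succ L)) fun k _ _ => hγ k
    rw [sum_range_succ'] at h1
    linarith
  have h1 : ∑ m' ∈ (Ioc 0 L).filter (fun m' => m' ≤ m), γ (m - m') ≤ ∑ k ∈ range L, γ k := by
    rw [← sum_image (f := γ) (g := fun m' => m - m') (fun x hx y hy h => by
      rw [coe_filter, Set.mem_ofPred_eq, mem_Ioc] at hx hy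
      simp only at h
      omega)]
    refine sum_le_sum_of_subset_of_nonneg ?_ fun k _ _ => hγ k
    intro k hk
    rw [mem_image] at hk
    obtain ⟨m', h2, rfl⟩ := hk
    rw [mem_filter, mem_Ioc] at h2
    rw [mem_range]
    omega
  have h2 : ∑ m' ∈ (Ioc 0 L).filter (fun m' => m ≤ m'), γ (m' - m) ≤ ∑ k ∈ range L, γ k := by
    rw [← sum_image (f := γ) (g := fun m' => m' - m) (fun x hx y hy h => by
      rw [coe_filter, Set.mem_ofPred_eq, mem_Ioc] at hx hy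
      simp only at h
      omega)]
    refine sum_le_sum_of_subset_of_nonneg ?_ fun k _ _ => hγ k
    intro k hk
    rw [mem_image] at hk
    obtain ⟨m', h2, rfl⟩ := hk
    rw [mem_filter, mem_Ioc] at h2
    rw [mem_range]
    omega
  have h3 : ∑ m' ∈ Ioc 0 L, γ ((m - m') + (m' - m)) ≤
      ∑ m' ∈ (Ioc 0 L).filter (fun m' => m' ≤ m), γ (m - m') + ∑ m' ∈ (Ioc 0 L).filter (fun m' => m ≤ m'), γ (m' - m) := by
    rw [sum_filter, sum_filter, ← sum_add_distrib]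
    refine sum_le_sum fun m' _ => ?_
    rcases le_total m' m with h | h
    · rw [if_pos h, Nat.sub_eq_zero_of_le h, add_zero]
      have : 0 ≤ (if m ≤ m' then γ 0 else 0) := by
        split_ifs
        · exact hγ 0
        · exact le_rfl
      linarith
    · rw [if_pos h, Nat.sub_eq_zero_of_le h, zero_add]
      have : 0 ≤ (if m' ≤ m then γ 0 else 0) := by
        split_ifs
        · exact hγ 0
        · exact le_rfl
      linarith
  linarith

/-- correlations with a fixed frequency -/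
theorem corr_one {f : ℕ → Val} (hf : IsMult f) (ha : Aperiodic f) {μ : Measure Sq} (hμ : IsFurstenbergSystem f μ)
    (α : ℝ) : Tendsto (fun L : ℕ => ∫ x, pS 1 {(α : UnitAddCircle)} L x ∂μ) atTop (𝓝 0) := by
  have hprob : IsProbabilityMeasure μ := hμ.1
  have hna := Pool.Agent.Results.MP_4a7640_nt.PhasePolynomials.no_atoms hf ha hμ
  have hmp := Pool.Agent.Results.MP_4a7640_nt.PhasePolynomials.mp_shift hμ
  -- the autocorrelations
  obtain ⟨γ, hγ⟩ : ∃ γ : ℕ → ℝ, γ = fun k : ℕ => |∫ x : Sq, (x 0 : ℝ) * (x (k : ℤ) : ℝ) ∂μ| := ⟨_, rfl⟩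
  have hγ0 : ∀ k, 0 ≤ γ k := fun k => by rw [hγ]; exact abs_nonneg _
  have hcm : ∀ i : ℤ, Continuous (fun x : Sq => (x i : ℝ)) := fun i => continuous_subtype_val.comp (continuous_apply i)
  have hprodi : ∀ i j : ℤ, Integrable (fun x : Sq => (x i : ℝ) * (x j : ℝ)) μ := fun i j => by
    refine Integrable.of_bound ((hcm i).mul (hcm j)).measurable.aestronglyMeasurable 1
      (Filter.Eventually.of_forall fun x => ?_)
    rw [Real.norm_eq_abs, abs_mul]
    exact mul_le_one₀ (val_le _) (abs_nonneg _) (val_le _)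
  have hγ1 : ∀ k, γ k ≤ 1 := by
    intro k
    rw [hγ]
    refine (abs_integral_le_integral_abs).trans ?_
    have h1 : ∫ x : Sq, |(x 0 : ℝ) * (x (k : ℤ) : ℝ)| ∂μ ≤ ∫ _ : Sq, (1 : ℝ) ∂μ := by
      refine integral_mono (hprodi 0 k).abs (integrable_const _) fun x => ?_
      show |(x 0 : ℝ) * (x (k : ℤ) : ℝ)| ≤ 1
      rw [abs_mul]
      exact mul_le_one₀ (val_le _) (abs_nonneg _) (val_le _)
    rw [integral_const] at h1
    simpa using h1
  have hinvg : ∀ (a : ℕ) (g : Sq → ℝ), Continuous g → ∫ x, g (shift (a : ℤ) x) ∂μ = ∫ x, g x ∂μ := by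
    intro a g hg
    have h1 := hmp.iterate a
    have h2 : ∫ x, g x ∂(Measure.map ((shift 1)^[a]) μ) = ∫ x, g ((shift 1)^[a] x) ∂μ :=
      integral_map h1.measurable.aemeasurable hg.measurable.aestronglyMeasurable
    rw [h1.map_eq] at h2
    rw [h2]
    congr 1
    funext x
    rw [Pool.Agent.Results.MP_4a7640_nt.PhasePolynomials.shift_iter]
  have hinv : ∀ a b : ℕ, a ≤ b → |∫ x : Sq, (x (a : ℤ) : ℝ) * (x (b : ℤ) : ℝ) ∂μ| = γ (b - a) := by
    intro a b hab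
    rw [hγ]
    simp only
    congr 1
    rw [← hinvg a (fun x => (x 0 : ℝ) * (x ((b - a : ℕ) : ℤ) : ℝ)) ((hcm _).mul (hcm _))]
    congr 1
    funext x
    unfold shift
    have h1 : (0 : ℤ) + a = a := by ring
    have h2 : ((b - a : ℕ) : ℤ) + a = b := by omega
    rw [h1, h2]
  have hinv2 : ∀ a b : ℕ, |∫ x : Sq, (x (a : ℤ) : ℝ) * (x (b : ℤ) : ℝ) ∂μ| = γ ((a - b) + (b - a)) := by
    intro a b
    rcases le_total a b with h | h
    · rw [hinv a b h]
      congr 1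
      omega
    · have h1 : (fun x : Sq => (x (a : ℤ) : ℝ) * (x (b : ℤ) : ℝ)) = fun x : Sq => (x (b : ℤ) : ℝ) * (x (a : ℤ) : ℝ) := by
        funext x
        ring
      rw [h1, hinv b a h]
      congr 1
      omega
  -- the limit
  have hlim : Tendsto (fun L : ℕ => 2 * (1 / (L : ℝ)) + 2 * ((1 / (L : ℝ)) * ∑ k ∈ range L, γ (k + 1))) atTop (𝓝 0) := by
    have h1 : Tendsto (fun L : ℕ => (1 / (L : ℝ)) * ∑ k ∈ range L, γ (k + 1)) atTop (𝓝 0) := by
      refine hna.congr fun L => ?_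
      congr 1
      refine sum_congr rfl fun k _ => ?_
      rw [hγ]
      simp only
      congr 2
      funext x
      rw [Pool.Agent.Results.MP_4a7640_nt.PhasePolynomials.shift_iter]
      unfold shift
      rw [zero_add]
    have h2 := (tendsto_one_div_atTop_nhds_zero_nat (𝕜 := ℝ)).const_mul 2
    have h3 := h1.const_mul 2
    have h4 := h2.add h3
    simpa using h4
  -- the second moment
  have hsecond : ∀ L : ℕ, 1 ≤ L → ∫ x, pS 1 {(α : UnitAddCircle)} L x ^ 2 ∂μ ≤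
      2 * (1 / (L : ℝ)) + 2 * ((1 / (L : ℝ)) * ∑ k ∈ range L, γ (k + 1)) := by
    intro L hL
    have hL0 : (0 : ℝ) < L := by exact_mod_cast hL
    obtain ⟨c, hc⟩ : ∃ c : ℕ → ℕ → ℝ, c = fun m m' : ℕ =>
      (ee ((m : ℝ) * α) * (starRingEnd ℂ) (ee ((m' : ℝ) * α))).re := ⟨_, rfl⟩
    have hc1 : ∀ m m', |c m m'| ≤ 1 := by
      intro m m'
      rw [hc]
      refine (Complex.abs_re_le_norm _).trans ?_
      rw [norm_mul, RCLike.norm_conj, norm_ee, norm_ee, one_mul]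
    have h1 : ∀ x : Sq, pS 1 {(α : UnitAddCircle)} L x ^ 2 ≤
        (1 / (L : ℝ) ^ 2) * ∑ m ∈ Ioc 0 L, ∑ m' ∈ Ioc 0 L, c m m' * ((x (m : ℤ) : ℝ) * (x (m' : ℤ) : ℝ)) := by
      intro x
      set S : ℂ := ∑ m ∈ Ioc 0 L, av x m * ee ((m : ℝ) * α) with hS
      have h2 : pS 1 {(α : UnitAddCircle)} L x ≤ ‖S‖ / L := by
        unfold pS
        refine div_le_div_of_nonneg_right (wSup_le (norm_nonneg _) fun P hP hPE => ?_) hL0.le
        rw [W_one' (av x) hP (Set.mem_singleton_iff.1 hPE), Nat.zero_add]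
      have h3 : ‖S‖ ^ 2 = ∑ m ∈ Ioc 0 L, ∑ m' ∈ Ioc 0 L, c m m' * ((x (m : ℤ) : ℝ) * (x (m' : ℤ) : ℝ)) := by
        have h4 : ‖S‖ ^ 2 = (S * (starRingEnd ℂ) S).re := by
          rw [Complex.mul_conj', ← Complex.ofReal_pow, Complex.ofReal_re]
        rw [h4, hS, map_sum, sum_mul_sum, Complex.re_sum]
        refine sum_congr rfl fun m _ => ?_
        rw [Complex.re_sum]
        refine sum_congr rfl fun m' _ => ?_
        rw [hc]
        unfold av
        simp only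
        rw [map_mul, Complex.conj_ofReal]
        have h5 : ((x (m : ℤ) : ℝ) : ℂ) * ee ((m : ℝ) * α) * (((x (m' : ℤ) : ℝ) : ℂ) * (starRingEnd ℂ) (ee ((m' : ℝ) * α))) =
            (((x (m : ℤ) : ℝ) * (x (m' : ℤ) : ℝ) : ℝ) : ℂ) * (ee ((m : ℝ) * α) * (starRingEnd ℂ) (ee ((m' : ℝ) * α))) := by
          push_cast
          ring
        rw [h5, Complex.re_ofReal_mul]
        ring
      calc pS 1 {(α : UnitAddCircle)} L x ^ 2 ≤ (‖S‖ / L) ^ 2 := pow_le_pow_left₀ (pS_bd _ _ _ _).1 h2 2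
        _ = (1 / (L : ℝ) ^ 2) * ‖S‖ ^ 2 := by rw [div_pow]; ring
        _ = _ := by rw [h3]
    have h2 : ∫ x, pS 1 {(α : UnitAddCircle)} L x ^ 2 ∂μ ≤
        (1 / (L : ℝ) ^ 2) * ∑ m ∈ Ioc 0 L, ∑ m' ∈ Ioc 0 L, c m m' * ∫ x : Sq, (x (m : ℤ) : ℝ) * (x (m' : ℤ) : ℝ) ∂μ := by
      have h3 : Integrable (fun x : Sq => (1 / (L : ℝ) ^ 2) * ∑ m ∈ Ioc 0 L, ∑ m' ∈ Ioc 0 L,
          c m m' * ((x (m : ℤ) : ℝ) * (x (m' : ℤ) : ℝ))) μ :=
        (integrable_finsetSum (Ioc 0 L) fun m _ => integrable_finsetSum (Ioc 0 L) fun m' _ =>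
          (hprodi (m : ℤ) (m' : ℤ)).const_mul (c m m')).const_mul _
      refine (integral_mono (int_of_cont ((pS_cont _ _ _).pow 2) (fun x => pow_nonneg (pS_bd _ _ _ _).1 2)
        (fun x => pow_le_one₀ (pS_bd _ _ _ _).1 (pS_bd _ _ _ _).2)) h3 h1).trans (le_of_eq ?_)
      rw [integral_const_mul, integral_finsetSum (Ioc 0 L) fun m _ => integrable_finsetSum (Ioc 0 L) fun m' _ =>
        (hprodi (m : ℤ) (m' : ℤ)).const_mul (c m m')]
      congr 1
      refine sum_congr rfl fun m _ => ?_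
      rw [integral_finsetSum (Ioc 0 L) fun m' _ => (hprodi (m : ℤ) (m' : ℤ)).const_mul (c m m')]
      exact sum_congr rfl fun m' _ => integral_const_mul _ _
    refine h2.trans ?_
    have h3 : ∑ m ∈ Ioc 0 L, ∑ m' ∈ Ioc 0 L, c m m' * ∫ x : Sq, (x (m : ℤ) : ℝ) * (x (m' : ℤ) : ℝ) ∂μ ≤
        L * (2 + 2 * ∑ k ∈ range L, γ (k + 1)) := by
      have h4 : ∀ m ∈ Ioc 0 L, ∑ m' ∈ Ioc 0 L, c m m' * ∫ x : Sq, (x (m : ℤ) : ℝ) * (x (m' : ℤ) : ℝ) ∂μ ≤
          2 + 2 * ∑ k ∈ range L, γ (k + 1) := by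
        intro m hm
        refine le_trans (sum_le_sum fun m' _ => ?_) (diff_sum γ hγ0 (hγ1 0) L m hm)
        rw [← hinv2 m m']
        refine (le_abs_self _).trans ?_
        rw [abs_mul]
        exact mul_le_of_le_one_left (abs_nonneg _) (hc1 m m')
      refine (sum_le_card_nsmul _ _ _ h4).trans (le_of_eq ?_)
      rw [Nat.card_Ioc, Nat.sub_zero, nsmul_eq_mul]
    refine (mul_le_mul_of_nonneg_left h3 (by positivity)).trans (le_of_eq ?_)
    field_simp
  -- conclusion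
  have h5 : Tendsto (fun L : ℕ => √(2 * (1 / (L : ℝ)) + 2 * ((1 / (L : ℝ)) * ∑ k ∈ range L, γ (k + 1)))) atTop (𝓝 0) := by
    have := hlim.sqrt
    rwa [Real.sqrt_zero] at this
  refine squeeze_zero' (Filter.Eventually.of_forall fun L => integral_nonneg fun x => (pS_bd _ _ _ _).1) ?_ h5
  filter_upwards [eventually_ge_atTop 1] with L hL
  refine Real.le_sqrt_of_sq_le ?_
  exact (sq_int (pS_cont _ _ _) (fun x => (pS_bd _ _ _ _).1) (fun x => (pS_bd _ _ _ _).2)).trans (hsecond L hL)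

/-- all fractions, degree one -/
theorem rat_one {f : ℕ → Val} (hf : IsMult f) (ha : Aperiodic f) {μ : Measure Sq} (hμ : IsFurstenbergSystem f μ)
    (Q : ℕ) {ε : ℝ} (hε : 0 < ε) : ∃ L : ℕ, 1 ≤ L ∧ ∫ x, pS 1 (frac Q) L x ∂μ ≤ ε := by
  have hprob : IsProbabilityMeasure μ := hμ.1
  have h1 : Tendsto (fun L : ℕ => ∑ z ∈ frac Q, ∫ x, pS 1 {z} L x ∂μ) atTop (𝓝 0) := by
    have h2 : Tendsto (fun L : ℕ => ∑ z ∈ frac Q, ∫ x, pS 1 {z} L x ∂μ) atTop (𝓝 (∑ z ∈ frac Q, (0 : ℝ))) := by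
      refine tendsto_finsetSum _ fun z hz => ?_
      obtain ⟨q, a, hq, rfl⟩ := frac_rat hz
      exact corr_one hf ha hμ _
    rwa [sum_const_zero] at h2
  obtain ⟨L, hL1, hL2⟩ := ((h1.eventually_le_const hε).and (eventually_ge_atTop 1)).exists
  refine ⟨L, hL2, le_trans ?_ hL1⟩
  rw [← integral_finsetSum _ fun z _ => int_of_cont (pS_cont 1 {z} L) (fun x => (pS_bd _ _ _ _).1)
    (fun x => (pS_bd _ _ _ _).2)]
  refine integral_mono (int_of_cont (pS_cont _ _ _) (fun x => (pS_bd _ _ _ _).1) (fun x => (pS_bd _ _ _ _).2))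
    (integrable_finsetSum _ fun z _ => int_of_cont (pS_cont 1 {z} L) (fun x => (pS_bd _ _ _ _).1)
    (fun x => (pS_bd _ _ _ _).2)) fun x => ?_
  show pS 1 (frac Q) L x ≤ ∑ z ∈ frac Q, pS 1 {z} L x
  unfold pS
  rw [← sum_div]
  exact div_le_div_of_nonneg_right (wSup_fin (av_le x) (frac Q) 1 0 L) (Nat.cast_nonneg _)

/-- all fractions with denominators at most `Q`, in degree `e + 1`, are controlled by the degree `e` -/
theorem frac_le' {e : ℕ} (he : 1 ≤ e) (Q : ℕ) :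
    ∃ C : ℕ, ∀ (L : ℕ) (x : Sq), pS (e + 1) (frac Q) L x ≤ C * pS e Set.univ L x := by
  classical
  have h1 : ∀ z : UnitAddCircle, ∃ q : ℕ, z ∈ frac Q → ∀ (L : ℕ) (x : Sq),
      wSup (e + 1) {z} (av x) 0 L ≤ q * wSup e Set.univ (av x) 0 L := by
    intro z
    by_cases hz : z ∈ frac Q
    · obtain ⟨q, a, hq, rfl⟩ := frac_rat hz
      exact ⟨q, fun _ L x => red (av_le x) he hq a 0 L⟩
    · exact ⟨0, fun h => absurd h hz⟩
  choose q hq using h1
  refine ⟨∑ z ∈ frac Q, q z, fun L x => ?_⟩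
  unfold pS
  rw [← mul_div_assoc]
  refine div_le_div_of_nonneg_right ?_ (Nat.cast_nonneg _)
  refine (wSup_fin (av_le x) (frac Q) (e + 1) 0 L).trans ?_
  push_cast
  rw [sum_mul]
  exact sum_le_sum fun z hz => hq z hz L x

/-- the inequality in Furstenberg systems -/
theorem fur {f : ℕ → Val} (hf : IsMult f) (ha : Aperiodic f) {μ : Measure Sq} (hμ : IsFurstenbergSystem f μ)
    {d r : ℕ} (hd : 1 ≤ d) (hr : 1 ≤ r) (E : Set UnitAddCircle) {K : ℕ} (hK : 1 ≤ K) {ε : ℝ} (hε : 0 < ε) :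
    ∃ C : ℕ, (d = 1 → C = 0) ∧ ∀ L : ℕ, 1 ≤ L → ∃ H₀ : ℕ, ∀ H : ℕ, H₀ ≤ H →
      (volume (closure E)).toReal * ∫ x, pS d Set.univ H x ^ r ∂μ ≤
        ∫ x, pS d E K x ^ r ∂μ + C * ∫ x, pS (d - 1) Set.univ L x ∂μ + ε := by
  have hprob : IsProbabilityMeasure μ := hμ.1
  rcases hd.eq_or_lt with h1 | h1
  · subst h1
    obtain ⟨Q, hQ⟩ := fur_main hf hμ le_rfl hr E hK (ε := ε / 2) (by positivity)
    obtain ⟨L₁, hL₁, h2⟩ := rat_one hf ha hμ Q (ε := ε / 2) (by positivity)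
    obtain ⟨H₀, hH₀⟩ := hQ L₁ hL₁
    refine ⟨0, fun _ => rfl, fun L _ => ⟨H₀, fun H hH => ?_⟩⟩
    have h3 := hH₀ H hH
    rw [Nat.cast_zero, zero_mul, add_zero]
    linarith
  · obtain ⟨e, rfl⟩ : ∃ e, d = e + 1 := ⟨d - 1, by omega⟩
    have he : 1 ≤ e := by omega
    obtain ⟨Q, hQ⟩ := fur_main hf hμ hd hr E hK hε
    obtain ⟨C, hC⟩ := frac_le' he Q
    refine ⟨C, fun h => absurd h (by omega), fun L hL => ?_⟩
    obtain ⟨H₀, hH₀⟩ := hQ L hL
    refine ⟨H₀, fun H hH => ?_⟩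
    have h2 := hH₀ H hH
    have h3 : ∫ x, pS (e + 1) (frac Q) L x ∂μ ≤ C * ∫ x, pS e Set.univ L x ∂μ := by
      rw [← integral_const_mul]
      exact integral_mono (int_of_cont (pS_cont _ _ _) (fun x => (pS_bd _ _ _ _).1) (fun x => (pS_bd _ _ _ _).2))
        ((int_of_cont (pS_cont _ _ _) (fun x => (pS_bd _ _ _ _).1) (fun x => (pS_bd _ _ _ _).2)).const_mul _)
        fun x => hC L x
    rw [Nat.add_sub_cancel]
    linarith

end Pool.Agent.K9h46.ZO.Fur
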