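import Pool.Agent.Helper44K9.FU.Ls
import Pool.Agent.K9h46.ZO.Red

/-!
# Leading coefficients of polynomial phases (helper46): long sums (Davenport, Hua), after Daboussi and Katai

`ls_gen` is the proof of `Pool.Agent.Helper44K9.FU.ls` (starting library) for one polynomial.
-/

set_option autoImplicit false

namespace Pool.Agent.K9h46.ZO

open Finset Polynomial MeasureTheory
open Pool.Agent.H807R2.Dav (ee norm_ee ee_add ee_int)
open Pool.Agent.Helper44K9.FU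
open Pool.Agent.Helper44K9.FU.FL

open LsL in
/-- long sums, the leading coefficient not near a fraction with small denominator -/
theorem ls_gen (hwr : S_WR) (htk : S_TK) (d : ℕ) (hd : 1 ≤ d) (ε : ℝ) (hε : 0 < ε) :
    ∃ (Q : ℕ) (C : ℝ) (X₀ : ℕ), 1 ≤ Q ∧ 0 < C ∧ ∀ X ≥ X₀, ∀ f : ℕ → ℂ, Mul1 f → ∀ P : ℝ[X], P.natDegree ≤ d →
      (∀ q : ℕ, 1 ≤ q → q ≤ Q → ∀ a : ℤ, C / (X : ℝ) ^ d < |q * P.coeff d - a|) → ‖W f P 0 X‖ ≤ ε * X := by
  -- constants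
  have hsum : Summable fun n : ℕ => 1 / (n : ℝ) ^ 2 := Real.summable_one_div_nat_pow.2 (by norm_num)
  set Z : ℝ := ∑' n : ℕ, 1 / (n : ℝ) ^ 2 with hZ
  have hZ0 : 0 ≤ Z := tsum_nonneg fun n => by positivity
  obtain ⟨I, hI, hIA⟩ := exists_primes ((24 + 100 * Z) / ε ^ 2)
  set u : ℝ := (I.card : ℝ) ^ 2 + 1 with hu
  have hu1 : 1 ≤ u := by
    rw [hu]
    have : (0 : ℝ) ≤ (I.card : ℝ) ^ 2 := by positivity
    linarith
  obtain ⟨K, hK, hWR⟩ := hwr d hd u hu1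
  obtain ⟨B, hB1, hB⟩ : ∃ B : ℕ, 1 ≤ B ∧ ∀ p ∈ I, p ≤ B :=
    ⟨I.sup id + 1, by omega, fun p hp => (le_sup (f := id) hp).trans (Nat.le_succ _)⟩
  obtain ⟨H₀, hTK⟩ := htk I hI
  have hB0 : (0 : ℝ) < B := by exact_mod_cast hB1
  have hK0 : (0 : ℝ) < K := by exact_mod_cast hK
  refine ⟨K * B ^ d, K * (2 * B) ^ d, max H₀ (max (2 * B) (B ^ 2)), Nat.mul_pos hK (Nat.pow_pos hB1), by positivity,
    fun X hX f hf P hP hPE => ?_⟩
  have hX0 : H₀ ≤ X := (le_max_left _ _).trans hX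
  have hX1 : 2 * B ≤ X := ((le_max_left _ _).trans (le_max_right _ _)).trans hX
  have hX2 : B ^ 2 ≤ X := ((le_max_right _ _).trans (le_max_right _ _)).trans hX
  have hXr : (0 : ℝ) < X := by exact_mod_cast (by omega : 0 < X)
  -- the second moment
  have hT := second I hI P f hf.1 X u (by rw [hu]; linarith) (by linarith) (by
    intro p hp q hq hpq
    have hdiv : ∀ r ∈ I, 1 ≤ X / r ∧ X ≤ 2 * B * (X / r) := by
      intro r hr
      have h1 : 1 ≤ X / r := by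
        rw [Nat.le_div_iff_mul_le (hI r hr).pos]
        have := hB r hr
        omega
      refine ⟨h1, ?_⟩
      have h2 := Nat.div_add_mod X r
      have h3 := Nat.mod_lt X (hI r hr).pos
      have h4 : r * (X / r) ≤ B * (X / r) := Nat.mul_le_mul_right _ (hB r hr)
      have h5 : r ≤ B * (X / r) := (hB r hr).trans (Nat.le_mul_of_pos_right B h1)
      nlinarith
    obtain ⟨H, hH⟩ : ∃ H, H = min (X / p) (X / q) := ⟨_, rfl⟩
    have hH1 : 1 ≤ H := by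
      rw [hH]
      exact le_min (hdiv p hp).1 (hdiv q hq).1
    have hH2 : X ≤ 2 * B * H := by
      rw [hH]
      rcases le_total (X / p) (X / q) with h | h
      · rw [min_eq_left h]; exact (hdiv p hp).2
      · rw [min_eq_right h]; exact (hdiv q hq).2
    have hHX : H ≤ X := by
      rw [hH]
      exact (min_le_left _ _).trans (Nat.div_le_self _ _)
    rw [← hH]
    by_contra hcon
    push Not at hcon
    have hHX' : (H : ℝ) ≤ X := by exact_mod_cast hHX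
    obtain ⟨m, hm1, hm2, a, ha⟩ := hWR (dil p P - dil q P) 0 H (natDegree_dil d p q P hP) hH1
      (by linarith)
    rw [coeff_dil] at ha
    have hH0 : (0 : ℝ) < H := by exact_mod_cast hH1
    have hsmall : (K : ℝ) / (H : ℝ) ^ d ≤ K * (2 * B) ^ d / (X : ℝ) ^ d := by
      rw [div_le_div_iff₀ (by positivity) (by positivity)]
      have h1 : (X : ℝ) ^ d ≤ (2 * B * H) ^ d := pow_le_pow_left₀ hXr.le (by exact_mod_cast hH2) d
      calc (K : ℝ) * (X : ℝ) ^ d ≤ K * (2 * B * H) ^ d := mul_le_mul_of_nonneg_left h1 hK0.le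
        _ = K * (2 * B) ^ d * H ^ d := by rw [mul_pow (2 * (B : ℝ)) H d]; ring
    -- the multiplier
    have hkey : ∀ p q : ℕ, q < p → p ≤ B → ∀ a : ℤ,
        K * (2 * B) ^ d / (X : ℝ) ^ d < |(m : ℝ) * (((p : ℝ) ^ d - (q : ℝ) ^ d) * P.coeff d) - a| := by
      intro p q hqp hpB a
      have h1 : q ^ d < p ^ d := Nat.pow_lt_pow_left hqp (by omega)
      have h2 := hPE (m * (p ^ d - q ^ d)) (Nat.mul_pos hm1 (Nat.sub_pos_of_lt h1))
        (by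
          apply Nat.mul_le_mul hm2
          exact (Nat.sub_le _ _).trans (Nat.pow_le_pow_left hpB d)) a
      rw [Nat.cast_mul, Nat.cast_sub h1.le, Nat.cast_pow, Nat.cast_pow] at h2
      rwa [mul_assoc] at h2
    rcases lt_or_gt_of_ne hpq with h | h
    · have h1 := hkey q p h (hB q hq) (-a)
      have h2 : |(m : ℝ) * (((q : ℝ) ^ d - (p : ℝ) ^ d) * P.coeff d) - ((-a : ℤ) : ℝ)| =
          |(m : ℝ) * (((p : ℝ) ^ d - (q : ℝ) ^ d) * P.coeff d) - a| := by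
        rw [← abs_neg]
        congr 1
        push_cast
        ring
      rw [h2] at h1
      linarith
    · have h1 := hkey p q h (hB p hp) a
      linarith)
  -- Turan-Kubilius
  have hee : ∀ x : ℝ, ‖ee x‖ = 1 := fun x => Pool.Agent.H807R2.Dav.norm_ee x
  have h1 := hTK X hX0 0 (fun m => f m * ee (P.eval (m : ℝ))) (fun m => by
    rw [norm_mul, hee, mul_one]
    exact hf.1 m)
  obtain ⟨A, hA⟩ : ∃ A, A = W f P 0 X := ⟨_, rfl⟩
  have hA' : ∑ m ∈ Ioc 0 (0 + X), f m * ee (P.eval (m : ℝ)) = A := by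
    rw [hA]
    rfl
  rw [hA'] at h1
  rw [← hA]
  obtain ⟨D, hD⟩ : ∃ D : ℕ → ℂ, D = fun p => ∑ m ∈ (Ioc 0 (0 + X)).filter (fun m => p ∣ m),
    f m * ee (P.eval (m : ℝ)) := ⟨_, rfl⟩
  have h1' : ∑ p ∈ I, (1 / (p : ℝ)) * ‖(p : ℂ) * D p - A‖ ^ 2 ≤ 8 * (X : ℝ) ^ 2 := by
    rw [hD]
    exact h1
  have hDp : ∀ p ∈ I, (1 / (p : ℝ)) * ‖(p : ℂ) * D p‖ ^ 2 ≤
      2 * ((p : ℝ) * ‖W f (dil p P) 0 (X / p)‖ ^ 2) + 50 * (X : ℝ) ^ 2 * (1 / (p : ℝ) ^ 2) := by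
    intro p hp
    have hp1 : (1 : ℝ) ≤ p := by exact_mod_cast (hI p hp).one_lt.le
    have hp0 : (0 : ℝ) < p := by linarith
    have h2 := PushL.main hf P 0 X p (hI p hp)
    rw [Nat.zero_div] at h2
    have h2' : ‖D p‖ ≤ ‖W f (dil p P) 0 (X / p)‖ + 3 + 2 * ((X : ℝ) / (p * p)) := by
      rw [hD]
      exact h2
    have hpX : (p : ℝ) * p ≤ X := by
      have h3 : p * p ≤ X := by
        calc p * p ≤ B * B := Nat.mul_le_mul (hB p hp) (hB p hp)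
          _ = B ^ 2 := by ring
          _ ≤ X := hX2
      exact_mod_cast h3
    have h3 : (1 : ℝ) ≤ (X : ℝ) / (p * p) := by
      rw [le_div_iff₀ (by positivity)]
      linarith
    obtain ⟨w, hw⟩ : ∃ w, w = ‖W f (dil p P) 0 (X / p)‖ := ⟨_, rfl⟩
    have hw0 : 0 ≤ w := by rw [hw]; exact norm_nonneg _
    rw [← hw] at h2' ⊢
    have h4 : ‖D p‖ ≤ w + 5 * ((X : ℝ) / (p * p)) := by linarith
    rw [norm_mul, Complex.norm_natCast]
    have h5 : ‖D p‖ ^ 2 ≤ 2 * w ^ 2 + 50 * ((X : ℝ) / (p * p)) ^ 2 := by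
      have h6 : ‖D p‖ ^ 2 ≤ (w + 5 * ((X : ℝ) / (p * p))) ^ 2 := pow_le_pow_left₀ (norm_nonneg _) h4 2
      nlinarith [sq_nonneg (w - 5 * ((X : ℝ) / (p * p)))]
    calc (1 / (p : ℝ)) * ((p : ℝ) * ‖D p‖) ^ 2 = p * ‖D p‖ ^ 2 := by field_simp
      _ ≤ p * (2 * w ^ 2 + 50 * ((X : ℝ) / (p * p)) ^ 2) := mul_le_mul_of_nonneg_left h5 hp0.le
      _ = 2 * (p * w ^ 2) + 50 * (X : ℝ) ^ 2 * (1 / (p : ℝ) ^ 3) := by
          field_simp
      _ ≤ 2 * (p * w ^ 2) + 50 * (X : ℝ) ^ 2 * (1 / (p : ℝ) ^ 2) := by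
          have h6 : 1 / (p : ℝ) ^ 3 ≤ 1 / (p : ℝ) ^ 2 := by
            apply one_div_le_one_div_of_le (by positivity)
            exact pow_le_pow_right₀ hp1 (by norm_num)
          have h7 : (0 : ℝ) ≤ 50 * (X : ℝ) ^ 2 := by positivity
          nlinarith [mul_le_mul_of_nonneg_left h6 h7]
  have hZle : ∑ p ∈ I, 1 / (p : ℝ) ^ 2 ≤ Z := hsum.sum_le_tsum I (fun n _ => by positivity)
  have h3 : ∑ p ∈ I, (1 / (p : ℝ)) * ‖(p : ℂ) * D p‖ ^ 2 ≤ 4 * (X : ℝ) ^ 2 + 50 * (X : ℝ) ^ 2 * Z := by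
    refine (sum_le_sum hDp).trans ?_
    rw [sum_add_distrib, ← mul_sum, ← mul_sum]
    have h4 : 50 * (X : ℝ) ^ 2 * ∑ p ∈ I, 1 / (p : ℝ) ^ 2 ≤ 50 * (X : ℝ) ^ 2 * Z :=
      mul_le_mul_of_nonneg_left hZle (by positivity)
    linarith
  have h4 : (∑ p ∈ I, 1 / (p : ℝ)) * ‖A‖ ^ 2 ≤ (24 + 100 * Z) * (X : ℝ) ^ 2 := by
    have h5 : ∀ p ∈ I, (1 / (p : ℝ)) * ‖A‖ ^ 2 ≤
        2 * ((1 / (p : ℝ)) * ‖(p : ℂ) * D p - A‖ ^ 2) + 2 * ((1 / (p : ℝ)) * ‖(p : ℂ) * D p‖ ^ 2) := by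
      intro p _
      have h6 : ‖A‖ ≤ ‖(p : ℂ) * D p - A‖ + ‖(p : ℂ) * D p‖ := by
        have : A = (p : ℂ) * D p - ((p : ℂ) * D p - A) := by ring
        calc ‖A‖ = ‖(p : ℂ) * D p - ((p : ℂ) * D p - A)‖ := by rw [← this]
          _ ≤ ‖(p : ℂ) * D p‖ + ‖(p : ℂ) * D p - A‖ := norm_sub_le _ _
          _ = _ := add_comm _ _
      have h7 : ‖A‖ ^ 2 ≤ 2 * ‖(p : ℂ) * D p - A‖ ^ 2 + 2 * ‖(p : ℂ) * D p‖ ^ 2 := by
        have h8 : ‖A‖ ^ 2 ≤ (‖(p : ℂ) * D p - A‖ + ‖(p : ℂ) * D p‖) ^ 2 :=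
          pow_le_pow_left₀ (norm_nonneg _) h6 2
        nlinarith [sq_nonneg (‖(p : ℂ) * D p - A‖ - ‖(p : ℂ) * D p‖)]
      have h9 : (0 : ℝ) ≤ 1 / (p : ℝ) := by positivity
      nlinarith [mul_le_mul_of_nonneg_left h7 h9]
    rw [sum_mul]
    refine (sum_le_sum h5).trans ?_
    rw [sum_add_distrib, ← mul_sum, ← mul_sum]
    nlinarith
  -- the conclusion
  have hε2 : 0 < ε ^ 2 := by positivity
  have h5 : (24 + 100 * Z) ≤ (∑ p ∈ I, 1 / (p : ℝ)) * ε ^ 2 := (div_le_iff₀ hε2).1 hIA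
  have h6 : 0 < ∑ p ∈ I, 1 / (p : ℝ) := by
    by_contra hcon
    push Not at hcon
    have : (∑ p ∈ I, 1 / (p : ℝ)) * ε ^ 2 ≤ 0 := mul_nonpos_of_nonpos_of_nonneg hcon hε2.le
    linarith
  have h7 : (∑ p ∈ I, 1 / (p : ℝ)) * ‖A‖ ^ 2 ≤ (∑ p ∈ I, 1 / (p : ℝ)) * (ε * X) ^ 2 := by
    calc (∑ p ∈ I, 1 / (p : ℝ)) * ‖A‖ ^ 2 ≤ (24 + 100 * Z) * (X : ℝ) ^ 2 := h4
      _ ≤ ((∑ p ∈ I, 1 / (p : ℝ)) * ε ^ 2) * (X : ℝ) ^ 2 :=
          mul_le_mul_of_nonneg_right h5 (by positivity)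
      _ = _ := by ring
  have h8 : ‖A‖ ^ 2 ≤ (ε * X) ^ 2 := le_of_mul_le_mul_left h7 h6
  exact (pow_le_pow_iff_left₀ (norm_nonneg _) (by positivity) (by norm_num)).1 h8

/-- long sums with polynomial phases of degree at most `d` -/
def Long (f : ℕ → ℂ) (d : ℕ) : Prop :=
  ∀ ε : ℝ, 0 < ε → ∃ X₀ : ℕ, ∀ X ≥ X₀, ∀ P : ℝ[X], P.natDegree ≤ d → ‖W f P 0 X‖ ≤ ε * X

theorem W_add (f : ℕ → ℂ) (P : ℝ[X]) (n H H' : ℕ) : W f P n (H + H') = W f P n H + W f P (n + H) H' := by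
  unfold W
  rw [← sum_Ioc_consecutive _ (show n ≤ n + H by omega) (show n + H ≤ n + (H + H') by omega), add_assoc]

/-- windows in an initial interval -/
theorem Long.window {f : ℕ → ℂ} {d : ℕ} (hf : ∀ n, ‖f n‖ ≤ 1) (h : Long f d) {ε : ℝ} (hε : 0 < ε) :
    ∃ A : ℕ, ∀ (n H X : ℕ) (P : ℝ[X]), P.natDegree ≤ d → n + H ≤ X → ‖W f P n H‖ ≤ ε * X + A := by
  obtain ⟨X₀, h0⟩ := h (ε / 2) (by positivity)
  have h1 : ∀ (n X : ℕ) (P : ℝ[X]), P.natDegree ≤ d → n ≤ X → ‖W f P 0 n‖ ≤ ε / 2 * X + X₀ := by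
    intro n X P hP hn
    have hnX : (n : ℝ) ≤ X := by exact_mod_cast hn
    rcases Nat.lt_or_ge n X₀ with h2 | h2
    · have h3 := W_le hf P 0 n
      have h4 : (n : ℝ) ≤ X₀ := by exact_mod_cast h2.le
      have h5 : 0 ≤ ε / 2 * X := by positivity
      linarith
    · have h3 := h0 n h2 P hP
      have h4 : ε / 2 * n ≤ ε / 2 * X := mul_le_mul_of_nonneg_left hnX (by positivity)
      have h5 : (0 : ℝ) ≤ X₀ := Nat.cast_nonneg _
      linarith
  refine ⟨2 * X₀, fun n H X P hP hn => ?_⟩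
  have h2 := W_add f P 0 n H
  rw [Nat.zero_add] at h2
  have h3 : W f P n H = W f P 0 (n + H) - W f P 0 n := by rw [h2]; ring
  rw [h3]
  have h4 := norm_sub_le (W f P 0 (n + H)) (W f P 0 n)
  have h5 := h1 (n + H) X P hP hn
  have h6 := h1 n X P hP (by omega)
  push_cast
  linarith

/-- blocks -/
theorem W_blocks (f : ℕ → ℂ) (P : ℝ[X]) (L B : ℕ) :
    W f P 0 (B * L) = ∑ i ∈ range B, W f P (i * L) L := by
  induction B with
  | zero => simp [W]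
  | succ B ih =>
    rw [sum_range_succ, ← ih]
    have h := W_add f P 0 (B * L) L
    rw [Nat.zero_add] at h
    rw [← h]
    congr 1
    ring

/-- from degree `e` to degree `e + 1` -/
theorem long_step (hwr : S_WR) (htk : S_TK) {f : ℕ → ℂ} (hf : Mul1 f) {e : ℕ} (he : 1 ≤ e) (h : Long f e) :
    Long f (e + 1) := by
  intro ε hε
  obtain ⟨Q, C, X₀, hQ, hC, hls⟩ := ls_gen hwr htk (e + 1) (by omega) ε hε
  have hQ0 : (0 : ℝ) < Q := by exact_mod_cast hQ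
  -- the number of blocks
  obtain ⟨B, hB⟩ := exists_nat_ge (8 * Real.pi * C / ε + 1)
  have hpi := Real.pi_pos
  have hB1r : (1 : ℝ) ≤ B := by
    have : 0 ≤ 8 * Real.pi * C / ε := by positivity
    linarith
  have hB1 : 1 ≤ B := by exact_mod_cast hB1r
  have hB0 : (0 : ℝ) < B := by linarith
  have hBC : 2 * Real.pi * (C / (B : ℝ) ^ (e + 1)) ≤ ε / 4 := by
    have h1 : (B : ℝ) ≤ (B : ℝ) ^ (e + 1) := le_self_pow₀ hB1r (by omega)
    have h2 : C / (B : ℝ) ^ (e + 1) ≤ C / B := div_le_div_of_nonneg_left hC.le hB0 h1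
    have h3 : 2 * Real.pi * (C / B) ≤ ε / 4 := by
      have h4 : 8 * Real.pi * C / ε ≤ B := by linarith
      rw [div_le_iff₀ hε] at h4
      rw [mul_div_assoc', div_le_iff₀ hB0]
      linarith
    exact (mul_le_mul_of_nonneg_left h2 (by positivity)).trans h3
  obtain ⟨A, hA⟩ := h.window hf.1 (ε := ε / (4 * B * Q)) (by positivity)
  obtain ⟨X₁, hX₁⟩ := exists_nat_ge (4 * (B * Q * A + B) / ε)
  refine ⟨max X₀ X₁, fun X hX P hP => ?_⟩
  have hX0 : X₀ ≤ X := (le_max_left _ _).trans hX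
  have hX1 : (X₁ : ℝ) ≤ X := by exact_mod_cast (le_max_right _ _).trans hX
  by_cases hmin : ∀ q : ℕ, 1 ≤ q → q ≤ Q → ∀ a : ℤ, C / (X : ℝ) ^ (e + 1) < |q * P.coeff (e + 1) - a|
  · exact hls X hX0 f hf P hP hmin
  push Not at hmin
  obtain ⟨q, hq1, hqQ, a, ha⟩ := hmin
  have hq0 : (0 : ℝ) < q := by exact_mod_cast hq1
  have hqQ' : (q : ℝ) ≤ Q := by exact_mod_cast hqQ
  have hXr : (0 : ℝ) < X := by
    have h1 : 0 < 4 * ((B : ℝ) * Q * A + B) / ε := by positivity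
    linarith
  obtain ⟨L, hL⟩ : ∃ L : ℕ, L = X / B := ⟨_, rfl⟩
  have hLX : (L : ℝ) ≤ X / B := by rw [hL]; exact Nat.cast_div_le
  have hBLX : B * L ≤ X := by rw [hL]; exact Nat.mul_div_le X B
  have hrest : X - B * L ≤ B := by
    have h1 := Nat.div_add_mod X B
    have h2 := Nat.mod_lt X hB1
    rw [hL]
    omega
  -- one block
  have hblock : ∀ i ∈ range B, ‖W f P (i * L) L‖ ≤ Q * (ε / (4 * B * Q) * X + A) + ε / 4 * L := by
    intro i hi
    rw [mem_range] at hi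
    have h1 : |P.coeff (e + 1) - (a : ℝ) / q| ≤ C / (X : ℝ) ^ (e + 1) := by
      have h2 : P.coeff (e + 1) - a / q = (q * P.coeff (e + 1) - a) / q := by field_simp
      rw [h2, abs_div, abs_of_pos hq0]
      exact (div_le_self (abs_nonneg _) (by exact_mod_cast hq1)).trans ha
    have h2 : |P.coeff (e + 1) - (a : ℝ) / q| * (L : ℝ) ^ (e + 1) ≤ C / (B : ℝ) ^ (e + 1) := by
      have h3 : (L : ℝ) ^ (e + 1) ≤ (X / B) ^ (e + 1) := pow_le_pow_left₀ (Nat.cast_nonneg _) hLX _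
      calc |P.coeff (e + 1) - (a : ℝ) / q| * (L : ℝ) ^ (e + 1) ≤ C / (X : ℝ) ^ (e + 1) * (X / B) ^ (e + 1) :=
            mul_le_mul h1 h3 (by positivity) (by positivity)
        _ = C / (B : ℝ) ^ (e + 1) := by rw [div_pow]; field_simp
    have h3 := pert hf.1 (E := {(((a : ℝ) / q : ℝ) : UnitAddCircle)}) (K := L) (n := i * L) hP
      (Set.mem_singleton _) h2
    have h4 := red hf.1 he hq1 a (i * L) L
    have h5 : wSup e Set.univ f (i * L) L ≤ ε / (4 * B * Q) * X + A := by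
      refine wSup_le (by positivity) fun P' hP' _ => hA (i * L) L X P' hP' ?_
      have h6 : i * L + L ≤ B * L := by
        have h7 : (i + 1) * L ≤ B * L := Nat.mul_le_mul_right L hi
        linarith
      omega
    have h6 : (q : ℝ) * wSup e Set.univ f (i * L) L ≤ Q * (ε / (4 * B * Q) * X + A) :=
      mul_le_mul hqQ' h5 (wSup_nonneg _ _) hQ0.le
    have h7 : 2 * Real.pi * (C / (B : ℝ) ^ (e + 1)) * L ≤ ε / 4 * L :=
      mul_le_mul_of_nonneg_right hBC (Nat.cast_nonneg _)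
    linarith
  have h1 : W f P 0 X = W f P 0 (B * L) + W f P (0 + B * L) (X - B * L) := by
    rw [← W_add]
    congr 1
    omega
  have h2 : ‖W f P 0 (B * L)‖ ≤ B * (Q * (ε / (4 * B * Q) * X + A) + ε / 4 * L) := by
    rw [W_blocks]
    refine (norm_sum_le _ _).trans ((sum_le_card_nsmul _ _ _ hblock).trans (le_of_eq ?_))
    rw [card_range, nsmul_eq_mul]
  have h3 : ‖W f P (0 + B * L) (X - B * L)‖ ≤ B :=
    (W_le hf.1 P _ _).trans (by exact_mod_cast hrest)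
  have h4 : (B : ℝ) * (Q * (ε / (4 * B * Q) * X + A) + ε / 4 * L) =
      ε / 4 * X + B * Q * A + ε / 4 * (B * L) := by field_simp
  have h5 : (B : ℝ) * L ≤ X := by exact_mod_cast hBLX
  have h6 : ε / 4 * (B * L) ≤ ε / 4 * X := mul_le_mul_of_nonneg_left h5 (by positivity)
  have h7 : (B : ℝ) * Q * A + B ≤ ε / 4 * X := by
    have h8 := hX₁.trans hX1
    rw [div_le_iff₀ hε] at h8
    linarith
  rw [h1]
  refine (norm_add_le _ _).trans ?_
  have h8 : 0 ≤ ε * X := by positivity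
  linarith

theorem long_all (hwr : S_WR) (htk : S_TK) {f : ℕ → ℂ} (hf : Mul1 f) (h : Long f 1) (d : ℕ) : Long f d := by
  have h1 : ∀ e : ℕ, Long f (e + 1) := by
    intro e
    induction e with
    | zero => exact h
    | succ e ih => exact long_step hwr htk hf (by omega) ih
  intro ε hε
  obtain ⟨X₀, h2⟩ := h1 d ε hε
  exact ⟨X₀, fun X hX P hP => h2 X hX P (hP.trans (by omega))⟩

end Pool.Agent.K9h46.ZO
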