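import Pool.Agent.K9h46.ZO.UAvg
import Pool.Agent.TH823.MRS.Fun
import Pool.Agent.TH823.MRS.Circ2

/-!
# Leading coefficients of polynomial phases (helper46): the Moebius and the Liouville function, degree one
-/

set_option autoImplicit false

namespace Pool.Agent.K9h46.ZO

open Finset Polynomial MeasureTheory
open Pool.Agent.H807R2.Dav (ee norm_ee ee_add ee_int)
open Pool.Agent.Helper44K9.FU
open Pool.Agent.Helper44K9.FU.FL
open Pool.Agent.TH823.MRS (mob ExpoSmall expo_lam expo_mob win_l1 lam_sup mob_sup)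
open Pool.Agent.H373R2.T7 (SupSmall)
open Pool.Agent.H376R2.MR (lam)

/-- phases of degree one -/
theorem W_one (f : ℕ → ℂ) {P : ℝ[X]} (hP : P.natDegree ≤ 1) {α : ℝ}
    (hα : ((P.coeff 1 : ℝ) : UnitAddCircle) = (α : UnitAddCircle)) (n H : ℕ) :
    ‖W f P n H‖ = ‖∑ m ∈ Ioc n (n + H), f m * ee ((m : ℝ) * α)‖ := by
  obtain ⟨b, hb⟩ := lift_eq hα
  have h1 : W f P n H = ee (P.coeff 0) * ∑ m ∈ Ioc n (n + H), f m * ee ((m : ℝ) * α) := by
    unfold W
    rw [mul_sum]
    refine sum_congr rfl fun m _ => ?_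
    have h2 : P.eval (m : ℝ) = P.coeff 0 + (m : ℝ) * α + ((m * b : ℤ) : ℝ) := by
      have h3 : P = C (P.coeff 1) * X + C (P.coeff 0) := eq_X_add_C_of_natDegree_le_one hP
      conv_lhs => rw [h3]
      simp only [eval_add, eval_mul, eval_C, eval_X, hb]
      push_cast
      ring
    rw [h2, Pool.Agent.H807R2.Dav.ee_add_int, ee_add]
    ring
  rw [h1, norm_mul, norm_ee, one_mul]

theorem long_one {f : ℕ → ℂ} (hsup : SupSmall f) : Long f 1 := by
  intro ε hε
  obtain ⟨N₀, h⟩ := hsup 1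
  obtain ⟨X₁, hX₁⟩ := exists_nat_ge (Real.exp (1 / ε))
  refine ⟨max N₀ (X₁ + 1), fun X hX P hP => ?_⟩
  have hX0 : N₀ ≤ X := (le_max_left _ _).trans hX
  have hX1 : X₁ + 1 ≤ X := (le_max_right _ _).trans hX
  have hXr : (0 : ℝ) < X := by exact_mod_cast (by omega : 0 < X)
  rw [W_one f hP (α := P.coeff 1) rfl]
  have h1 := h X hX0 (P.coeff 1)
  have h2 : Ioc 0 (0 + X) = Icc 1 X := by
    ext m
    simp only [mem_Ioc, mem_Icc]
    omega
  rw [h2]
  refine h1.trans ?_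
  have h3 : 1 / ε ≤ Real.log X := by
    rw [Real.le_log_iff_exp_le hXr]
    exact hX₁.trans (by exact_mod_cast (by omega : X₁ ≤ X))
  have h4 : 0 < 1 / ε := by positivity
  have h5 : 0 < Real.log X := by linarith
  rw [pow_one, div_le_iff₀ h5]
  rw [div_le_iff₀ hε] at h3
  nlinarith

/-- partial summation -/
theorem abel (a : ℕ → ℝ) {c : ℝ} {H : ℕ} (hH : 1 ≤ H) (ha : ∀ n, 0 ≤ a n)
    (h : ∀ Y, H ≤ Y → ∑ n ∈ Icc 1 Y, a n ≤ c * Y) (N : ℕ) (hN : H ≤ N) :
    ∑ n ∈ Ioc H N, (1 / (n : ℝ)) * a n ≤ (1 / (N : ℝ)) * ∑ n ∈ Icc 1 N, a n + c * ∑ n ∈ Ioc H N, 1 / (n : ℝ) := by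
  induction N, hN using Nat.le_induction with
  | base =>
    rw [Ioc_self, sum_empty, sum_empty, mul_zero, add_zero]
    exact mul_nonneg (by positivity) (sum_nonneg fun n _ => ha n)
  | succ N hN ih =>
    have hN0 : (0 : ℝ) < N := by exact_mod_cast (by omega : 0 < N)
    have e1 : Ioc H (N + 1) = insert (N + 1) (Ioc H N) := by
      ext m
      simp only [mem_Ioc, mem_insert]
      omega
    have e2 : Icc 1 (N + 1) = insert (N + 1) (Icc 1 N) := by
      ext m
      simp only [mem_Icc, mem_insert]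
      omega
    rw [e1, e2, sum_insert (by simp), sum_insert (by simp), sum_insert (by simp)]
    have h1 := h N hN
    set S : ℝ := ∑ n ∈ Icc 1 N, a n with hS
    have h2 : (1 / (N : ℝ)) * S = (1 / (((N + 1 : ℕ)) : ℝ)) * S + (1 / (N : ℝ)) * (S / (N + 1)) := by
      push_cast; field_simp
    have h3 : (1 / (N : ℝ)) * (S / (N + 1)) ≤ c * (1 / (((N + 1 : ℕ)) : ℝ)) := by
      have h4 : (1 / (N : ℝ)) * (S / (N + 1)) ≤ (1 / (N : ℝ)) * (c * N / (N + 1)) :=
        mul_le_mul_of_nonneg_left (div_le_div_of_nonneg_right h1 (by positivity)) (by positivity)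
      refine h4.trans (le_of_eq ?_)
      push_cast; field_simp
    change 1 / (((N + 1 : ℕ)) : ℝ) * a (N + 1) + _ ≤ (1 / (((N + 1 : ℕ)) : ℝ)) * (a (N + 1) + S) +
      c * (1 / (((N + 1 : ℕ)) : ℝ) + _)
    rw [mul_add, mul_add]
    linarith

/-- rational numbers, degree one -/
theorem base {f : ℕ → ℂ} (hf : ∀ n, ‖f n‖ ≤ 1) (hE : ExpoSmall f) (hlong : Long f 1) (α : ℝ) :
    UnifU f 1 {(α : UnitAddCircle)} := by
  intro ε hε
  set δ : ℝ := ε / 9 with hδ
  have hδ0 : 0 < δ := by positivity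
  obtain ⟨W₀, X₀, hW⟩ := win_l1 f hE δ hδ0
  obtain ⟨H₁, hH₁⟩ := small_part hf hlong {(α : UnitAddCircle)} hδ0 1
  refine ⟨W₀ + X₀ + H₁ + 3, fun H N hH hHN => ?_⟩
  have hH1 : 1 ≤ H := by omega
  have hH0 : (0 : ℝ) < H := by exact_mod_cast hH1
  obtain ⟨a, ha⟩ : ∃ a : ℕ → ℝ, a = fun n => wSup 1 {(α : UnitAddCircle)} f n H := ⟨_, rfl⟩
  have ha0 : ∀ n, 0 ≤ a n := fun n => by rw [ha]; exact wSup_nonneg n H
  have hS : ∀ Y, H ≤ Y → ∑ n ∈ Icc 1 Y, a n ≤ δ * H * Y := by
    intro Y hY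
    refine le_trans ?_ (hW Y (by omega) H (by omega) hY α)
    have h1 : ∀ n ∈ Icc 1 Y, a n ≤
        ‖∑ m ∈ Icc 1 (3 * Y), if m ≤ (n + H) ∧ (n + H) < m + H then f m * ee ((m : ℝ) * α) else 0‖ := by
      intro n hn
      rw [mem_Icc] at hn
      have h2 : ∑ m ∈ Icc 1 (3 * Y), (if m ≤ (n + H) ∧ (n + H) < m + H then f m * ee ((m : ℝ) * α) else 0) =
          ∑ m ∈ Ioc n (n + H), f m * ee ((m : ℝ) * α) := by
        rw [← sum_filter]
        refine sum_congr ?_ fun _ _ => rfl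
        ext m
        rw [mem_filter, mem_Icc, mem_Ioc]
        omega
      rw [h2, ha]
      refine wSup_le (norm_nonneg _) fun P hP hPE => ?_
      rw [W_one f hP (Set.mem_singleton_iff.1 hPE)]
    refine (sum_le_sum h1).trans ?_
    rw [← sum_image (f := fun z => ‖∑ m ∈ Icc 1 (3 * Y), if m ≤ z ∧ z < m + H then f m * ee ((m : ℝ) * α) else 0‖)
      (g := fun n => n + H) (fun x _ y _ h => by simpa using h)]
    refine sum_le_sum_of_subset_of_nonneg ?_ fun z _ _ => norm_nonneg _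
    intro z hz
    rw [mem_image] at hz
    obtain ⟨n, hn, rfl⟩ := hz
    rw [mem_Icc] at hn
    rw [mem_range]
    omega
  have hN3 : (3 : ℝ) ≤ N := by exact_mod_cast (by omega : 3 ≤ N)
  have hN0 : (0 : ℝ) < N := by linarith
  have hlog1 : 1 ≤ Real.log N := by
    rw [Real.le_log_iff_exp_le hN0]
    have := Real.exp_one_lt_d9
    linarith
  have hhs0 := hs_nonneg N
  have hhs := hs_le N
  have h1 : ∑ n ∈ Icc 1 H, (1 / (n : ℝ)) * a n ≤ δ * H * hs N := by
    have h2 : ∑ n ∈ Icc 1 H, (1 / (n : ℝ)) * a n ≤ ∑ n ∈ Icc 1 H, (δ * H) * (1 / (n : ℝ)) := by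
      refine sum_le_sum fun n hn => ?_
      rw [mem_Icc] at hn
      rw [mul_comm]
      refine mul_le_mul_of_nonneg_right ?_ (by positivity)
      rw [ha]
      exact hH₁ H n (by omega) (by omega)
    refine h2.trans ?_
    rw [← mul_sum]
    refine mul_le_mul_of_nonneg_left ?_ (by positivity)
    exact sum_le_sum_of_subset_of_nonneg (Icc_subset_Icc le_rfl hHN) fun n _ _ => by positivity
  have h2 := abel a hH1 ha0 hS N hHN
  have h3 : (1 / (N : ℝ)) * ∑ n ∈ Icc 1 N, a n ≤ δ * H := by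
    have h4 := mul_le_mul_of_nonneg_left (hS N hHN) (show 0 ≤ 1 / (N : ℝ) by positivity)
    refine h4.trans (le_of_eq ?_)
    field_simp
  have h4 : ∑ n ∈ Ioc H N, 1 / (n : ℝ) ≤ hs N := by
    refine sum_le_sum_of_subset_of_nonneg ?_ fun n _ _ => by positivity
    intro n hn
    rw [mem_Ioc] at hn
    rw [mem_Icc]
    omega
  have h5 : δ * H * ∑ n ∈ Ioc H N, 1 / (n : ℝ) ≤ δ * H * hs N := mul_le_mul_of_nonneg_left h4 (by positivity)
  have h6 : ∑ n ∈ Icc 1 N, (1 / (n : ℝ)) * a n =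
      ∑ n ∈ Icc 1 H, (1 / (n : ℝ)) * a n + ∑ n ∈ Ioc H N, (1 / (n : ℝ)) * a n := by
    rw [← sum_union]
    · congr 1
      ext m
      simp only [mem_Icc, mem_union, mem_Ioc]
      omega
    · rw [Finset.disjoint_left]
      intro m h3 h4
      rw [mem_Icc] at h3
      rw [mem_Ioc] at h4
      omega
  have h7 : ∑ n ∈ Icc 1 N, (1 / (n : ℝ)) * wSup 1 {(α : UnitAddCircle)} f n H = ∑ n ∈ Icc 1 N, (1 / (n : ℝ)) * a n := by
    rw [ha]
  rw [h7, h6]
  have hδH : 0 < δ * H := by positivity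
  have h8 : δ * H * hs N ≤ δ * H * (1 + Real.log N) := mul_le_mul_of_nonneg_left hhs hδH.le
  have h9 : δ * H * 1 ≤ δ * H * Real.log N := mul_le_mul_of_nonneg_left hlog1 hδH.le
  have h10 : ε * H * Real.log N = 9 * (δ * H * Real.log N) := by rw [hδ]; ring
  rw [h10]
  nlinarith

theorem mul1_mob : Mul1 (fun n => (mob n : ℂ)) := by
  refine ⟨fun n => ?_, fun a b hab => ?_⟩
  · have h1 : |mob n| ≤ 1 := Pool.Agent.TH823.MRS.mob_bdd n
    rw [Complex.norm_intCast]
    exact_mod_cast h1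
  · have h1 : mob (a * b) = mob a * mob b := by
      unfold mob
      exact ArithmeticFunction.isMultiplicative_moebius.map_mul_of_coprime hab
    show (mob (a * b) : ℂ) = (mob a : ℂ) * (mob b : ℂ)
    rw [h1]
    push_cast
    rfl

theorem mul1_lam : Mul1 (fun n => (lam n : ℂ)) := by
  refine ⟨fun n => ?_, fun a b hab => ?_⟩
  · have h1 : |lam n| ≤ 1 := Pool.Agent.TH823.MRS.lam_bdd n
    rw [Complex.norm_intCast]
    exact_mod_cast h1
  · have h1 : lam (a * b) = lam a * lam b := by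
      rcases Nat.eq_zero_or_pos a with rfl | ha
      · have hb : b = 1 := by simpa using hab
        subst hb
        unfold lam
        simp
      rcases Nat.eq_zero_or_pos b with rfl | hb
      · have ha1 : a = 1 := by simpa using hab
        subst ha1
        unfold lam
        simp
      unfold lam
      rw [ArithmeticFunction.cardFactors_mul ha.ne' hb.ne', pow_add]
    show (lam (a * b) : ℂ) = (lam a : ℂ) * (lam b : ℂ)
    rw [h1]
    push_cast
    rfl

/-- the two functions -/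
def ML (f : ℕ → ℂ) : Prop := f = (fun n => (mob n : ℂ)) ∨ f = fun n => (lam n : ℂ)

theorem ML.mul {f : ℕ → ℂ} (h : ML f) : Mul1 f := by
  rcases h with rfl | rfl
  · exact mul1_mob
  · exact mul1_lam

theorem ML.long1 {f : ℕ → ℂ} (h : ML f) : Long f 1 := by
  rcases h with rfl | rfl
  · exact long_one mob_sup
  · exact long_one lam_sup

theorem ML.expo {f : ℕ → ℂ} (h : ML f) : ExpoSmall f := by
  rcases h with rfl | rfl
  · exact fun ε hε A hA => expo_mob ε hε A hA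
  · exact fun ε hε A hA => expo_lam ε hε A hA

theorem ML.base {f : ℕ → ℂ} (h : ML f) (α : ℝ) : UnifU f 1 {(α : UnitAddCircle)} :=
  Pool.Agent.K9h46.ZO.base h.mul.1 h.expo h.long1 α

end Pool.Agent.K9h46.ZO
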