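import Pool.Agent.K9h46.ZO.Nav

/-!
# Natural averages (helper46): one set of frequencies controls all
-/

set_option autoImplicit false

namespace Pool.Agent.K9h46.ZO

open Finset Polynomial MeasureTheory
open Pool.Agent.H807R2.Dav (ee norm_ee ee_add)
open Pool.Agent.Helper44K9.FU
open Pool.Agent.Helper44K9.FU.FL
open Pool.Agent.TH823.MRS (mob ExpoSmall expo_lam expo_mob win_l1 lam_sup mob_sup)
open Pool.Agent.H376R2.MR (lam)

theorem UB.mul_up {g : ℕ → ℝ} (hg : ∀ n, 0 ≤ g n ∧ g n ≤ 1) {v B : ℝ} (hv : 0 ≤ v) (h : UB (fun n => v * g n) B) :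
    v * up g ≤ B := by
  rcases hv.eq_or_lt with h0 | hpos
  · rw [← h0, zero_mul]
    have h1 := up_le (g := fun _ => (0 : ℝ)) (fun _ => ⟨le_rfl, zero_le_one⟩) (B := B)
      (h.mono (fun n => by rw [← h0, zero_mul]) le_rfl)
    exact (up_nonneg (g := fun _ => (0 : ℝ)) fun _ => ⟨le_rfl, zero_le_one⟩).trans h1
  · have h1 := h.smul (c := 1 / v) (by positivity)
    have h2 := up_le hg (h1.mono (fun n => by
      rw [← mul_assoc, one_div_mul_cancel hpos.ne', one_mul]) le_rfl)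
    have h3 := mul_le_mul_of_nonneg_left h2 hv
    rwa [← mul_assoc, mul_one_div_cancel hpos.ne', one_mul] at h3

/-- the mean of the pointwise inequality -/
theorem nat_main {f : ℕ → ℂ} (hf : Mul1 f) {d : ℕ} (hd : 1 ≤ d) {r : ℕ} (hr : 1 ≤ r)
    (E : Set UnitAddCircle) {K : ℕ} (hK : 1 ≤ K) {ε : ℝ} (hε : 0 < ε) :
    ∃ Q : ℕ, ∀ H' : ℕ, 1 ≤ H' → ∃ H₀ : ℕ, ∀ H : ℕ, H₀ ≤ H → ∀ B B' : ℝ,
      UB (fun n => (wSup d E f n K / K) ^ r) B → UB (fun n => wSup d (frac Q) f n H' / H') B' →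
      UB (fun n => (volume (closure E)).toReal * (wSup d Set.univ f n H / H) ^ r) (B + B' + ε) := by
  obtain ⟨Q, hQ⟩ := pt_pow pw (push tk) hf hd hr E hK hε
  refine ⟨Q, fun H' hH' => ?_⟩
  obtain ⟨I, hI, hI0, H₀, hH₀⟩ := hQ H' hH'
  refine ⟨H₀ + 1, fun H hH B B' hB hB' => ?_⟩
  obtain ⟨hHp, hpt⟩ := hH₀ H (by omega)
  have hb : ∀ (F : Set UnitAddCircle) (m L : ℕ), 0 ≤ (wSup d F f m L / L) ^ r := fun F m L =>
    pow_nonneg (wSup_div hf.1 d F m L).1 r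
  have h1 : UB (fun n => (1 / ∑ p ∈ I, wt p) * ∑ p ∈ I, wt p *
          ((1 / ((H / p : ℕ) : ℝ)) * ∑ i ∈ range (H / p), (wSup d E f (n / p + i) K / K) ^ r)) B :=
    UB.wavg (fun p hp => (hI p hp).2) hI0
      (fun p n => (1 / ((H / p : ℕ) : ℝ)) * ∑ i ∈ range (H / p), (wSup d E f (n / p + i) K / K) ^ r)
      fun p hp => (hB.win (fun n => hb E n K) (hHp p hp)).dil
        (fun n => mul_nonneg (by positivity) (sum_nonneg fun i _ => hb E _ K)) (hI p hp).1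
  have h2 : UB (fun n => (1 / (H : ℝ)) * ∑ i ∈ range H, wSup d (frac Q) f (n + i) H' / H') B' :=
    hB'.win (fun n => (wSup_div hf.1 d (frac Q) n H').1) (by omega)
  exact ((h1.add h2).add (UB.const ε)).mono hpt le_rfl

/-- rational frequencies, natural averages -/
theorem base_nat {f : ℕ → ℂ} (hf : ∀ n, ‖f n‖ ≤ 1) (hE : ExpoSmall f) (α : ℝ) {δ : ℝ} (hδ0 : 0 < δ) :
    ∃ H₁ : ℕ, ∀ H : ℕ, H₁ ≤ H → UB (fun n => wSup 1 {(α : UnitAddCircle)} f n H / H) δ := by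
  obtain ⟨W₀, X₀, hW⟩ := win_l1 f hE δ hδ0
  refine ⟨W₀ + X₀ + 1, fun H hH => ?_⟩
  have hH1 : 1 ≤ H := by omega
  have hH0 : (0 : ℝ) < H := by exact_mod_cast hH1
  obtain ⟨a, ha⟩ : ∃ a : ℕ → ℝ, a = fun n => wSup 1 {(α : UnitAddCircle)} f n H := ⟨_, rfl⟩
  have ha0 : ∀ n, 0 ≤ a n := fun n => by rw [ha]; exact wSup_nonneg n H
  have hS : ∀ Y, H ≤ Y → ∑ n ∈ Icc 1 Y, a n ≤ δ * H * Y := by
    intro Y hY
    refine le_trans ?_ (hW Y (by omega) H (by omega) hY α)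
    have h1 : ∀ n ∈ Icc 1 Y, a n ≤
        ‖∑ m ∈ Icc 1 (3 * Y), if m ≤ (n + H) ∧ (n + H) < m + H then f m * ee ((m : ℝ) * α) else 0‖ := by
      intro n hn
      rw [mem_Icc] at hn
      have h2 : ∑ m ∈ Icc 1 (3 * Y), (if m ≤ (n + H) ∧ (n + H) < m + H then f m * ee ((m : ℝ) * α) else 0) =
          ∑ m ∈ Ioc n (n + H), f m * ee ((m : ℝ) * α) := by
        rw [← sum_filter]
        refine sum_congr ?_ fun _ _ => rfl
        ext m
        rw [mem_filter, mem_Icc, mem_Ioc]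
        omega
      rw [h2, ha]
      refine wSup_le (norm_nonneg _) fun P hP hPE => ?_
      rw [W_one f hP (Set.mem_singleton_iff.1 hPE)]
    refine (sum_le_sum h1).trans ?_
    rw [← sum_image (f := fun z => ‖∑ m ∈ Icc 1 (3 * Y), if m ≤ z ∧ z < m + H then f m * ee ((m : ℝ) * α) else 0‖)
      (g := fun n => n + H) (fun x _ y _ h => by simpa using h)]
    refine sum_le_sum_of_subset_of_nonneg ?_ fun z _ _ => norm_nonneg _
    intro z hz
    rw [mem_image] at hz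
    obtain ⟨n, hn, rfl⟩ := hz
    rw [mem_Icc] at hn
    rw [mem_range]
    omega
  intro ε hε
  obtain ⟨N₁, hN₁⟩ := exists_nat_ge (1 / ε)
  refine ⟨H + N₁, fun N hN => ?_⟩
  have h1 : ∑ n ∈ range N, wSup 1 {(α : UnitAddCircle)} f n H / H = (∑ n ∈ range N, a n) / H := by
    rw [sum_div, ha]
  rw [h1, div_le_iff₀ hH0]
  have h2 : ∑ n ∈ range N, a n ≤ a 0 + ∑ n ∈ Icc 1 N, a n := by
    have h3 : range N ⊆ insert 0 (Icc 1 N) := by
      intro m hm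
      rw [mem_range] at hm
      rw [mem_insert, mem_Icc]
      omega
    refine (sum_le_sum_of_subset_of_nonneg h3 fun n _ _ => ha0 n).trans ?_
    rw [sum_insert (by simp)]
  have h3 : a 0 ≤ H := by
    have h4 := (wSup_div hf 1 {(α : UnitAddCircle)} 0 H).2
    rw [div_le_one hH0] at h4
    rw [ha]
    exact h4
  have h4 := hS N (by omega)
  have h5 : 1 ≤ ε * N := by
    have h6 : (N₁ : ℝ) ≤ N := by exact_mod_cast (by omega : N₁ ≤ N)
    rw [div_le_iff₀ hε] at hN₁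
    nlinarith
  have h6 : (H : ℝ) * 1 ≤ H * (ε * N) := mul_le_mul_of_nonneg_left h5 hH0.le
  have h7 : (δ + ε) * N * H = δ * H * N + H * (ε * N) := by ring
  rw [h7]
  linarith

theorem frac_nat {f : ℕ → ℂ} (hf : ∀ n, ‖f n‖ ≤ 1) (hE : ExpoSmall f) (Q : ℕ) {δ : ℝ} (hδ0 : 0 < δ) :
    ∃ H₁ : ℕ, ∀ H : ℕ, H₁ ≤ H → UB (fun n => wSup 1 (frac Q) f n H / H) δ := by
  classical
  set c : ℝ := ((frac Q).card : ℝ) + 1 with hc
  have hc0 : 0 < c := by positivity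
  have h1 : ∀ x : UnitAddCircle, ∃ H₁ : ℕ, x ∈ frac Q → ∀ H : ℕ, H₁ ≤ H →
      UB (fun n => wSup 1 {x} f n H / H) (δ / c) := by
    intro x
    by_cases hx : x ∈ frac Q
    · obtain ⟨q, a, hq, rfl⟩ := frac_rat hx
      obtain ⟨H₁, h⟩ := base_nat hf hE ((a : ℝ) / q) (δ := δ / c) (by positivity)
      exact ⟨H₁, fun _ => h⟩
    · exact ⟨0, fun h => absurd h hx⟩
  choose H₁ hH₁ using h1
  refine ⟨∑ x ∈ frac Q, H₁ x, fun H hH => ?_⟩
  have h2 := UB.sum (frac Q) (fun x n => wSup 1 {x} f n H / H) (fun _ => δ / c) fun x hx =>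
    hH₁ x hx H ((single_le_sum (f := H₁) (fun _ _ => Nat.zero_le _) hx).trans hH)
  refine h2.mono (fun n => ?_) ?_
  · rw [← sum_div]
    exact div_le_div_of_nonneg_right (wSup_fin hf (frac Q) 1 n H) (Nat.cast_nonneg _)
  · rw [sum_const, nsmul_eq_mul, mul_div_assoc', div_le_iff₀ hc0, hc]
    nlinarith

/-- **One set of frequencies controls all, natural averages, all moments.** -/
theorem nat_one {f : ℕ → ℂ} (hf : ML f) {r : ℕ} (hr : 1 ≤ r) (E : Set UnitAddCircle) {K : ℕ} (hK : 1 ≤ K)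
    {ε : ℝ} (hε : 0 < ε) : ∃ H₀ : ℕ, ∀ H : ℕ, H₀ ≤ H →
      (volume (closure E)).toReal * up (fun n => (wSup 1 Set.univ f n H / H) ^ r) ≤
        up (fun n => (wSup 1 E f n K / K) ^ r) + ε := by
  have hb : ∀ (F : Set UnitAddCircle) (L : ℕ), ∀ m, 0 ≤ (wSup 1 F f m L / L) ^ r ∧ (wSup 1 F f m L / L) ^ r ≤ 1 :=
    fun F L m => ⟨pow_nonneg (wSup_div hf.mul.1 1 F m L).1 r,
      pow_le_one₀ (wSup_div hf.mul.1 1 F m L).1 (wSup_div hf.mul.1 1 F m L).2⟩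
  obtain ⟨Q, hQ⟩ := nat_main hf.mul le_rfl hr E hK (ε := ε / 2) (by positivity)
  obtain ⟨H₁, hH₁⟩ := frac_nat hf.mul.1 hf.expo Q (δ := ε / 2) (by positivity)
  obtain ⟨H₀, hH₀⟩ := hQ (H₁ + 1) (by omega)
  refine ⟨H₀, fun H hH => ?_⟩
  have h1 := hH₀ H hH _ _ (ub_up (hb E K)) (hH₁ (H₁ + 1) (by omega))
  have h2 := UB.mul_up (hb Set.univ H) ENNReal.toReal_nonneg h1
  linarith

end Pool.Agent.K9h46.ZO
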