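import Mathlib

/-!
# Upper means (helper46)
-/

set_option autoImplicit false

namespace Pool.Agent.K9h46.ZO

open Finset Filter

/-- the upper mean of `g` is at most `B` -/
def UB (g : ℕ → ℝ) (B : ℝ) : Prop :=
  ∀ ε : ℝ, 0 < ε → ∃ N₀ : ℕ, ∀ N : ℕ, N₀ ≤ N → ∑ n ∈ range N, g n ≤ (B + ε) * N

theorem UB.mono {g g' : ℕ → ℝ} {B B' : ℝ} (h : UB g' B') (hg : ∀ n, g n ≤ g' n) (hB : B' ≤ B) : UB g B := by
  intro ε hε
  obtain ⟨N₀, h0⟩ := h ε hε
  refine ⟨N₀, fun N hN => (sum_le_sum fun n _ => hg n).trans ((h0 N hN).trans ?_)⟩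
  exact mul_le_mul_of_nonneg_right (by linarith) (Nat.cast_nonneg N)

theorem UB.const (c : ℝ) : UB (fun _ => c) c := by
  intro ε hε
  refine ⟨0, fun N _ => ?_⟩
  rw [sum_const, card_range, nsmul_eq_mul, mul_comm]
  exact mul_le_mul_of_nonneg_right (by linarith) (Nat.cast_nonneg N)

theorem UB.add {g g' : ℕ → ℝ} {B B' : ℝ} (h : UB g B) (h' : UB g' B') : UB (fun n => g n + g' n) (B + B') := by
  intro ε hε
  obtain ⟨N₀, h0⟩ := h (ε / 2) (by positivity)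
  obtain ⟨N₁, h1⟩ := h' (ε / 2) (by positivity)
  refine ⟨N₀ + N₁, fun N hN => ?_⟩
  rw [sum_add_distrib]
  have := h0 N (by omega)
  have := h1 N (by omega)
  linarith

theorem UB.smul {g : ℕ → ℝ} {B c : ℝ} (hc : 0 ≤ c) (h : UB g B) : UB (fun n => c * g n) (c * B) := by
  intro ε hε
  obtain ⟨N₀, h0⟩ := h (ε / (c + 1)) (by positivity)
  refine ⟨N₀, fun N hN => ?_⟩
  rw [← mul_sum]
  have h1 := mul_le_mul_of_nonneg_left (h0 N hN) hc
  refine h1.trans ?_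
  rw [← mul_assoc]
  refine mul_le_mul_of_nonneg_right ?_ (Nat.cast_nonneg N)
  have h2 : c * (ε / (c + 1)) ≤ ε := by
    rw [mul_div_assoc', div_le_iff₀ (by positivity)]
    nlinarith
  linarith

theorem UB.sum {ι : Type*} (s : Finset ι) (g : ι → ℕ → ℝ) (B : ι → ℝ) (h : ∀ i ∈ s, UB (g i) (B i)) :
    UB (fun n => ∑ i ∈ s, g i n) (∑ i ∈ s, B i) := by
  classical
  induction s using Finset.induction_on with
  | empty => simpa using UB.const 0
  | insert a s ha ih =>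
    have h1 := (h a (mem_insert_self a s)).add (ih fun i hi => h i (mem_insert_of_mem hi))
    refine h1.mono (fun n => ?_) ?_
    · rw [sum_insert ha]
    · rw [sum_insert ha]

theorem UB.shift {g : ℕ → ℝ} {B : ℝ} (hg : ∀ n, 0 ≤ g n) (h : UB g B) (i : ℕ) : UB (fun n => g (n + i)) B := by
  intro ε hε
  obtain ⟨N₀, h0⟩ := h (ε / 2) (by positivity)
  obtain ⟨N₁, h1⟩ := exists_nat_ge (|B + ε / 2| * i / (ε / 2))
  refine ⟨N₀ + N₁, fun N hN => ?_⟩
  have h2 : ∑ n ∈ range N, g (n + i) ≤ ∑ n ∈ range (i + N), g n := by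
    rw [Finset.sum_range_add]
    have : 0 ≤ ∑ n ∈ range i, g n := sum_nonneg fun n _ => hg n
    have h3 : ∑ n ∈ range N, g (n + i) = ∑ n ∈ range N, g (i + n) := sum_congr rfl fun n _ => by rw [add_comm]
    linarith
  refine h2.trans ((h0 (i + N) (by omega)).trans ?_)
  have h3 : |B + ε / 2| * i ≤ ε / 2 * N := by
    rw [div_le_iff₀ (by positivity)] at h1
    have h4 : (N₁ : ℝ) ≤ N := by exact_mod_cast (by omega : N₁ ≤ N)
    nlinarith
  have h4 : (B + ε / 2) * i ≤ |B + ε / 2| * i := mul_le_mul_of_nonneg_right (le_abs_self _) (Nat.cast_nonneg i)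
  push_cast
  linarith

theorem UB.win {g : ℕ → ℝ} {B : ℝ} (hg : ∀ n, 0 ≤ g n) (h : UB g B) {H : ℕ} (hH : 1 ≤ H) :
    UB (fun n => (1 / (H : ℝ)) * ∑ i ∈ range H, g (n + i)) B := by
  have hH0 : (0 : ℝ) < H := by exact_mod_cast hH
  have h1 := (UB.sum (range H) (fun i n => g (n + i)) (fun _ => B) fun i _ => h.shift hg i).smul
    (c := 1 / (H : ℝ)) (by positivity)
  refine h1.mono (fun n => le_rfl) (le_of_eq ?_)
  rw [sum_const, card_range, nsmul_eq_mul]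
  field_simp

theorem sum_div_eq (F : ℕ → ℝ) {p : ℕ} (hp : 1 ≤ p) (k : ℕ) :
    ∑ n ∈ range (p * k), F (n / p) = p * ∑ m ∈ range k, F m := by
  induction k with
  | zero => simp
  | succ k ih =>
    rw [mul_add, mul_one, Finset.sum_range_add, ih, sum_range_succ, mul_add]
    congr 1
    rw [← nsmul_eq_mul, ← card_range p, ← sum_const, card_range]
    refine sum_congr rfl fun x hx => ?_
    rw [mem_range] at hx
    rw [Nat.mul_add_div (by omega), Nat.div_eq_of_lt hx, add_zero]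

theorem UB.dil {g : ℕ → ℝ} {B : ℝ} (hg : ∀ n, 0 ≤ g n) (h : UB g B) {p : ℕ} (hp : 1 ≤ p) :
    UB (fun n => g (n / p)) B := by
  intro ε hε
  have hp0 : (0 : ℝ) < p := by exact_mod_cast hp
  obtain ⟨N₀, h0⟩ := h (ε / 2) (by positivity)
  obtain ⟨N₁, h1⟩ := exists_nat_ge (|B + ε / 2| * p / (ε / 2))
  refine ⟨p * N₀ + N₁, fun N hN => ?_⟩
  have hdm := Nat.div_add_mod N p
  have hml := Nat.mod_lt N (by omega : p > 0)
  have hNp : N₀ ≤ N / p := by
    rw [Nat.le_div_iff_mul_le (by omega), mul_comm]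
    omega
  have h2 : ∑ n ∈ range N, g (n / p) ≤ ∑ n ∈ range (p * (N / p + 1)), g (n / p) := by
    refine sum_le_sum_of_subset_of_nonneg ?_ fun n _ _ => hg _
    refine range_subset_range.2 ?_
    rw [mul_add, mul_one]
    omega
  rw [sum_div_eq g hp] at h2
  have h3 := mul_le_mul_of_nonneg_left (h0 (N / p + 1) (by omega)) hp0.le
  refine h2.trans (h3.trans ?_)
  have h4 : |B + ε / 2| * p ≤ ε / 2 * N := by
    rw [div_le_iff₀ (by positivity)] at h1
    have h5 : (N₁ : ℝ) ≤ N := by exact_mod_cast (by omega : N₁ ≤ N)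
    nlinarith
  have hB : 0 ≤ B + ε / 2 := by
    have h5 := h0 (N₀ + 1) (by omega)
    have h6 : 0 ≤ ∑ n ∈ range (N₀ + 1), g n := sum_nonneg fun n _ => hg n
    have h7 : (0 : ℝ) < ((N₀ + 1 : ℕ) : ℝ) := by positivity
    by_contra hcon
    push Not at hcon
    have := mul_neg_of_neg_of_pos hcon h7
    linarith
  have h5 : (p : ℝ) * ((N / p + 1 : ℕ) : ℝ) ≤ N + p := by
    have : p * (N / p + 1) ≤ N + p := by rw [mul_add, mul_one]; omega
    exact_mod_cast this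
  have h6 : (p : ℝ) * ((B + ε / 2) * ((N / p + 1 : ℕ) : ℝ)) ≤ (B + ε / 2) * (N + p) := by
    have := mul_le_mul_of_nonneg_left h5 hB
    linarith
  refine h6.trans ?_
  have h7 : (B + ε / 2) * p ≤ |B + ε / 2| * p := mul_le_mul_of_nonneg_right (le_abs_self _) hp0.le
  linarith

theorem UB.wavg {I : Finset ℕ} {w : ℕ → ℝ} (hw : ∀ p ∈ I, 0 ≤ w p) (hW : 0 < ∑ p ∈ I, w p) (g : ℕ → ℕ → ℝ) {B : ℝ}
    (h : ∀ p ∈ I, UB (g p) B) : UB (fun n => (1 / ∑ p ∈ I, w p) * ∑ p ∈ I, w p * g p n) B := by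
  have h1 := (UB.sum I (fun p n => w p * g p n) (fun p => w p * B) fun p hp => (h p hp).smul (hw p hp)).smul
    (c := 1 / ∑ p ∈ I, w p) (by positivity)
  refine h1.mono (fun n => le_rfl) (le_of_eq ?_)
  rw [← sum_mul, ← mul_assoc, one_div_mul_cancel hW.ne', one_mul]

/-- the upper mean -/
noncomputable def up (g : ℕ → ℝ) : ℝ := limsup (fun N : ℕ => (1 / (N : ℝ)) * ∑ n ∈ range N, g n) atTop

theorem mean_bd {g : ℕ → ℝ} (hg : ∀ n, 0 ≤ g n ∧ g n ≤ 1) (N : ℕ) :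
    0 ≤ (1 / (N : ℝ)) * ∑ n ∈ range N, g n ∧ (1 / (N : ℝ)) * ∑ n ∈ range N, g n ≤ 1 := by
  have h1 : ∑ n ∈ range N, g n ≤ N := by
    refine (sum_le_card_nsmul _ _ 1 fun n _ => (hg n).2).trans (le_of_eq ?_)
    rw [card_range, nsmul_eq_mul, mul_one]
  refine ⟨mul_nonneg (by positivity) (sum_nonneg fun n _ => (hg n).1), ?_⟩
  rcases Nat.eq_zero_or_pos N with rfl | hN
  · simp
  · have hN0 : (0 : ℝ) < N := by exact_mod_cast hN
    rw [one_div, inv_mul_eq_div, div_le_one hN0]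
    exact h1

theorem ub_up {g : ℕ → ℝ} (hg : ∀ n, 0 ≤ g n ∧ g n ≤ 1) : UB g (up g) := by
  intro ε hε
  have hb : IsBoundedUnder (· ≤ ·) atTop (fun N : ℕ => (1 / (N : ℝ)) * ∑ n ∈ range N, g n) :=
    isBoundedUnder_of ⟨1, fun N => (mean_bd hg N).2⟩
  have h1 := eventually_lt_of_limsup_lt (show up g < up g + ε by linarith) hb
  obtain ⟨N₀, h0⟩ := eventually_atTop.1 h1
  refine ⟨N₀ + 1, fun N hN => ?_⟩
  have hN0 : (0 : ℝ) < N := by exact_mod_cast (by omega : 0 < N)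
  have h2 := h0 N (by omega)
  rw [one_div, inv_mul_eq_div, div_lt_iff₀ hN0] at h2
  exact h2.le

theorem up_le {g : ℕ → ℝ} (hg : ∀ n, 0 ≤ g n ∧ g n ≤ 1) {B : ℝ} (h : UB g B) : up g ≤ B := by
  have hb : IsCoboundedUnder (· ≤ ·) atTop (fun N : ℕ => (1 / (N : ℝ)) * ∑ n ∈ range N, g n) :=
    IsBoundedUnder.isCoboundedUnder_le (isBoundedUnder_of ⟨0, fun N => (mean_bd hg N).1⟩)
  refine le_of_forall_pos_le_add fun ε hε => ?_
  obtain ⟨N₀, h0⟩ := h ε hε
  refine limsup_le_of_le hb ?_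
  filter_upwards [eventually_ge_atTop (N₀ + 1)] with N hN
  have hN0 : (0 : ℝ) < N := by exact_mod_cast (by omega : 0 < N)
  rw [one_div, inv_mul_eq_div, div_le_iff₀ hN0]
  exact h0 N (by omega)

theorem up_nonneg {g : ℕ → ℝ} (hg : ∀ n, 0 ≤ g n ∧ g n ≤ 1) : 0 ≤ up g := by
  refine le_limsup_of_frequently_le ?_ (isBoundedUnder_of ⟨1, fun N => (mean_bd hg N).2⟩)
  exact (Eventually.of_forall fun N => (mean_bd hg N).1).frequently

end Pool.Agent.K9h46.ZO
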