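import Pool.Agent.K9h46.ZO.Pow
import Pool.Agent.K9h46.ZO.Mu
import Pool.Agent.K9h46.ZO.UB
import Pool.Agent.Helper44K9.FU.Wr
import Pool.Agent.Helper44K9.FU.Tk
import Pool.Agent.Helper44K9.FU.Pw

/-!
# Natural averages (helper46): the pointwise inequality and its mean for the Liouville function
-/

set_option autoImplicit false

namespace Pool.Agent.K9h46.ZO

open Finset Polynomial MeasureTheory
open Pool.Agent.H807R2.Dav (ee norm_ee ee_add)
open Pool.Agent.Helper44K9.FU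
open Pool.Agent.Helper44K9.FU.FL
open Pool.Agent.TH823.MRS (mob ExpoSmall expo_lam expo_mob win_l1 lam_sup mob_sup)
open Pool.Agent.H376R2.MR (lam)

/-- **The inequality at every point.** -/
theorem pt_pow (hPW : S_PW) (hPUSH : S_PUSH) {f : ℕ → ℂ} (hf : Mul1 f) {d : ℕ} (hd : 1 ≤ d) {r : ℕ} (hr : 1 ≤ r)
    (E : Set UnitAddCircle) {K : ℕ} (hK : 1 ≤ K) {ε : ℝ} (hε : 0 < ε) :
    ∃ Q : ℕ, ∀ H' : ℕ, 1 ≤ H' → ∃ I : Finset ℕ, (∀ p ∈ I, 1 ≤ p ∧ 0 ≤ wt p) ∧ 0 < ∑ p ∈ I, wt p ∧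
      ∃ H₀ : ℕ, ∀ H : ℕ, H₀ ≤ H → (∀ p ∈ I, 1 ≤ H / p) ∧ ∀ n : ℕ,
      (volume (closure E)).toReal * (wSup d Set.univ f n H / H) ^ r ≤
        (1 / ∑ p ∈ I, wt p) * ∑ p ∈ I, wt p *
          ((1 / ((H / p : ℕ) : ℝ)) * ∑ i ∈ range (H / p), (wSup d E f (n / p + i) K / K) ^ r) +
        (1 / (H : ℝ)) * ∑ i ∈ range H, wSup d (frac Q) f (n + i) H' / H' + ε := by
  classical
  set v : ℝ := (volume (closure E)).toReal with hv
  have hv0 : 0 ≤ v := ENNReal.toReal_nonneg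
  have hv1 : v ≤ 1 := by
    rw [hv]
    have h1 : volume (closure E) ≤ 1 := by
      refine (measure_mono (Set.subset_univ _)).trans (le_of_eq ?_)
      exact UnitAddCircle.measure_univ
    exact ENNReal.toReal_le_of_le_ofReal zero_le_one (by simpa using h1)
  have hr0 : (1 : ℝ) ≤ r := by exact_mod_cast hr
  set γ : ℝ := min (ε / 40) 1 with hγ
  have hγ0 : 0 < γ := lt_min (by positivity) one_pos
  have hγ1 : γ ≤ 1 := min_le_right _ _
  have hγε : 40 * γ ≤ ε := by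
    have := min_le_left (ε / 40) (1 : ℝ)
    linarith
  set δ : ℝ := γ / r with hδ
  have hδ0 : 0 < δ := by positivity
  have hrδ : r * δ = γ := by rw [hδ]; field_simp
  have hδγ : δ ≤ γ := by
    have : 1 * δ ≤ r * δ := mul_le_mul_of_nonneg_right hr0 hδ0.le
    linarith
  have hδ1 : δ ≤ 1 := hδγ.trans hγ1
  have hb : ∀ (F : Set UnitAddCircle) (m L : ℕ), 0 ≤ (wSup d F f m L / L) ^ r ∧ (wSup d F f m L / L) ^ r ≤ 1 :=
    fun F m L => ⟨pow_nonneg (wSup_div hf.1 d F m L).1 r,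
      pow_le_one₀ (wSup_div hf.1 d F m L).1 (wSup_div hf.1 d F m L).2⟩
  rcases lt_or_ge v (2 * γ) with hsm | hlg
  · -- small measure
    refine ⟨1, fun H' _ => ⟨{2}, fun p hp => ?_, ?_, 2, fun H hH => ⟨fun p hp => ?_, fun n => ?_⟩⟩⟩
    · rw [mem_singleton] at hp
      subst hp
      exact ⟨by norm_num, by unfold wt; positivity⟩
    · rw [sum_singleton]
      unfold wt
      have h1 : Nat.log 2 2 = 1 := by norm_num
      rw [h1]
      have := Real.log_pos (show (1 : ℝ) < 2 by norm_num)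
      positivity
    · rw [mem_singleton] at hp
      subst hp
      omega
    · have h1 : v * (wSup d Set.univ f n H / H) ^ r ≤ 2 * γ * 1 :=
        mul_le_mul hsm.le (hb Set.univ n H).2 (hb Set.univ n H).1 (by positivity)
      have h2 : 0 ≤ (1 / (H : ℝ)) * ∑ i ∈ range H, wSup d (frac 1) f (n + i) H' / H' :=
        mul_nonneg (by positivity) (sum_nonneg fun i _ => (wSup_div hf.1 d (frac 1) (n + i) H').1)
      have h3 : 0 ≤ (1 / ∑ p ∈ ({2} : Finset ℕ), wt p) * ∑ p ∈ ({2} : Finset ℕ), wt p *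
          ((1 / ((H / p : ℕ) : ℝ)) * ∑ i ∈ range (H / p), (wSup d E f (n / p + i) K / K) ^ r) := by
        rw [sum_singleton, sum_singleton]
        have h4 : 0 ≤ wt 2 := by unfold wt; positivity
        refine mul_nonneg (by positivity) (mul_nonneg h4 (mul_nonneg (by positivity) (sum_nonneg fun i _ => ?_)))
        exact (hb E _ K).1
      linarith
  -- the choices
  set κ : ℝ := δ / 8 with hκ
  have hκ0 : 0 < κ := by positivity
  have hπκ : 2 * Real.pi * κ ≤ δ := by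
    rw [hκ]
    have := Real.pi_lt_d2
    nlinarith
  have hK0 : (0 : ℝ) < K := by exact_mod_cast hK
  have hr1 : 0 < κ / (K : ℝ) ^ d := by positivity
  obtain ⟨Q, hQ1, hEQ⟩ := equi hPW d hd (closure E) (Metric.thickening (κ / (K : ℝ) ^ d) E) isClosed_closure
    Metric.isOpen_thickening (Metric.closure_subset_thickening hr1 E) δ hδ0
  refine ⟨Q, fun H' hH'1 => ?_⟩
  have hH'0 : (0 : ℝ) < H' := by exact_mod_cast hH'1
  set τ : ℝ := κ / (H' : ℝ) ^ d with hτ
  have hτ0 : 0 < τ := by positivity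
  have hτκ : τ * (H' : ℝ) ^ d ≤ κ := by rw [hτ]; apply le_of_eq; field_simp
  obtain ⟨z, hz⟩ := exists_nat_ge (8 / δ)
  obtain ⟨I, hI, hIA, hIeq⟩ := hEQ τ hτ0 z (300 / δ ^ 2 / δ + 1)
  set Wt : ℝ := ∑ p ∈ I, wt p with hWt
  have hWt0 : 0 < Wt := lt_of_lt_of_le (by positivity) hIA
  have hδW : 300 / δ ^ 2 ≤ δ * Wt := by
    have h1 : 300 / δ ^ 2 / δ ≤ Wt := by linarith
    rw [div_le_iff₀ hδ0] at h1
    linarith
  obtain ⟨H₂, hH₂⟩ := hPUSH I δ hδ0 fun p hp => ⟨(hI p hp).1, hz.trans (by exact_mod_cast (hI p hp).2.1.le)⟩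
  obtain ⟨A₁, hA₁⟩ := exists_nat_ge (2 * (K : ℝ) / δ)
  obtain ⟨A₂, hA₂⟩ := exists_nat_ge (2 * (H' : ℝ) / δ)
  obtain ⟨C₀, hC₀⟩ := exists_nat_ge (1 / δ)
  have hC₀1 : 1 ≤ C₀ := by
    by_contra hcon
    have h1 : C₀ = 0 := by omega
    rw [h1] at hC₀
    have : 0 < 1 / δ := by positivity
    push_cast at hC₀
    linarith
  have hC₀δ : 1 / (C₀ : ℝ) ≤ δ := by
    have h1 : (0 : ℝ) < C₀ := by exact_mod_cast hC₀1
    rw [div_le_iff₀ h1]
    rw [div_le_iff₀ hδ0] at hC₀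
    linarith
  set B : ℕ := I.sup id with hB
  have hBp : ∀ p ∈ I, p ≤ B := fun p hp => Finset.le_sup (f := id) hp
  refine ⟨I, fun p hp => ⟨(hI p hp).1.pos, (hI p hp).2.2.1⟩, hWt0, H₂ + B * (A₁ + 1) + A₂ + 1, fun H hH => ?_⟩
  have hH1 : 1 ≤ H := by omega
  have hH0 : (0 : ℝ) < H := by exact_mod_cast hH1
  have hHp : ∀ p ∈ I, p ≤ H := by
    intro p hp
    have h1 := hBp p hp
    have h2 : B ≤ B * (A₁ + 1) := Nat.le_mul_of_pos_right _ (by omega)
    omega
  have hHpK : ∀ p ∈ I, A₁ + 1 ≤ H / p := by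
    intro p hp
    rw [Nat.le_div_iff_mul_le (hI p hp).1.pos]
    have h1 := Nat.mul_le_mul_left (A₁ + 1) (hBp p hp)
    have h2 : (A₁ + 1) * B = B * (A₁ + 1) := mul_comm _ _
    omega
  have hHδ : 2 * (H' : ℝ) / H ≤ δ := by
    have h1 : (A₂ : ℝ) ≤ H := by exact_mod_cast (by omega : A₂ ≤ H)
    rw [div_le_iff₀ hδ0] at hA₂
    rw [div_le_iff₀ hH0]
    nlinarith
  set v' : ℝ := v - 2 * δ with hv'
  have hv'0 : 0 ≤ v' := by linarith
  have hv'1 : v' ≤ 1 := by linarith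
  set sT : ℕ → ℝ := fun n => wSup d Set.univ f n H / H with hsT
  set sE : ℕ → ℝ := fun n => wSup d E f n K / K with hsE
  set sQ : ℕ → ℝ := fun n => wSup d (frac Q) f n H' / H' with hsQ
  have hsTb : ∀ n, 0 ≤ sT n ∧ sT n ≤ 1 := fun n => wSup_div hf.1 d Set.univ n H
  have hsEb : ∀ n, 0 ≤ sE n ∧ sE n ≤ 1 := fun n => wSup_div hf.1 d E n K
  have hsQb : ∀ n, 0 ≤ sQ n ∧ sQ n ≤ 1 := fun n => wSup_div hf.1 d (frac Q) n H'
  set U : Set UnitAddCircle := Metric.thickening (κ / (K : ℝ) ^ d) E with hU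
  -- the pointwise inequality
  have hpt : ∀ n : ℕ, v' * (sT n ^ r - γ) ≤
      (1 / Wt) * ∑ p ∈ I, wt p * (wSup d U f (n / p) (H / p) / ((H / p : ℕ) : ℝ)) ^ r +
      ((1 / (H : ℝ)) * ∑ i ∈ range H, sQ (n + i)) + 2 * δ := by
    intro n
    obtain ⟨X, hX⟩ : ∃ X : ℝ, X = (1 / Wt) * ∑ p ∈ I, wt p * (wSup d U f (n / p) (H / p) / ((H / p : ℕ) : ℝ)) ^ r +
      ((1 / (H : ℝ)) * ∑ i ∈ range H, sQ (n + i)) + 2 * δ := ⟨_, rfl⟩
    have h1 : ∀ P : ℝ[X], P.natDegree ≤ d → v' * (max (‖W f P n H‖ / H - δ) 0) ^ r ≤ X := by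
      intro P hP
      have h2 := core_pow hf hr hv'0 hv'1 hδ0 hκ0.le hH'1 hτκ (fun p hp => ⟨(hI p hp).1, (hI p hp).2.2⟩)
        hWt0 hδW (fun α hα => by
          have h3 := hIeq α hα
          rw [hv']
          rw [show v - 2 * δ + δ = v - δ by ring]
          exact h3) hP (n := n) hH1 hHp (hH₂ H (by omega) f hf P n)
      rw [hX]
      linarith
    rw [← hX]
    have hX0 : 0 ≤ X := by
      refine le_trans ?_ (h1 0 (by simp))
      exact mul_nonneg hv'0 (pow_nonneg (le_max_right _ _) r)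
    rcases hv'0.eq_or_lt with h0 | hpos
    · rw [← h0, zero_mul]
      exact hX0
    · obtain ⟨c, hc⟩ : ∃ c : ℝ, c = (X / v') ^ ((r : ℝ)⁻¹) := ⟨_, rfl⟩
      have hXv : 0 ≤ X / v' := by positivity
      have hc0 : 0 ≤ c := by rw [hc]; positivity
      have hcr : c ^ r = X / v' := by
        rw [hc]
        exact Real.rpow_inv_natCast_pow hXv (by omega)
      have h2 : sT n ≤ c + δ := by
        have h3 : wSup d Set.univ f n H ≤ (c + δ) * H := by
          refine wSup_le (by positivity) fun P hP _ => ?_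
          have h4 := h1 P hP
          have h5 : (max (‖W f P n H‖ / H - δ) 0) ^ r ≤ c ^ r := by
            rw [hcr, le_div_iff₀ hpos]; linarith
          have h6 := (pow_le_pow_iff_left₀ (le_max_right _ _) hc0 (by omega : r ≠ 0)).1 h5
          have h7 : ‖W f P n H‖ / H ≤ c + δ := by
            have := le_max_left (‖W f P n H‖ / H - δ) 0
            linarith
          rwa [div_le_iff₀ hH0] at h7
        simp only [hsT]
        rwa [div_le_iff₀ hH0]
      have h3 : sT n ^ r ≤ c ^ r + γ := by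
        rcases le_total (sT n) c with h4 | h4
        · have := pow_le_pow_left₀ (hsTb n).1 h4 r
          linarith
        · have h5 := pow_lip r hc0 h4 (hsTb n).2
          have h6 : (r : ℝ) * (sT n - c) ≤ r * δ := mul_le_mul_of_nonneg_left (by linarith) (Nat.cast_nonneg r)
          linarith
      have h4 : sT n ^ r - γ ≤ X / v' := by rw [← hcr]; linarith
      rw [le_div_iff₀ hpos] at h4
      linarith
  refine ⟨fun p hp => le_trans (by omega) (hHpK p hp), fun n => ?_⟩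
  -- shorter windows
  have hshort : ∀ p ∈ I, (wSup d U f (n / p) (H / p) / ((H / p : ℕ) : ℝ)) ^ r ≤
      (1 / ((H / p : ℕ) : ℝ)) * ∑ i ∈ range (H / p), sE (n / p + i) ^ r + 2 * γ := by
    intro p hp
    have hHp1 : 1 ≤ H / p := le_trans (by omega) (hHpK p hp)
    have hHp0 : (0 : ℝ) < ((H / p : ℕ) : ℝ) := by exact_mod_cast hHp1
    have h3 : ∀ P : ℝ[X], P.natDegree ≤ d → ((P.coeff d : ℝ) : UnitAddCircle) ∈ U →
        ‖W f P (n / p) (H / p)‖ ≤ ((1 / ((H / p : ℕ) : ℝ)) * ∑ i ∈ range (H / p), wSup d U f (n / p + i) K / K + δ) *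
          ((H / p : ℕ) : ℝ) := by
      intro P hP hPU
      rw [← div_le_iff₀ hHp0]
      refine (sub_window' hf.1 P (n / p) (H / p) K hHp1 hK).trans (add_le_add ?_ ?_)
      · refine mul_le_mul_of_nonneg_left (sum_le_sum fun i _ => ?_) (by positivity)
        exact div_le_div_of_nonneg_right (le_wSup hf.1 _ _ hP hPU) hK0.le
      · have h4 : (A₁ : ℝ) ≤ ((H / p : ℕ) : ℝ) := by
          have := hHpK p hp
          exact_mod_cast (by omega : A₁ ≤ H / p)
        rw [div_le_iff₀ hδ0] at hA₁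
        rw [div_le_iff₀ hHp0]
        nlinarith
    have h5 : 0 ≤ (1 / ((H / p : ℕ) : ℝ)) * ∑ i ∈ range (H / p), wSup d U f (n / p + i) K / K :=
      mul_nonneg (by positivity) (sum_nonneg fun i _ => (wSup_div hf.1 d U (n / p + i) K).1)
    have h6 : wSup d U f (n / p) (H / p) / ((H / p : ℕ) : ℝ) ≤
        (1 / ((H / p : ℕ) : ℝ)) * ∑ i ∈ range (H / p), wSup d U f (n / p + i) K / K + δ := by
      rw [div_le_iff₀ hHp0]
      exact wSup_le (mul_nonneg (by linarith) hHp0.le) h3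
    have h7 := pow_mean hHp1 r (z := fun i => wSup d U f (n / p + i) K / K) (wSup_div hf.1 d U (n / p) (H / p)).1
      (wSup_div hf.1 d U (n / p) (H / p)).2 hδ0.le (fun i => (wSup_div hf.1 d U (n / p + i) K).1) h6
    rw [hrδ] at h7
    have h8 : ∀ m : ℕ, (wSup d U f m K / K) ^ r ≤ sE m ^ r + γ := by
      intro m
      have h5 : wSup d U f m K / K ≤ sE m + δ := by
        simp only [hsE]
        rw [div_le_iff₀ hK0, add_mul, div_mul_cancel₀ _ hK0.ne']
        refine (wSup_thick hf.1 E d K m κ hκ0.le hK).trans ?_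
        have := mul_le_mul_of_nonneg_right hπκ hK0.le
        linarith
      rcases le_total (wSup d U f m K / K) (sE m) with h6 | h6
      · have := pow_le_pow_left₀ (wSup_div hf.1 d U m K).1 h6 r
        linarith
      · have h7 := pow_lip r (hsEb m).1 h6 (wSup_div hf.1 d U m K).2
        have h8 : (r : ℝ) * (wSup d U f m K / K - sE m) ≤ r * δ :=
          mul_le_mul_of_nonneg_left (by linarith) (Nat.cast_nonneg r)
        linarith
    have h9 : (1 / ((H / p : ℕ) : ℝ)) * ∑ i ∈ range (H / p), (wSup d U f (n / p + i) K / K) ^ r ≤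
        (1 / ((H / p : ℕ) : ℝ)) * ∑ i ∈ range (H / p), (sE (n / p + i) ^ r + γ) :=
      mul_le_mul_of_nonneg_left (sum_le_sum fun i _ => h8 _) (by positivity)
    have h10 : (1 / ((H / p : ℕ) : ℝ)) * ∑ i ∈ range (H / p), (sE (n / p + i) ^ r + γ) =
        (1 / ((H / p : ℕ) : ℝ)) * ∑ i ∈ range (H / p), sE (n / p + i) ^ r + γ := by
      rw [sum_add_distrib, sum_const, card_range, nsmul_eq_mul, mul_add]
      congr 1
      field_simp
    rw [h10] at h9
    linarith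
  have hmean : (1 / Wt) * ∑ p ∈ I, wt p * (wSup d U f (n / p) (H / p) / ((H / p : ℕ) : ℝ)) ^ r ≤
      (1 / Wt) * ∑ p ∈ I, wt p * ((1 / ((H / p : ℕ) : ℝ)) * ∑ i ∈ range (H / p), sE (n / p + i) ^ r) + 2 * γ := by
    have h1 : (1 / Wt) * ∑ p ∈ I, wt p * ((1 / ((H / p : ℕ) : ℝ)) * ∑ i ∈ range (H / p), sE (n / p + i) ^ r) + 2 * γ =
        (1 / Wt) * ∑ p ∈ I, wt p * ((1 / ((H / p : ℕ) : ℝ)) * ∑ i ∈ range (H / p), sE (n / p + i) ^ r + 2 * γ) := by
      have h2 : ∑ p ∈ I, wt p * ((1 / ((H / p : ℕ) : ℝ)) * ∑ i ∈ range (H / p), sE (n / p + i) ^ r + 2 * γ) =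
          ∑ p ∈ I, wt p * ((1 / ((H / p : ℕ) : ℝ)) * ∑ i ∈ range (H / p), sE (n / p + i) ^ r) + Wt * (2 * γ) := by
        rw [hWt, sum_mul, ← sum_add_distrib]
        exact sum_congr rfl fun p _ => by ring
      rw [h2, mul_add, ← mul_assoc, one_div_mul_cancel hWt0.ne', one_mul]
    rw [h1]
    refine mul_le_mul_of_nonneg_left (sum_le_sum fun p hp => ?_) (by positivity)
    exact mul_le_mul_of_nonneg_left (hshort p hp) (hI p hp).2.2.1
  have h0 := hpt n
  have h1 : v * sT n ^ r = v' * (sT n ^ r - γ) + 2 * δ * sT n ^ r + v' * γ := by rw [hv']; ring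
  have h2 : v' * γ ≤ 1 * γ := mul_le_mul_of_nonneg_right hv'1 hγ0.le
  have h3 : 2 * δ * sT n ^ r ≤ 2 * δ * 1 := mul_le_mul_of_nonneg_left (pow_le_one₀ (hsTb n).1 (hsTb n).2) (by positivity)
  show v * sT n ^ r ≤ (1 / Wt) * ∑ p ∈ I, wt p * ((1 / ((H / p : ℕ) : ℝ)) * ∑ i ∈ range (H / p), sE (n / p + i) ^ r) +
    (1 / (H : ℝ)) * ∑ i ∈ range H, sQ (n + i) + ε
  rw [h1]
  linarith

end Pool.Agent.K9h46.ZO
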