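import Pool.Agent.K9h46.ZO.Avg

/-!
# Leading coefficients of polynomial phases (helper46): all moments, for long averages
-/

set_option autoImplicit false

namespace Pool.Agent.K9h46.ZO

open Finset Polynomial MeasureTheory
open Pool.Agent.H807R2.Dav (ee norm_ee ee_add)
open Pool.Agent.Helper44K9.FU
open Pool.Agent.Helper44K9.FU.FL

theorem pow_lip {a b : ℝ} (r : ℕ) (ha : 0 ≤ a) (hab : a ≤ b) (hb : b ≤ 1) : b ^ r ≤ a ^ r + r * (b - a) := by
  induction r with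
  | zero => simp
  | succ r ih =>
    have hb0 : 0 ≤ b := ha.trans hab
    have h1 : a ^ r ≤ 1 := pow_le_one₀ ha (hab.trans hb)
    have h2 : b * b ^ r ≤ b * (a ^ r + r * (b - a)) := mul_le_mul_of_nonneg_left ih hb0
    have h3 : (b - a) * a ^ r ≤ (b - a) * 1 := mul_le_mul_of_nonneg_left h1 (by linarith)
    have h4 : b * (r * (b - a)) ≤ 1 * (r * (b - a)) :=
      mul_le_mul_of_nonneg_right hb (mul_nonneg (Nat.cast_nonneg r) (by linarith))
    push_cast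
    rw [pow_succ', pow_succ']
    nlinarith

/-- powers of numbers which are almost at most a mean -/
theorem pow_mean {H : ℕ} (hH : 1 ≤ H) (r : ℕ) {y η : ℝ} {z : ℕ → ℝ} (hy : 0 ≤ y) (hy1 : y ≤ 1) (hη : 0 ≤ η)
    (hz : ∀ i, 0 ≤ z i) (h : y ≤ (1 / (H : ℝ)) * ∑ i ∈ range H, z i + η) :
    y ^ r ≤ (1 / (H : ℝ)) * ∑ i ∈ range H, z i ^ r + r * η := by
  have hH0 : (0 : ℝ) < H := by exact_mod_cast hH
  set m : ℝ := (1 / (H : ℝ)) * ∑ i ∈ range H, z i with hm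
  have hm0 : 0 ≤ m := mul_nonneg (by positivity) (sum_nonneg fun i _ => hz i)
  have h1 : m ^ r ≤ (1 / (H : ℝ)) * ∑ i ∈ range H, z i ^ r := by
    have h2 := Real.pow_arith_mean_le_arith_mean_pow (range H) (fun _ => 1 / (H : ℝ)) z (fun i _ => by positivity)
      (by rw [sum_const, card_range, nsmul_eq_mul]; field_simp) (fun i _ => hz i) r
    rw [← mul_sum, ← mul_sum] at h2
    exact h2
  have h2 : y ^ r ≤ m ^ r + r * η := by
    rcases le_total y m with h3 | h3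
    · have h4 := pow_le_pow_left₀ hy h3 r
      have h5 : 0 ≤ (r : ℝ) * η := by positivity
      linarith
    · have h4 := pow_lip r hm0 h3 hy1
      have h5 : (r : ℝ) * (y - m) ≤ r * η := mul_le_mul_of_nonneg_left (by linarith) (Nat.cast_nonneg r)
      linarith
  linarith

open Classical in
/-- the inequality for one window -/
theorem core_pow {f : ℕ → ℂ} (hf : Mul1 f) {d Q H' r : ℕ} {U : Set UnitAddCircle} {v' δ η κ τ : ℝ} {I : Finset ℕ}
    (hr : 1 ≤ r)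
    (hv0 : 0 ≤ v') (hv1 : v' ≤ 1) (hη : 0 < η) (hκ : 0 ≤ κ) (hH' : 1 ≤ H')
    (hτ : τ * (H' : ℝ) ^ d ≤ κ)
    (hw : ∀ p ∈ I, p.Prime ∧ 0 ≤ wt p ∧ wt p ≤ 3 / p) (hW : 0 < ∑ p ∈ I, wt p)
    (hδ : 300 / η ^ 2 ≤ δ * ∑ p ∈ I, wt p)
    (hequi : ∀ α : ℝ, (∀ q : ℕ, 1 ≤ q → q ≤ Q → ∀ a : ℤ, τ < |q * α - a|) →
      (v' + δ) * ∑ p ∈ I, wt p ≤
        ∑ p ∈ I.filter (fun p : ℕ => (((p : ℝ) ^ d * α : ℝ) : UnitAddCircle) ∈ U), wt p)
    {P : ℝ[X]} (hP : P.natDegree ≤ d) {n H : ℕ} (hH : 1 ≤ H) (hHp : ∀ p ∈ I, p ≤ H)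
    (hpush : ∑ p ∈ I.filter (fun p => ‖W f (dil p P) (n / p) (H / p)‖ <
      (‖W f P n H‖ / H - η) * ((H / p : ℕ) : ℝ)), 1 / (p : ℝ) ≤ 100 / η ^ 2) :
    v' * (max (‖W f P n H‖ / H - η) 0) ^ r ≤
      (1 / ∑ p ∈ I, wt p) * ∑ p ∈ I, wt p * (wSup d U f (n / p) (H / p) / ((H / p : ℕ) : ℝ)) ^ r +
      ((1 / (H : ℝ)) * ∑ i ∈ range H, wSup d (frac Q) f (n + i) H' / H') +
      (2 * Real.pi * κ + 2 * H' / H) := by
  set x : ℝ := ‖W f P n H‖ / H with hx
  set y : ℝ := max (x - η) 0 with hy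
  have hH0 : (0 : ℝ) < H := by exact_mod_cast hH
  have hH'0 : (0 : ℝ) < H' := by exact_mod_cast hH'
  have hx0 : 0 ≤ x := div_nonneg (norm_nonneg _) hH0.le
  have hx1 : x ≤ 1 := by rw [hx, div_le_one hH0]; exact W_le hf.1 P n H
  have hy0 : 0 ≤ y := le_max_right _ _
  have hyx : y ≤ x := max_le (by linarith) hx0
  have hy1 : y ≤ 1 := hyx.trans hx1
  have hyr : y ^ r ≤ y := pow_le_of_le_one hy0 hy1 (by omega)
  have hyr0 : 0 ≤ y ^ r := pow_nonneg hy0 r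
  have hA1 : 0 ≤ (1 / ∑ p ∈ I, wt p) * ∑ p ∈ I, wt p * (wSup d U f (n / p) (H / p) / ((H / p : ℕ) : ℝ)) ^ r := by
    refine mul_nonneg (by positivity) (sum_nonneg fun p hp => mul_nonneg (hw p hp).2.1 (pow_nonneg ?_ r))
    exact div_nonneg (wSup_nonneg _ _) (Nat.cast_nonneg _)
  have hA2 : 0 ≤ (1 / (H : ℝ)) * ∑ i ∈ range H, wSup d (frac Q) f (n + i) H' / H' := by
    refine mul_nonneg (by positivity) (sum_nonneg fun i _ => ?_)
    exact div_nonneg (wSup_nonneg _ _) (Nat.cast_nonneg _)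
  have hA3 : 0 ≤ 2 * Real.pi * κ + 2 * (H' : ℝ) / H := by
    have := Real.pi_pos
    positivity
  by_cases hxη : x ≤ η
  · have h1 : y = 0 := max_eq_right (by linarith)
    rw [h1, zero_pow (by omega), mul_zero]
    linarith
  push Not at hxη
  have hyη : y = x - η := max_eq_left (by linarith)
  by_cases hmaj : ∃ q : ℕ, 1 ≤ q ∧ q ≤ Q ∧ ∃ a : ℤ, |q * P.coeff d - a| ≤ τ
  · have h1 := sub_window' hf.1 P n H H' hH hH'
    have h2 : (1 / (H : ℝ)) * ∑ i ∈ range H, ‖W f P (n + i) H'‖ / H' ≤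
        (1 / (H : ℝ)) * ∑ i ∈ range H, wSup d (frac Q) f (n + i) H' / H' + 2 * Real.pi * κ := by
      have h3 : ∀ i ∈ range H, ‖W f P (n + i) H'‖ / H' ≤ wSup d (frac Q) f (n + i) H' / H' + 2 * Real.pi * κ := by
        intro i _
        rw [div_le_iff₀ hH'0]
        refine (major hf.1 hτ hP hmaj (n + i)).trans (le_of_eq ?_)
        field_simp
      refine (mul_le_mul_of_nonneg_left (sum_le_sum h3) (by positivity)).trans (le_of_eq ?_)
      rw [sum_add_distrib, sum_const, card_range, nsmul_eq_mul]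
      field_simp
    have h4 : v' * y ^ r ≤ x := by
      have h5 : v' * y ^ r ≤ 1 * y ^ r := mul_le_mul_of_nonneg_right hv1 hyr0
      linarith
    linarith
  · push Not at hmaj
    have h1 := hequi (P.coeff d) hmaj
    obtain ⟨B, hB⟩ : ∃ B : ℕ → Prop, B = fun p => ‖W f (dil p P) (n / p) (H / p)‖ < (x - η) * ((H / p : ℕ) : ℝ) :=
      ⟨_, rfl⟩
    obtain ⟨G, hG⟩ : ∃ G : ℕ → Prop, G = fun p : ℕ => (((p : ℝ) ^ d * P.coeff d : ℝ) : UnitAddCircle) ∈ U := ⟨_, rfl⟩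
    have h2 : ∑ p ∈ I.filter B, wt p ≤ δ * ∑ p ∈ I, wt p := by
      calc ∑ p ∈ I.filter B, wt p ≤ ∑ p ∈ I.filter B, 3 * (1 / (p : ℝ)) := by
            refine sum_le_sum fun p hp => ?_
            rw [mul_one_div]
            exact (hw p (mem_filter.1 hp).1).2.2
        _ = 3 * ∑ p ∈ I.filter B, 1 / (p : ℝ) := by rw [mul_sum]
        _ ≤ 3 * (100 / η ^ 2) := by
            refine mul_le_mul_of_nonneg_left ?_ (by norm_num)
            rw [hB]
            exact hpush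
        _ = 300 / η ^ 2 := by ring
        _ ≤ _ := hδ
    have h3 : v' * ∑ p ∈ I, wt p ≤ ∑ p ∈ I.filter G, wt p - ∑ p ∈ I.filter B, wt p := by
      rw [hG]
      linarith
    have h4 : y ^ r * (∑ p ∈ I.filter G, wt p - ∑ p ∈ I.filter B, wt p) ≤
        ∑ p ∈ I, wt p * (wSup d U f (n / p) (H / p) / ((H / p : ℕ) : ℝ)) ^ r := by
      rw [sum_filter, sum_filter, ← sum_sub_distrib, mul_sum]
      refine sum_le_sum fun p hp => ?_
      have hp1 := hw p hp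
      have hHp1 : 1 ≤ H / p := (Nat.one_le_div_iff hp1.1.pos).2 (hHp p hp)
      have hHp0 : (0 : ℝ) < ((H / p : ℕ) : ℝ) := by exact_mod_cast hHp1
      have hF : 0 ≤ wt p * (wSup d U f (n / p) (H / p) / ((H / p : ℕ) : ℝ)) ^ r :=
        mul_nonneg hp1.2.1 (pow_nonneg (div_nonneg (wSup_nonneg _ _) hHp0.le) r)
      by_cases hGp : G p
      · rw [if_pos hGp]
        by_cases hBp : B p
        · rw [if_pos hBp, sub_self, mul_zero]
          exact hF
        · rw [if_neg hBp, sub_zero, mul_comm]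
          refine mul_le_mul_of_nonneg_left (pow_le_pow_left₀ hy0 ?_ r) hp1.2.1
          rw [hyη, le_div_iff₀ hHp0]
          rw [hB] at hBp
          push Not at hBp
          refine hBp.trans (le_wSup hf.1 _ _ (dil_natDegree p hP) ?_)
          rw [dil_coeff]
          rw [hG] at hGp
          exact hGp
      · rw [if_neg hGp]
        have h5 : 0 ≤ (if B p then wt p else 0) := by
          split_ifs
          · exact hp1.2.1
          · exact le_rfl
        have h6 : y ^ r * (0 - (if B p then wt p else 0)) ≤ 0 :=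
          mul_nonpos_of_nonneg_of_nonpos hyr0 (by linarith)
        linarith
    have h5 : v' * y ^ r ≤ (1 / ∑ p ∈ I, wt p) *
        ∑ p ∈ I, wt p * (wSup d U f (n / p) (H / p) / ((H / p : ℕ) : ℝ)) ^ r := by
      rw [one_div, inv_mul_eq_div, le_div_iff₀ hW]
      refine le_trans (le_of_eq ?_) ((mul_le_mul_of_nonneg_left h3 hyr0).trans h4)
      ring
    linarith

/-- **Main inequality, all moments.** -/
theorem main_pow (hPW : S_PW) (hPUSH : S_PUSH) {f : ℕ → ℂ} (hf : Mul1 f) {d : ℕ} (hd : 1 ≤ d) {r : ℕ} (hr : 1 ≤ r)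
    (E : Set UnitAddCircle) {K : ℕ} (hK : 1 ≤ K) {ε : ℝ} (hε : 0 < ε) :
    ∃ Q : ℕ, ∀ H' : ℕ, 1 ≤ H' → ∃ H₀ : ℕ, ∀ H : ℕ, H₀ ≤ H → ∃ N₀ : ℕ, ∀ N : ℕ, N₀ ≤ N →
      (volume (closure E)).toReal * ∑ n ∈ Icc 1 N, (1 / (n : ℝ)) * (wSup d Set.univ f n H / H) ^ r ≤
        ∑ n ∈ Icc 1 N, (1 / (n : ℝ)) * (wSup d E f n K / K) ^ r +
        ∑ n ∈ Icc 1 N, (1 / (n : ℝ)) * (wSup d (frac Q) f n H' / H') + ε * Real.log N := by
  classical
  set v : ℝ := (volume (closure E)).toReal with hv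
  have hv0 : 0 ≤ v := ENNReal.toReal_nonneg
  have hv1 : v ≤ 1 := by
    rw [hv]
    have h1 : volume (closure E) ≤ 1 := by
      refine (measure_mono (Set.subset_univ _)).trans (le_of_eq ?_)
      exact UnitAddCircle.measure_univ
    exact ENNReal.toReal_le_of_le_ofReal zero_le_one (by simpa using h1)
  have hr0 : (1 : ℝ) ≤ r := by exact_mod_cast hr
  -- all sums over `N` grow
  have hbig : ∀ δ : ℝ, 0 < δ → ∀ M : ℝ, ∃ N₀ : ℕ, ∀ N : ℕ, N₀ ≤ N → M ≤ δ * Real.log N := by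
    intro δ hδ0 M
    obtain ⟨N₀, hN₀⟩ := exists_nat_ge (Real.exp (M / δ))
    refine ⟨N₀ + 1, fun N hN => ?_⟩
    have hN0 : (0 : ℝ) < N := by exact_mod_cast (by omega : 0 < N)
    have h1 : M / δ ≤ Real.log N := by
      rw [Real.le_log_iff_exp_le hN0]
      exact hN₀.trans (by exact_mod_cast (by omega : N₀ ≤ N))
    rw [div_le_iff₀ hδ0] at h1
    linarith
  set γ : ℝ := min (ε / 40) 1 with hγ
  have hγ0 : 0 < γ := lt_min (by positivity) one_pos
  have hγ1 : γ ≤ 1 := min_le_right _ _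
  have hγε : 40 * γ ≤ ε := by
    have := min_le_left (ε / 40) (1 : ℝ)
    linarith
  set δ : ℝ := γ / r with hδ
  have hδ0 : 0 < δ := by positivity
  have hrδ : r * δ = γ := by rw [hδ]; field_simp
  have hδγ : δ ≤ γ := by
    have : 1 * δ ≤ r * δ := mul_le_mul_of_nonneg_right hr0 hδ0.le
    linarith
  have hδ1 : δ ≤ 1 := hδγ.trans hγ1
  have hb : ∀ (F : Set UnitAddCircle) (m L : ℕ), 0 ≤ (wSup d F f m L / L) ^ r ∧ (wSup d F f m L / L) ^ r ≤ 1 :=
    fun F m L => ⟨pow_nonneg (wSup_div hf.1 d F m L).1 r,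
      pow_le_one₀ (wSup_div hf.1 d F m L).1 (wSup_div hf.1 d F m L).2⟩
  have hSE : ∀ N : ℕ, 0 ≤ ∑ n ∈ Icc 1 N, (1 / (n : ℝ)) * (wSup d E f n K / K) ^ r := fun N =>
    sum_nonneg fun n _ => mul_nonneg (by positivity) (hb E n K).1
  have hSQ : ∀ Q H' N : ℕ, 0 ≤ ∑ n ∈ Icc 1 N, (1 / (n : ℝ)) * (wSup d (frac Q) f n H' / H') := fun Q H' N =>
    sum_nonneg fun n _ => mul_nonneg (by positivity) (wSup_div hf.1 d (frac Q) n H').1
  rcases lt_or_ge v (2 * γ) with hsm | hlg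
  · -- small measure
    obtain ⟨N₀, hN₀⟩ := hbig γ hγ0 (2 * γ)
    refine ⟨1, fun H' _ => ⟨0, fun H _ => ⟨N₀, fun N hN => ?_⟩⟩⟩
    have h1 := sum_le_hs (fun n => (wSup d Set.univ f n H / H) ^ r) (fun n => (hb Set.univ n H).2) N
    have h2 := hs_le N
    have h3 : 0 ≤ ∑ n ∈ Icc 1 N, (1 / (n : ℝ)) * (wSup d Set.univ f n H / H) ^ r :=
      sum_nonneg fun n _ => mul_nonneg (by positivity) (hb Set.univ n H).1
    have h4 : v * ∑ n ∈ Icc 1 N, (1 / (n : ℝ)) * (wSup d Set.univ f n H / H) ^ r ≤ 2 * γ * (1 + Real.log N) :=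
      mul_le_mul hsm.le (h1.trans h2) h3 (by positivity)
    have h5 := hN₀ N hN
    have h6 := hSE N
    have h8 := hSQ 1 H' N
    have h7 : 0 ≤ Real.log N := Real.log_natCast_nonneg N
    nlinarith
  -- the choices
  set κ : ℝ := δ / 8 with hκ
  have hκ0 : 0 < κ := by positivity
  have hπκ : 2 * Real.pi * κ ≤ δ := by
    rw [hκ]
    have := Real.pi_lt_d2
    nlinarith
  have hK0 : (0 : ℝ) < K := by exact_mod_cast hK
  have hr1 : 0 < κ / (K : ℝ) ^ d := by positivity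
  obtain ⟨Q, hQ1, hEQ⟩ := equi hPW d hd (closure E) (Metric.thickening (κ / (K : ℝ) ^ d) E) isClosed_closure
    Metric.isOpen_thickening (Metric.closure_subset_thickening hr1 E) δ hδ0
  refine ⟨Q, fun H' hH'1 => ?_⟩
  have hH'0 : (0 : ℝ) < H' := by exact_mod_cast hH'1
  set τ : ℝ := κ / (H' : ℝ) ^ d with hτ
  have hτ0 : 0 < τ := by positivity
  have hτκ : τ * (H' : ℝ) ^ d ≤ κ := by rw [hτ]; apply le_of_eq; field_simp
  obtain ⟨z, hz⟩ := exists_nat_ge (8 / δ)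
  obtain ⟨I, hI, hIA, hIeq⟩ := hEQ τ hτ0 z (300 / δ ^ 2 / δ + 1)
  set Wt : ℝ := ∑ p ∈ I, wt p with hWt
  have hWt0 : 0 < Wt := lt_of_lt_of_le (by positivity) hIA
  have hδW : 300 / δ ^ 2 ≤ δ * Wt := by
    have h1 : 300 / δ ^ 2 / δ ≤ Wt := by linarith
    rw [div_le_iff₀ hδ0] at h1
    linarith
  obtain ⟨H₂, hH₂⟩ := hPUSH I δ hδ0 fun p hp => ⟨(hI p hp).1, hz.trans (by exact_mod_cast (hI p hp).2.1.le)⟩
  obtain ⟨A₁, hA₁⟩ := exists_nat_ge (2 * (K : ℝ) / δ)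
  obtain ⟨A₂, hA₂⟩ := exists_nat_ge (2 * (H' : ℝ) / δ)
  obtain ⟨C₀, hC₀⟩ := exists_nat_ge (1 / δ)
  have hC₀1 : 1 ≤ C₀ := by
    by_contra hcon
    have h1 : C₀ = 0 := by omega
    rw [h1] at hC₀
    have : 0 < 1 / δ := by positivity
    push_cast at hC₀
    linarith
  have hC₀δ : 1 / (C₀ : ℝ) ≤ δ := by
    have h1 : (0 : ℝ) < C₀ := by exact_mod_cast hC₀1
    rw [div_le_iff₀ h1]
    rw [div_le_iff₀ hδ0] at hC₀
    linarith
  set B : ℕ := I.sup id with hB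
  have hBp : ∀ p ∈ I, p ≤ B := fun p hp => Finset.le_sup (f := id) hp
  refine ⟨H₂ + B * (A₁ + 1) + A₂ + 1, fun H hH => ?_⟩
  have hH1 : 1 ≤ H := by omega
  have hH0 : (0 : ℝ) < H := by exact_mod_cast hH1
  have hHp : ∀ p ∈ I, p ≤ H := by
    intro p hp
    have h1 := hBp p hp
    have h2 : B ≤ B * (A₁ + 1) := Nat.le_mul_of_pos_right _ (by omega)
    omega
  have hHpK : ∀ p ∈ I, A₁ + 1 ≤ H / p := by
    intro p hp
    rw [Nat.le_div_iff_mul_le (hI p hp).1.pos]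
    have h1 := Nat.mul_le_mul_left (A₁ + 1) (hBp p hp)
    have h2 : (A₁ + 1) * B = B * (A₁ + 1) := mul_comm _ _
    omega
  have hHδ : 2 * (H' : ℝ) / H ≤ δ := by
    have h1 : (A₂ : ℝ) ≤ H := by exact_mod_cast (by omega : A₂ ≤ H)
    rw [div_le_iff₀ hδ0] at hA₂
    rw [div_le_iff₀ hH0]
    nlinarith
  -- the constant
  set M₁ : ℝ := (1 / Wt) * ∑ p ∈ I, wt p * ((1 + Real.log p) + (3 + Real.log ((C₀ * (H / p) : ℕ) : ℝ))) with hM₁
  set M₂ : ℝ := 3 + Real.log ((C₀ * H : ℕ) : ℝ) with hM₂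
  obtain ⟨N₂, hN₂⟩ := hbig γ hγ0 (M₁ + M₂ + 20 * γ)
  refine ⟨N₂ + C₀ * H, fun N hN => ?_⟩
  have hNN : C₀ * H ≤ N := by omega
  have hlog0 : 0 ≤ Real.log N := Real.log_natCast_nonneg N
  have hhs0 := hs_nonneg N
  have hhs := hs_le N
  set v' : ℝ := v - 2 * δ with hv'
  have hv'0 : 0 ≤ v' := by linarith
  have hv'1 : v' ≤ 1 := by linarith
  set sT : ℕ → ℝ := fun n => wSup d Set.univ f n H / H with hsT
  set sE : ℕ → ℝ := fun n => wSup d E f n K / K with hsE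
  set sQ : ℕ → ℝ := fun n => wSup d (frac Q) f n H' / H' with hsQ
  have hsTb : ∀ n, 0 ≤ sT n ∧ sT n ≤ 1 := fun n => wSup_div hf.1 d Set.univ n H
  have hsEb : ∀ n, 0 ≤ sE n ∧ sE n ≤ 1 := fun n => wSup_div hf.1 d E n K
  have hsQb : ∀ n, 0 ≤ sQ n ∧ sQ n ≤ 1 := fun n => wSup_div hf.1 d (frac Q) n H'
  set U : Set UnitAddCircle := Metric.thickening (κ / (K : ℝ) ^ d) E with hU
  -- the pointwise inequality
  have hpt : ∀ n : ℕ, v' * (sT n ^ r - γ) ≤
      (1 / Wt) * ∑ p ∈ I, wt p * (wSup d U f (n / p) (H / p) / ((H / p : ℕ) : ℝ)) ^ r +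
      ((1 / (H : ℝ)) * ∑ i ∈ range H, sQ (n + i)) + 2 * δ := by
    intro n
    obtain ⟨X, hX⟩ : ∃ X : ℝ, X = (1 / Wt) * ∑ p ∈ I, wt p * (wSup d U f (n / p) (H / p) / ((H / p : ℕ) : ℝ)) ^ r +
      ((1 / (H : ℝ)) * ∑ i ∈ range H, sQ (n + i)) + 2 * δ := ⟨_, rfl⟩
    have h1 : ∀ P : ℝ[X], P.natDegree ≤ d → v' * (max (‖W f P n H‖ / H - δ) 0) ^ r ≤ X := by
      intro P hP
      have h2 := core_pow hf hr hv'0 hv'1 hδ0 hκ0.le hH'1 hτκ (fun p hp => ⟨(hI p hp).1, (hI p hp).2.2⟩)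
        hWt0 hδW (fun α hα => by
          have h3 := hIeq α hα
          rw [hv']
          rw [show v - 2 * δ + δ = v - δ by ring]
          exact h3) hP (n := n) hH1 hHp (hH₂ H (by omega) f hf P n)
      rw [hX]
      linarith
    rw [← hX]
    have hX0 : 0 ≤ X := by
      refine le_trans ?_ (h1 0 (by simp))
      exact mul_nonneg hv'0 (pow_nonneg (le_max_right _ _) r)
    rcases hv'0.eq_or_lt with h0 | hpos
    · rw [← h0, zero_mul]
      exact hX0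
    · obtain ⟨c, hc⟩ : ∃ c : ℝ, c = (X / v') ^ ((r : ℝ)⁻¹) := ⟨_, rfl⟩
      have hXv : 0 ≤ X / v' := by positivity
      have hc0 : 0 ≤ c := by rw [hc]; positivity
      have hcr : c ^ r = X / v' := by
        rw [hc]
        exact Real.rpow_inv_natCast_pow hXv (by omega)
      have h2 : sT n ≤ c + δ := by
        have h3 : wSup d Set.univ f n H ≤ (c + δ) * H := by
          refine wSup_le (by positivity) fun P hP _ => ?_
          have h4 := h1 P hP
          have h5 : (max (‖W f P n H‖ / H - δ) 0) ^ r ≤ c ^ r := by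
            rw [hcr, le_div_iff₀ hpos]; linarith
          have h6 := (pow_le_pow_iff_left₀ (le_max_right _ _) hc0 (by omega : r ≠ 0)).1 h5
          have h7 : ‖W f P n H‖ / H ≤ c + δ := by
            have := le_max_left (‖W f P n H‖ / H - δ) 0
            linarith
          rwa [div_le_iff₀ hH0] at h7
        simp only [hsT]
        rwa [div_le_iff₀ hH0]
      have h3 : sT n ^ r ≤ c ^ r + γ := by
        rcases le_total (sT n) c with h4 | h4
        · have := pow_le_pow_left₀ (hsTb n).1 h4 r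
          linarith
        · have h5 := pow_lip r hc0 h4 (hsTb n).2
          have h6 : (r : ℝ) * (sT n - c) ≤ r * δ := mul_le_mul_of_nonneg_left (by linarith) (Nat.cast_nonneg r)
          linarith
      have h4 : sT n ^ r - γ ≤ X / v' := by rw [← hcr]; linarith
      rw [le_div_iff₀ hpos] at h4
      linarith
  -- sum over `n`
  have hsum : v' * (∑ n ∈ Icc 1 N, (1 / (n : ℝ)) * sT n ^ r - γ * hs N) ≤
      (1 / Wt) * ∑ p ∈ I, wt p * ∑ n ∈ Icc 1 N, (1 / (n : ℝ)) * (wSup d U f (n / p) (H / p) / ((H / p : ℕ) : ℝ)) ^ r +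
      ∑ n ∈ Icc 1 N, (1 / (n : ℝ)) * ((1 / (H : ℝ)) * ∑ i ∈ range H, sQ (n + i)) +
      2 * δ * hs N := by
    have h1 : v' * (∑ n ∈ Icc 1 N, (1 / (n : ℝ)) * sT n ^ r - γ * hs N) =
        ∑ n ∈ Icc 1 N, (1 / (n : ℝ)) * (v' * (sT n ^ r - γ)) := by
      unfold hs
      rw [mul_sum, ← sum_sub_distrib, mul_sum]
      refine sum_congr rfl fun n _ => ?_
      ring
    have h2 : (1 / Wt) * ∑ p ∈ I, wt p * ∑ n ∈ Icc 1 N, (1 / (n : ℝ)) * (wSup d U f (n / p) (H / p) / ((H / p : ℕ) : ℝ)) ^ r +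
      ∑ n ∈ Icc 1 N, (1 / (n : ℝ)) * ((1 / (H : ℝ)) * ∑ i ∈ range H, sQ (n + i)) +
      2 * δ * hs N = ∑ n ∈ Icc 1 N, (1 / (n : ℝ)) *
      ((1 / Wt) * ∑ p ∈ I, wt p * (wSup d U f (n / p) (H / p) / ((H / p : ℕ) : ℝ)) ^ r +
      ((1 / (H : ℝ)) * ∑ i ∈ range H, sQ (n + i)) + 2 * δ) := by
      unfold hs
      simp only [mul_add, sum_add_distrib]
      congr 1
      · congr 1
        simp only [mul_sum]
        rw [sum_comm]
        refine sum_congr rfl fun n _ => sum_congr rfl fun p _ => ?_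
        ring
      · rw [mul_sum]
        refine sum_congr rfl fun n _ => ?_
        ring
    rw [h1, h2]
    exact sum_le_sum fun n _ => mul_le_mul_of_nonneg_left (hpt n) (by positivity)
  -- the first term
  have hfirst : ∀ p ∈ I, ∑ n ∈ Icc 1 N, (1 / (n : ℝ)) * (wSup d U f (n / p) (H / p) / ((H / p : ℕ) : ℝ)) ^ r ≤
      ∑ n ∈ Icc 1 N, (1 / (n : ℝ)) * sE n ^ r + 3 * γ * hs N +
        ((1 + Real.log p) + (3 + Real.log ((C₀ * (H / p) : ℕ) : ℝ))) := by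
    intro p hp
    have hp1 := hI p hp
    have h1 := DilL.inner_le p N hp1.1.pos 1 (fun m => (wSup d U f m (H / p) / ((H / p : ℕ) : ℝ)) ^ r)
      (fun m => hb U m (H / p))
    have hHp1 : 1 ≤ H / p := le_trans (by omega) (hHpK p hp)
    have hHp0 : (0 : ℝ) < ((H / p : ℕ) : ℝ) := by exact_mod_cast hHp1
    have h2 := shorter (fun m => (wSup d U f m (H / p) / ((H / p : ℕ) : ℝ)) ^ r) (fun m => (wSup d U f m K / K) ^ r)
      C₀ (H / p) N γ (fun m => (hb U m (H / p)).2) (fun m => hb U m K) hC₀1 hHp1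
      ((Nat.mul_le_mul_left _ (Nat.div_le_self H p)).trans hNN) hγ0.le (fun m => by
        have h3 : ∀ P : ℝ[X], P.natDegree ≤ d → ((P.coeff d : ℝ) : UnitAddCircle) ∈ U →
            ‖W f P m (H / p)‖ ≤ ((1 / ((H / p : ℕ) : ℝ)) * ∑ i ∈ range (H / p), wSup d U f (m + i) K / K + δ) *
              ((H / p : ℕ) : ℝ) := by
          intro P hP hPU
          rw [← div_le_iff₀ hHp0]
          refine (sub_window' hf.1 P m (H / p) K hHp1 hK).trans (add_le_add ?_ ?_)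
          · refine mul_le_mul_of_nonneg_left (sum_le_sum fun i _ => ?_) (by positivity)
            exact div_le_div_of_nonneg_right (le_wSup hf.1 _ _ hP hPU) hK0.le
          · have h4 : (A₁ : ℝ) ≤ ((H / p : ℕ) : ℝ) := by
              have := hHpK p hp
              exact_mod_cast (by omega : A₁ ≤ H / p)
            rw [div_le_iff₀ hδ0] at hA₁
            rw [div_le_iff₀ hHp0]
            nlinarith
        have h5 : 0 ≤ (1 / ((H / p : ℕ) : ℝ)) * ∑ i ∈ range (H / p), wSup d U f (m + i) K / K :=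
          mul_nonneg (by positivity) (sum_nonneg fun i _ => (wSup_div hf.1 d U (m + i) K).1)
        have h6 : wSup d U f m (H / p) / ((H / p : ℕ) : ℝ) ≤
            (1 / ((H / p : ℕ) : ℝ)) * ∑ i ∈ range (H / p), wSup d U f (m + i) K / K + δ := by
          rw [div_le_iff₀ hHp0]
          exact wSup_le (mul_nonneg (by linarith) hHp0.le) h3
        have h7 := pow_mean hHp1 r (z := fun i => wSup d U f (m + i) K / K) (wSup_div hf.1 d U m (H / p)).1
          (wSup_div hf.1 d U m (H / p)).2 hδ0.le (fun i => (wSup_div hf.1 d U (m + i) K).1) h6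
        rw [hrδ] at h7
        exact h7)
    have h3 : ∑ n ∈ Icc 1 N, (1 / (n : ℝ)) * (wSup d U f n K / K) ^ r ≤
        ∑ n ∈ Icc 1 N, (1 / (n : ℝ)) * sE n ^ r + γ * hs N := by
      have h4 : ∑ n ∈ Icc 1 N, (1 / (n : ℝ)) * sE n ^ r + γ * hs N =
          ∑ n ∈ Icc 1 N, (1 / (n : ℝ)) * (sE n ^ r + γ) := by
        unfold hs
        simp only [mul_add, sum_add_distrib]
        rw [mul_sum]
        congr 1
        exact sum_congr rfl fun n _ => by ring
      rw [h4]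
      refine sum_le_sum fun n _ => mul_le_mul_of_nonneg_left ?_ (by positivity)
      have h5 : wSup d U f n K / K ≤ sE n + δ := by
        simp only [hsE]
        rw [div_le_iff₀ hK0, add_mul, div_mul_cancel₀ _ hK0.ne']
        refine (wSup_thick hf.1 E d K n κ hκ0.le hK).trans ?_
        have := mul_le_mul_of_nonneg_right hπκ hK0.le
        linarith
      rcases le_total (wSup d U f n K / K) (sE n) with h6 | h6
      · have := pow_le_pow_left₀ (wSup_div hf.1 d U n K).1 h6 r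
        linarith
      · have h7 := pow_lip r (hsEb n).1 h6 (wSup_div hf.1 d U n K).2
        have h8 : (r : ℝ) * (wSup d U f n K / K - sE n) ≤ r * δ :=
          mul_le_mul_of_nonneg_left (by linarith) (Nat.cast_nonneg r)
        linarith
    have h4 : (1 / (C₀ : ℝ) + γ) * hs N ≤ 2 * γ * hs N := mul_le_mul_of_nonneg_right (by linarith) hhs0
    rw [one_mul] at h1
    have h5 : 3 * γ * hs N = 2 * γ * hs N + γ * hs N := by ring
    rw [h5]
    refine h1.trans ?_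
    linarith
  have hfirst' : (1 / Wt) * ∑ p ∈ I, wt p * ∑ n ∈ Icc 1 N, (1 / (n : ℝ)) *
      (wSup d U f (n / p) (H / p) / ((H / p : ℕ) : ℝ)) ^ r ≤
        ∑ n ∈ Icc 1 N, (1 / (n : ℝ)) * sE n ^ r + 3 * γ * hs N + M₁ := by
    have h1 : ∑ n ∈ Icc 1 N, (1 / (n : ℝ)) * sE n ^ r + 3 * γ * hs N + M₁ =
        (1 / Wt) * ∑ p ∈ I, wt p * (∑ n ∈ Icc 1 N, (1 / (n : ℝ)) * sE n ^ r + 3 * γ * hs N +
        ((1 + Real.log p) + (3 + Real.log ((C₀ * (H / p) : ℕ) : ℝ)))) := by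
      have h2 : ∑ p ∈ I, wt p * (∑ n ∈ Icc 1 N, (1 / (n : ℝ)) * sE n ^ r + 3 * γ * hs N +
        ((1 + Real.log p) + (3 + Real.log ((C₀ * (H / p) : ℕ) : ℝ)))) =
          Wt * (∑ n ∈ Icc 1 N, (1 / (n : ℝ)) * sE n ^ r + 3 * γ * hs N) +
          ∑ p ∈ I, wt p * ((1 + Real.log p) + (3 + Real.log ((C₀ * (H / p) : ℕ) : ℝ))) := by
        rw [hWt, sum_mul, ← sum_add_distrib]
        exact sum_congr rfl fun p _ => by ring
      rw [h2, mul_add, ← mul_assoc, one_div_mul_cancel hWt0.ne', one_mul, hM₁]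
    rw [h1]
    refine mul_le_mul_of_nonneg_left (sum_le_sum fun p hp => ?_) (by positivity)
    exact mul_le_mul_of_nonneg_left (hfirst p hp) (hI p hp).2.2.1
  -- the second term
  have hsecond : ∑ n ∈ Icc 1 N, (1 / (n : ℝ)) * ((1 / (H : ℝ)) * ∑ i ∈ range H, sQ (n + i)) ≤
      ∑ n ∈ Icc 1 N, (1 / (n : ℝ)) * sQ n + γ * hs N + M₂ := by
    have h1 := shorter (fun n => (1 / (H : ℝ)) * ∑ i ∈ range H, sQ (n + i)) sQ C₀ H N 0 (fun n => by
        have h2 : ∑ i ∈ range H, sQ (n + i) ≤ H := by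
          refine (sum_le_card_nsmul _ _ _ fun i _ => (hsQb (n + i)).2).trans (le_of_eq ?_)
          rw [card_range, nsmul_eq_mul, mul_one]
        show (1 / (H : ℝ)) * ∑ i ∈ range H, sQ (n + i) ≤ 1
        rw [one_div, inv_mul_eq_div, div_le_one hH0]
        exact h2)
      hsQb hC₀1 hH1 hNN le_rfl (fun n => by simp)
    have h4 : (1 / (C₀ : ℝ) + 0) * hs N ≤ γ * hs N := mul_le_mul_of_nonneg_right (by linarith) hhs0
    rw [hM₂]
    linarith
  -- conclusion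
  have hsT1 : ∑ n ∈ Icc 1 N, (1 / (n : ℝ)) * sT n ^ r ≤ hs N :=
    sum_le_hs (fun n => sT n ^ r) (fun n => (hb Set.univ n H).2) N
  have hfin := hN₂ N (by omega)
  have hγh : γ * hs N ≤ γ * (1 + Real.log N) := mul_le_mul_of_nonneg_left hhs hγ0.le
  have hδh : δ * hs N ≤ γ * hs N := mul_le_mul_of_nonneg_right hδγ hhs0
  have h1 : v * ∑ n ∈ Icc 1 N, (1 / (n : ℝ)) * sT n ^ r = v' * (∑ n ∈ Icc 1 N, (1 / (n : ℝ)) * sT n ^ r - γ * hs N) +
      2 * δ * ∑ n ∈ Icc 1 N, (1 / (n : ℝ)) * sT n ^ r + v' * (γ * hs N) := by rw [hv']; ring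
  have h2 : v' * (γ * hs N) ≤ 1 * (γ * hs N) := mul_le_mul_of_nonneg_right hv'1 (by positivity)
  have h3 : 2 * δ * ∑ n ∈ Icc 1 N, (1 / (n : ℝ)) * sT n ^ r ≤ 2 * δ * hs N :=
    mul_le_mul_of_nonneg_left hsT1 (by positivity)
  have h4 : γ * Real.log N * 40 ≤ ε * Real.log N := by
    have := mul_le_mul_of_nonneg_right hγε hlog0
    linarith
  have h5 : 0 ≤ γ * Real.log N := by positivity
  show v * ∑ n ∈ Icc 1 N, (1 / (n : ℝ)) * sT n ^ r ≤ ∑ n ∈ Icc 1 N, (1 / (n : ℝ)) * sE n ^ r +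
    ∑ n ∈ Icc 1 N, (1 / (n : ℝ)) * sQ n + ε * Real.log N
  rw [h1]
  linarith

end Pool.Agent.K9h46.ZO
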