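import Pool.Agent.K9h46.ZO.Long

/-!
# Leading coefficients of polynomial phases (helper46): the main inequality, uniformly in `N ≥ H`
-/

set_option autoImplicit false

namespace Pool.Agent.K9h46.ZO

open Finset Polynomial MeasureTheory
open Pool.Agent.H807R2.Dav (ee norm_ee ee_add)
open Pool.Agent.Helper44K9.FU
open Pool.Agent.Helper44K9.FU.FL

/-- the phases of degree at most `d` with leading coefficient in `E` do not correlate with `f` in short
intervals, uniformly in the length of the average -/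
def UnifU (f : ℕ → ℂ) (d : ℕ) (E : Set UnitAddCircle) : Prop :=
  ∀ ε : ℝ, 0 < ε → ∃ H₀ : ℕ, ∀ H N : ℕ, H₀ ≤ H → H ≤ N →
    ∑ n ∈ Icc 1 N, (1 / (n : ℝ)) * wSup d E f n H ≤ ε * H * Real.log N

theorem UnifU.unif {f : ℕ → ℂ} {d : ℕ} {E : Set UnitAddCircle} (h : UnifU f d E) : Unif f d E := by
  intro ε hε
  obtain ⟨H₀, h1⟩ := h ε hε
  exact ⟨H₀, fun H hH => ⟨H, fun N hN => h1 H N hH hN⟩⟩

/-- the sum over the small `n` -/
theorem small_part {f : ℕ → ℂ} (hf : ∀ n, ‖f n‖ ≤ 1) {d : ℕ} (hlong : Long f d) (E : Set UnitAddCircle)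
    {δ : ℝ} (hδ : 0 < δ) (M : ℕ) : ∃ H₀ : ℕ, ∀ H n : ℕ, H₀ ≤ H → n ≤ M * H → wSup d E f n H ≤ δ * H := by
  obtain ⟨A, hA⟩ := hlong.window hf (ε := δ / (2 * (M + 1))) (by positivity)
  obtain ⟨H₀, hH₀⟩ := exists_nat_ge (2 * (A : ℝ) / δ)
  refine ⟨H₀, fun H n hH hn => ?_⟩
  have hHr : (H₀ : ℝ) ≤ H := by exact_mod_cast hH
  refine wSup_le (by positivity) fun P hP _ => ?_
  refine (hA n H ((M + 1) * H) P hP (by rw [add_mul, one_mul]; omega)).trans ?_
  have h1 : δ / (2 * (M + 1)) * (((M + 1) * H : ℕ) : ℝ) = δ / 2 * H := by push_cast; field_simp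
  rw [h1]
  rw [div_le_iff₀ hδ] at hH₀
  nlinarith

/-- **Main inequality.** The phases with an arbitrary leading coefficient, those with a leading coefficient
in `E`, and those with a leading coefficient in a finite set of fractions. -/
theorem main_u (hPW : S_PW) (hPUSH : S_PUSH) {f : ℕ → ℂ} (hf : Mul1 f) {d : ℕ} (hd : 1 ≤ d)
    (hlong : Long f d) (E : Set UnitAddCircle) {K : ℕ} (hK : 1 ≤ K) {ε : ℝ} (hε : 0 < ε) :
    ∃ Q : ℕ, ∀ H' : ℕ, 1 ≤ H' → ∃ H₀ : ℕ, ∀ H N : ℕ, H₀ ≤ H → H ≤ N →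
      (volume (closure E)).toReal * ∑ n ∈ Icc 1 N, (1 / (n : ℝ)) * (wSup d Set.univ f n H / H) ≤
        ∑ n ∈ Icc 1 N, (1 / (n : ℝ)) * (wSup d E f n K / K) +
        ∑ n ∈ Icc 1 N, (1 / (n : ℝ)) * (wSup d (frac Q) f n H' / H') + ε * Real.log N := by
  classical
  set v : ℝ := (volume (closure E)).toReal with hv
  have hv0 : 0 ≤ v := ENNReal.toReal_nonneg
  have hv1 : v ≤ 1 := by
    rw [hv]
    have h1 : volume (closure E) ≤ 1 := by
      refine (measure_mono (Set.subset_univ _)).trans (le_of_eq ?_)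
      exact UnitAddCircle.measure_univ
    exact ENNReal.toReal_le_of_le_ofReal zero_le_one (by simpa using h1)
  set δ : ℝ := min (ε / 40) 1 with hδ
  have hδ0 : 0 < δ := lt_min (by positivity) one_pos
  have hδ1 : δ ≤ 1 := min_le_right _ _
  have hδε : 40 * δ ≤ ε := by
    have := min_le_left (ε / 40) (1 : ℝ)
    linarith
  -- all sums over `N` grow
  have hbig : ∀ M : ℝ, ∃ N₀ : ℕ, ∀ N : ℕ, N₀ ≤ N → M ≤ δ * Real.log N := by
    intro M
    obtain ⟨N₀, hN₀⟩ := exists_nat_ge (Real.exp (M / δ))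
    refine ⟨N₀ + 1, fun N hN => ?_⟩
    have hN0 : (0 : ℝ) < N := by exact_mod_cast (by omega : 0 < N)
    have h1 : M / δ ≤ Real.log N := by
      rw [Real.le_log_iff_exp_le hN0]
      exact hN₀.trans (by exact_mod_cast (by omega : N₀ ≤ N))
    rw [div_le_iff₀ hδ0] at h1
    linarith
  have hSE : ∀ N : ℕ, 0 ≤ ∑ n ∈ Icc 1 N, (1 / (n : ℝ)) * (wSup d E f n K / K) := fun N =>
    sum_nonneg fun n _ => mul_nonneg (by positivity) (wSup_div hf.1 d E n K).1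
  have hSQ : ∀ Q H' N : ℕ, 0 ≤ ∑ n ∈ Icc 1 N, (1 / (n : ℝ)) * (wSup d (frac Q) f n H' / H') := fun Q H' N =>
    sum_nonneg fun n _ => mul_nonneg (by positivity) (wSup_div hf.1 d (frac Q) n H').1
  rcases lt_or_ge v (2 * δ) with hsm | hlg
  · -- small measure
    obtain ⟨N₀, hN₀⟩ := hbig (2 * δ)
    refine ⟨1, fun H' _ => ⟨N₀, fun H N hH hHN => ?_⟩⟩
    have h1 := sum_le_hs (fun n => wSup d Set.univ f n H / H) (fun n => (wSup_div hf.1 d Set.univ n H).2) N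
    have h2 := hs_le N
    have h3 : 0 ≤ ∑ n ∈ Icc 1 N, (1 / (n : ℝ)) * (wSup d Set.univ f n H / H) :=
      sum_nonneg fun n _ => mul_nonneg (by positivity) (wSup_div hf.1 d Set.univ n H).1
    have h4 : v * ∑ n ∈ Icc 1 N, (1 / (n : ℝ)) * (wSup d Set.univ f n H / H) ≤ 2 * δ * (1 + Real.log N) :=
      mul_le_mul hsm.le (h1.trans h2) h3 (by positivity)
    have h5 := hN₀ N (hH.trans hHN)
    have h6 := hSE N
    have h8 := hSQ 1 H' N
    have h7 : 0 ≤ Real.log N := Real.log_natCast_nonneg N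
    nlinarith
  -- the choices
  set κ : ℝ := δ / 8 with hκ
  have hκ0 : 0 < κ := by positivity
  have hπκ : 2 * Real.pi * κ ≤ δ := by
    rw [hκ]
    have := Real.pi_lt_d2
    nlinarith
  have hK0 : (0 : ℝ) < K := by exact_mod_cast hK
  have hr0 : 0 < κ / (K : ℝ) ^ d := by positivity
  obtain ⟨Q, hQ1, hEQ⟩ := equi hPW d hd (closure E) (Metric.thickening (κ / (K : ℝ) ^ d) E) isClosed_closure
    Metric.isOpen_thickening (Metric.closure_subset_thickening hr0 E) δ hδ0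
  refine ⟨Q, fun H' hH'1 => ?_⟩
  have hH'0 : (0 : ℝ) < H' := by exact_mod_cast hH'1
  set τ : ℝ := κ / (H' : ℝ) ^ d with hτ
  have hτ0 : 0 < τ := by positivity
  have hτκ : τ * (H' : ℝ) ^ d ≤ κ := by rw [hτ]; apply le_of_eq; field_simp
  obtain ⟨z, hz⟩ := exists_nat_ge (8 / δ)
  obtain ⟨I, hI, hIA, hIeq⟩ := hEQ τ hτ0 z (300 / δ ^ 2 / δ + 1)
  set Wt : ℝ := ∑ p ∈ I, wt p with hWt
  have hWt0 : 0 < Wt := lt_of_lt_of_le (by positivity) hIA
  have hδW : 300 / δ ^ 2 ≤ δ * Wt := by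
    have h1 : 300 / δ ^ 2 / δ ≤ Wt := by linarith
    rw [div_le_iff₀ hδ0] at h1
    linarith
  obtain ⟨H₂, hH₂⟩ := hPUSH I δ hδ0 fun p hp => ⟨(hI p hp).1, hz.trans (by exact_mod_cast (hI p hp).2.1.le)⟩
  obtain ⟨A₁, hA₁⟩ := exists_nat_ge (2 * (K : ℝ) / δ)
  obtain ⟨A₂, hA₂⟩ := exists_nat_ge (2 * (H' : ℝ) / δ)
  obtain ⟨C₀, hC₀⟩ := exists_nat_ge (1 / δ)
  have hC₀1 : 1 ≤ C₀ := by
    by_contra hcon
    have h1 : C₀ = 0 := by omega
    rw [h1] at hC₀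
    have : 0 < 1 / δ := by positivity
    push_cast at hC₀
    linarith
  have hC₀0 : (0 : ℝ) < C₀ := by exact_mod_cast hC₀1
  have hC₀δ : 1 / (C₀ : ℝ) ≤ δ := by
    rw [div_le_iff₀ hC₀0]
    rw [div_le_iff₀ hδ0] at hC₀
    linarith
  have hC₁δ : 1 / ((C₀ + 1 : ℕ) : ℝ) ≤ δ := by
    refine le_trans ?_ hC₀δ
    push_cast
    exact one_div_le_one_div_of_le hC₀0 (by linarith)
  obtain ⟨H₃, hH₃⟩ := small_part hf.1 hlong Set.univ hδ0 (C₀ + 1)
  obtain ⟨N₂, hN₂⟩ := hbig (20 * δ + 10)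
  set B : ℕ := I.sup id with hB
  have hBp : ∀ p ∈ I, p ≤ B := fun p hp => Finset.le_sup (f := id) hp
  refine ⟨H₂ + B * (A₁ + 1) + A₂ + H₃ + N₂ + 1, fun H N hH hHN => ?_⟩
  have hH1 : 1 ≤ H := by omega
  have hH0 : (0 : ℝ) < H := by exact_mod_cast hH1
  have hHp : ∀ p ∈ I, p ≤ H := by
    intro p hp
    have h1 := hBp p hp
    have h2 : B ≤ B * (A₁ + 1) := Nat.le_mul_of_pos_right _ (by omega)
    omega
  have hHpK : ∀ p ∈ I, A₁ + 1 ≤ H / p := by
    intro p hp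
    rw [Nat.le_div_iff_mul_le (hI p hp).1.pos]
    have h1 := Nat.mul_le_mul_left (A₁ + 1) (hBp p hp)
    have h2 : (A₁ + 1) * B = B * (A₁ + 1) := mul_comm _ _
    omega
  have hHδ : 2 * (H' : ℝ) / H ≤ δ := by
    have h1 : (A₂ : ℝ) ≤ H := by exact_mod_cast (by omega : A₂ ≤ H)
    rw [div_le_iff₀ hδ0] at hA₂
    rw [div_le_iff₀ hH0]
    nlinarith
  have hlog0 : 0 ≤ Real.log N := Real.log_natCast_nonneg N
  have hhs0 := hs_nonneg N
  have hhs := hs_le N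
  set v' : ℝ := v - 2 * δ with hv'
  have hv'0 : 0 ≤ v' := by linarith
  have hv'1 : v' ≤ 1 := by linarith
  set sT : ℕ → ℝ := fun n => wSup d Set.univ f n H / H with hsT
  set sE : ℕ → ℝ := fun n => wSup d E f n K / K with hsE
  set sQ : ℕ → ℝ := fun n => wSup d (frac Q) f n H' / H' with hsQ
  set U : Set UnitAddCircle := Metric.thickening (κ / (K : ℝ) ^ d) E with hU
  -- the pointwise inequality
  have hpt : ∀ n : ℕ, v' * (sT n - δ) ≤
      (1 / Wt) * ∑ p ∈ I, wt p * (wSup d U f (n / p) (H / p) / ((H / p : ℕ) : ℝ)) +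
      ((1 / (H : ℝ)) * ∑ i ∈ range H, sQ (n + i)) + 2 * δ := by
    intro n
    obtain ⟨X, hX⟩ : ∃ X : ℝ, X = (1 / Wt) * ∑ p ∈ I, wt p * (wSup d U f (n / p) (H / p) / ((H / p : ℕ) : ℝ)) +
      ((1 / (H : ℝ)) * ∑ i ∈ range H, sQ (n + i)) + 2 * δ := ⟨_, rfl⟩
    have h1 : ∀ P : ℝ[X], P.natDegree ≤ d → v' * (‖W f P n H‖ / H - δ) ≤ X := by
      intro P hP
      have h2 := core hf hv'0 hv'1 hδ0 hκ0.le hH'1 hτκ (fun p hp => ⟨(hI p hp).1, (hI p hp).2.2⟩)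
        hWt0 hδW (fun α hα => by
          have h3 := hIeq α hα
          rw [hv']
          rw [show v - 2 * δ + δ = v - δ by ring]
          exact h3) hP (n := n) hH1 hHp (hH₂ H (by omega) f hf P n)
      rw [hX]
      linarith
    rw [← hX]
    rcases hv'0.eq_or_lt with h0 | hpos
    · have h2 := h1 0 (by simp)
      rw [← h0, zero_mul] at h2 ⊢
      exact h2
    · have h2 : sT n - δ ≤ X / v' := by
        have hX0 : 0 ≤ (X / v' + δ) * H := by
          have h3 := h1 0 (by simp)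
          have h4 : ‖W f 0 n H‖ / H - δ ≤ X / v' := by
            rw [le_div_iff₀ hpos]; linarith
          have h5 : 0 ≤ ‖W f 0 n H‖ / H := by positivity
          have h6 : 0 ≤ X / v' + δ := by linarith
          positivity
        have h3 : wSup d Set.univ f n H ≤ (X / v' + δ) * H := by
          refine wSup_le hX0 fun P hP _ => ?_
          have h4 := h1 P hP
          have h5 : ‖W f P n H‖ / H ≤ X / v' + δ := by
            have h6 : ‖W f P n H‖ / H - δ ≤ X / v' := by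
              rw [le_div_iff₀ hpos]; linarith
            linarith
          rwa [div_le_iff₀ hH0] at h5
        rw [← div_le_iff₀ hH0] at h3
        simp only [hsT]
        linarith
      rw [le_div_iff₀ hpos] at h2
      linarith
  have hsTb : ∀ n, 0 ≤ sT n ∧ sT n ≤ 1 := fun n => wSup_div hf.1 d Set.univ n H
  have hsEb : ∀ n, 0 ≤ sE n ∧ sE n ≤ 1 := fun n => wSup_div hf.1 d E n K
  have hsQb : ∀ n, 0 ≤ sQ n ∧ sQ n ≤ 1 := fun n => wSup_div hf.1 d (frac Q) n H'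
  set S : Finset ℕ := Ioc ((C₀ + 1) * H) N with hS
  have hSsub : S ⊆ Icc 1 N := by
    intro n hn
    rw [hS, mem_Ioc] at hn
    rw [mem_Icc]
    omega
  have hSmem : ∀ n ∈ S, (C₀ + 1) * H < n ∧ n ≤ N := fun n hn => by
    rw [hS, mem_Ioc] at hn
    exact hn
  -- splitting
  have hsplit : ∑ n ∈ Icc 1 N, (1 / (n : ℝ)) * sT n ≤ δ * hs N + ∑ n ∈ S, (1 / (n : ℝ)) * sT n := by
    have h1 : ∀ n ∈ Icc 1 N, (1 / (n : ℝ)) * sT n ≤ δ * (1 / (n : ℝ)) +
        (if n ∈ S then (1 / (n : ℝ)) * sT n else 0) := by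
      intro n hn
      rw [mem_Icc] at hn
      by_cases h2 : n ∈ S
      · rw [if_pos h2]
        have : 0 ≤ δ * (1 / (n : ℝ)) := by positivity
        linarith
      · rw [if_neg h2, add_zero, mul_comm]
        refine mul_le_mul_of_nonneg_right ?_ (by positivity)
        simp only [hsT]
        rw [div_le_iff₀ hH0]
        refine hH₃ H n (by omega) ?_
        rw [hS, mem_Ioc] at h2
        by_contra hcon
        exact h2 ⟨by omega, hn.2⟩
    refine (sum_le_sum h1).trans (le_of_eq ?_)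
    rw [sum_add_distrib, ← mul_sum, ← sum_filter]
    congr 1
    refine sum_congr ?_ fun _ _ => rfl
    ext n
    rw [mem_filter]
    exact ⟨fun h => h.2, fun h => ⟨hSsub h, h⟩⟩
  have hSle : ∀ s : ℕ → ℝ, (∀ n, 0 ≤ s n) → ∑ n ∈ S, (1 / (n : ℝ)) * s n ≤ ∑ n ∈ Icc 1 N, (1 / (n : ℝ)) * s n :=
    fun s hs0 => sum_le_sum_of_subset_of_nonneg hSsub fun n _ _ => mul_nonneg (by positivity) (hs0 n)
  have hShs : ∑ n ∈ S, 1 / (n : ℝ) ≤ hs N :=
    sum_le_sum_of_subset_of_nonneg hSsub fun n _ _ => by positivity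
  have hShs0 : 0 ≤ ∑ n ∈ S, 1 / (n : ℝ) := sum_nonneg fun n _ => by positivity
  -- sum over `n`
  have hsum : v' * (∑ n ∈ S, (1 / (n : ℝ)) * sT n - δ * hs N) ≤
      (1 / Wt) * ∑ p ∈ I, wt p * ∑ n ∈ S, (1 / (n : ℝ)) * (wSup d U f (n / p) (H / p) / ((H / p : ℕ) : ℝ)) +
      ∑ n ∈ S, (1 / (n : ℝ)) * ((1 / (H : ℝ)) * ∑ i ∈ range H, sQ (n + i)) +
      2 * δ * hs N := by
    have h0 : v' * (∑ n ∈ S, (1 / (n : ℝ)) * sT n - δ * hs N) ≤
        v' * (∑ n ∈ S, (1 / (n : ℝ)) * sT n - δ * ∑ n ∈ S, 1 / (n : ℝ)) := by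
      refine mul_le_mul_of_nonneg_left ?_ hv'0
      have := mul_le_mul_of_nonneg_left hShs hδ0.le
      linarith
    have h1 : v' * (∑ n ∈ S, (1 / (n : ℝ)) * sT n - δ * ∑ n ∈ S, 1 / (n : ℝ)) =
        ∑ n ∈ S, (1 / (n : ℝ)) * (v' * (sT n - δ)) := by
      rw [mul_sum, ← sum_sub_distrib, mul_sum]
      refine sum_congr rfl fun n _ => ?_
      ring
    have h2 : (1 / Wt) * ∑ p ∈ I, wt p * ∑ n ∈ S, (1 / (n : ℝ)) * (wSup d U f (n / p) (H / p) / ((H / p : ℕ) : ℝ)) +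
      ∑ n ∈ S, (1 / (n : ℝ)) * ((1 / (H : ℝ)) * ∑ i ∈ range H, sQ (n + i)) +
      2 * δ * ∑ n ∈ S, 1 / (n : ℝ) = ∑ n ∈ S, (1 / (n : ℝ)) *
      ((1 / Wt) * ∑ p ∈ I, wt p * (wSup d U f (n / p) (H / p) / ((H / p : ℕ) : ℝ)) +
      ((1 / (H : ℝ)) * ∑ i ∈ range H, sQ (n + i)) + 2 * δ) := by
      simp only [mul_add, sum_add_distrib]
      congr 1
      · congr 1
        simp only [mul_sum]
        rw [sum_comm]
        refine sum_congr rfl fun n _ => sum_congr rfl fun p _ => ?_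
        ring
      · rw [mul_sum]
        refine sum_congr rfl fun n _ => ?_
        ring
    have h3 : 2 * δ * ∑ n ∈ S, 1 / (n : ℝ) ≤ 2 * δ * hs N := mul_le_mul_of_nonneg_left hShs (by positivity)
    have h4 : ∑ n ∈ S, (1 / (n : ℝ)) * (v' * (sT n - δ)) ≤ ∑ n ∈ S, (1 / (n : ℝ)) *
      ((1 / Wt) * ∑ p ∈ I, wt p * (wSup d U f (n / p) (H / p) / ((H / p : ℕ) : ℝ)) +
      ((1 / (H : ℝ)) * ∑ i ∈ range H, sQ (n + i)) + 2 * δ) :=
      sum_le_sum fun n _ => mul_le_mul_of_nonneg_left (hpt n) (by positivity)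
    rw [← h2] at h4
    rw [h1] at h0
    linarith
  -- averages over the windows
  have hsubn : ∀ (s s' : ℕ → ℝ) (C L : ℕ) (η : ℝ), (∀ n, 0 ≤ s n) → (∀ n, 0 ≤ s' n ∧ s' n ≤ 1) → 1 ≤ C → 1 ≤ L →
      0 ≤ η → 1 / (C : ℝ) ≤ δ → (∀ n, s n ≤ (1 / (L : ℝ)) * ∑ i ∈ range L, s' (n + i) + η) →
      ∑ n ∈ Ioc (C * L) N, (1 / (n : ℝ)) * s n ≤
        ∑ n ∈ Icc 1 N, (1 / (n : ℝ)) * s' n + δ * hs N + 2 + η * hs N := by
    intro s s' C L η hs0 hs' hC hL hη hCδ hss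
    have h5 : ∑ n ∈ Icc 1 N, (1 / (n : ℝ)) * s' n ≤ hs N := sum_le_hs s' (fun n => (hs' n).2) N
    have h6 : 0 ≤ ∑ n ∈ Icc 1 N, (1 / (n : ℝ)) * s' n :=
      sum_nonneg fun n _ => mul_nonneg (by positivity) (hs' n).1
    rcases Nat.lt_or_ge N (C * L) with hlt | hge
    · rw [Ioc_eq_empty (by omega), sum_empty]
      positivity
    · have h1 := sub s s' C L N η hs' hC hL hge hη hss
      have h8 : ∑ n ∈ Icc 1 N, 1 / (n : ℝ) = hs N := rfl
      rw [h8] at h1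
      have hC0 : (0 : ℝ) ≤ 1 / (C : ℝ) := by positivity
      have h9 : (1 + 1 / (C : ℝ)) * (∑ n ∈ Icc 1 N, (1 / (n : ℝ)) * s' n + 1) =
          ∑ n ∈ Icc 1 N, (1 / (n : ℝ)) * s' n + (1 / (C : ℝ)) * ∑ n ∈ Icc 1 N, (1 / (n : ℝ)) * s' n +
            1 + 1 / (C : ℝ) := by ring
      rw [h9] at h1
      have h10 : (1 / (C : ℝ)) * ∑ n ∈ Icc 1 N, (1 / (n : ℝ)) * s' n ≤ δ * hs N :=
        mul_le_mul hCδ h5 h6 hδ0.le
      linarith
  -- the first term
  have hfirst : ∀ p ∈ I, ∑ n ∈ S, (1 / (n : ℝ)) * (wSup d U f (n / p) (H / p) / ((H / p : ℕ) : ℝ)) ≤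
      ∑ n ∈ Icc 1 N, (1 / (n : ℝ)) * sE n + 3 * δ * hs N + 2 := by
    intro p hp
    have hp1 := hI p hp
    have hHp1 : 1 ≤ H / p := le_trans (by omega) (hHpK p hp)
    have hHp0 : (0 : ℝ) < ((H / p : ℕ) : ℝ) := by exact_mod_cast hHp1
    have h1 := DilL.sum_div_le p hp1.1.pos (fun m => wSup d U f m (H / p) / ((H / p : ℕ) : ℝ))
      (fun m => (wSup_div hf.1 d U m (H / p)).1) S (Ioc (C₀ * (H / p)) N) (fun n hn => by
        have h2 := hSmem n hn
        have h3 : p ≤ n := by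
          have h4 := hHp p hp
          have h5 : H ≤ (C₀ + 1) * H := Nat.le_mul_of_pos_left _ (by omega)
          omega
        refine ⟨h3, ?_⟩
        rw [mem_Ioc]
        refine ⟨?_, (Nat.div_le_self n p).trans h2.2⟩
        have h4 : (C₀ + 1) * (H / p) ≤ n / p := by
          rw [Nat.le_div_iff_mul_le hp1.1.pos, mul_assoc]
          exact (Nat.mul_le_mul_left _ (Nat.div_mul_le_self H p)).trans h2.1.le
        rw [add_mul, one_mul] at h4
        omega)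
    have h2 := hsubn (fun m => wSup d U f m (H / p) / ((H / p : ℕ) : ℝ)) (fun m => wSup d U f m K / K)
      C₀ (H / p) δ (fun m => (wSup_div hf.1 d U m (H / p)).1) (fun m => wSup_div hf.1 d U m K) hC₀1 hHp1
      hδ0.le hC₀δ (fun m => by
        have h3 : ∀ P : ℝ[X], P.natDegree ≤ d → ((P.coeff d : ℝ) : UnitAddCircle) ∈ U →
            ‖W f P m (H / p)‖ ≤ ((1 / ((H / p : ℕ) : ℝ)) * ∑ i ∈ range (H / p), wSup d U f (m + i) K / K + δ) *
              ((H / p : ℕ) : ℝ) := by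
          intro P hP hPU
          rw [← div_le_iff₀ hHp0]
          refine (sub_window' hf.1 P m (H / p) K hHp1 hK).trans (add_le_add ?_ ?_)
          · refine mul_le_mul_of_nonneg_left (sum_le_sum fun i _ => ?_) (by positivity)
            exact div_le_div_of_nonneg_right (le_wSup hf.1 _ _ hP hPU) hK0.le
          · have h4 : (A₁ : ℝ) ≤ ((H / p : ℕ) : ℝ) := by
              have := hHpK p hp
              exact_mod_cast (by omega : A₁ ≤ H / p)
            rw [div_le_iff₀ hδ0] at hA₁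
            rw [div_le_iff₀ hHp0]
            nlinarith
        have h5 : 0 ≤ (1 / ((H / p : ℕ) : ℝ)) * ∑ i ∈ range (H / p), wSup d U f (m + i) K / K :=
          mul_nonneg (by positivity) (sum_nonneg fun i _ => (wSup_div hf.1 d U (m + i) K).1)
        show wSup d U f m (H / p) / ((H / p : ℕ) : ℝ) ≤ _
        rw [div_le_iff₀ hHp0]
        exact wSup_le (mul_nonneg (by linarith) hHp0.le) h3)
    have h3 : ∑ n ∈ Icc 1 N, (1 / (n : ℝ)) * (wSup d U f n K / K) ≤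
        ∑ n ∈ Icc 1 N, (1 / (n : ℝ)) * sE n + δ * hs N := by
      have h4 : ∑ n ∈ Icc 1 N, (1 / (n : ℝ)) * sE n + δ * hs N = ∑ n ∈ Icc 1 N, (1 / (n : ℝ)) * (sE n + δ) := by
        unfold hs
        simp only [mul_add, sum_add_distrib]
        rw [mul_sum]
        congr 1
        exact sum_congr rfl fun n _ => by ring
      rw [h4]
      refine sum_le_sum fun n _ => mul_le_mul_of_nonneg_left ?_ (by positivity)
      simp only [hsE]
      rw [div_le_iff₀ hK0, add_mul, div_mul_cancel₀ _ hK0.ne']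
      refine (wSup_thick hf.1 E d K n κ hκ0.le hK).trans ?_
      have := mul_le_mul_of_nonneg_right hπκ hK0.le
      linarith
    have h5 : 3 * δ * hs N = δ * hs N + δ * hs N + δ * hs N := by ring
    rw [h5]
    refine h1.trans ?_
    linarith
  have hfirst' : (1 / Wt) * ∑ p ∈ I, wt p * ∑ n ∈ S, (1 / (n : ℝ)) *
      (wSup d U f (n / p) (H / p) / ((H / p : ℕ) : ℝ)) ≤ ∑ n ∈ Icc 1 N, (1 / (n : ℝ)) * sE n + 3 * δ * hs N + 2 := by
    have h1 : ∑ n ∈ Icc 1 N, (1 / (n : ℝ)) * sE n + 3 * δ * hs N + 2 =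
        (1 / Wt) * ∑ p ∈ I, wt p * (∑ n ∈ Icc 1 N, (1 / (n : ℝ)) * sE n + 3 * δ * hs N + 2) := by
      rw [← sum_mul, ← hWt, ← mul_assoc, one_div_mul_cancel hWt0.ne', one_mul]
    rw [h1]
    refine mul_le_mul_of_nonneg_left (sum_le_sum fun p hp => ?_) (by positivity)
    exact mul_le_mul_of_nonneg_left (hfirst p hp) (hI p hp).2.2.1
  -- the second term
  have hsecond : ∑ n ∈ S, (1 / (n : ℝ)) * ((1 / (H : ℝ)) * ∑ i ∈ range H, sQ (n + i)) ≤
      ∑ n ∈ Icc 1 N, (1 / (n : ℝ)) * sQ n + δ * hs N + 2 := by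
    have h1 := hsubn (fun n => (1 / (H : ℝ)) * ∑ i ∈ range H, sQ (n + i)) sQ (C₀ + 1) H 0
      (fun n => mul_nonneg (by positivity) (sum_nonneg fun i _ => (hsQb (n + i)).1)) hsQb (by omega) hH1
      le_rfl hC₁δ (fun n => by simp)
    rw [zero_mul, add_zero] at h1
    exact h1
  -- conclusion
  have hsT1 : ∑ n ∈ S, (1 / (n : ℝ)) * sT n ≤ hs N :=
    (hSle sT fun n => (hsTb n).1).trans (sum_le_hs sT (fun n => (hsTb n).2) N)
  have hfin := hN₂ N (by omega)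
  have hδh : δ * hs N ≤ δ * (1 + Real.log N) := mul_le_mul_of_nonneg_left hhs hδ0.le
  have h0 : v * ∑ n ∈ Icc 1 N, (1 / (n : ℝ)) * sT n ≤ v * (δ * hs N + ∑ n ∈ S, (1 / (n : ℝ)) * sT n) :=
    mul_le_mul_of_nonneg_left hsplit hv0
  have h1 : v * (δ * hs N + ∑ n ∈ S, (1 / (n : ℝ)) * sT n) = v * (δ * hs N) +
      v' * (∑ n ∈ S, (1 / (n : ℝ)) * sT n - δ * hs N) +
      2 * δ * ∑ n ∈ S, (1 / (n : ℝ)) * sT n + v' * (δ * hs N) := by rw [hv']; ring
  have h2 : v' * (δ * hs N) ≤ 1 * (δ * hs N) := mul_le_mul_of_nonneg_right hv'1 (by positivity)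
  have h2' : v * (δ * hs N) ≤ 1 * (δ * hs N) := mul_le_mul_of_nonneg_right hv1 (by positivity)
  have h3 : 2 * δ * ∑ n ∈ S, (1 / (n : ℝ)) * sT n ≤ 2 * δ * hs N :=
    mul_le_mul_of_nonneg_left hsT1 (by positivity)
  have h4 : δ * Real.log N * 40 ≤ ε * Real.log N := by
    have := mul_le_mul_of_nonneg_right hδε hlog0
    linarith
  have h5 : 0 ≤ δ * Real.log N := by positivity
  rw [h1] at h0
  show v * ∑ n ∈ Icc 1 N, (1 / (n : ℝ)) * sT n ≤ ∑ n ∈ Icc 1 N, (1 / (n : ℝ)) * sE n +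
    ∑ n ∈ Icc 1 N, (1 / (n : ℝ)) * sQ n + ε * Real.log N
  linarith

end Pool.Agent.K9h46.ZO
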